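import Mathlib

set_option autoImplicit false

/-!
# The Ohtsuki series of the Seifert fibred integral homology spheres

`Σ(a_1, …, a_n)`, `n ≥ 3`, `a_i ≥ 2` pairwise coprime, `P = a_1 ⋯ a_n`. Every Seifert fibred integral
homology sphere is the 3-sphere or one of these manifolds with one of the two orientations. The
theorem of Lawrence and Rozansky says that the Ohtsuki series of `Σ(a_1, …, a_n)` is, with `q = exp h`,

  `q ^ (-φ / 4) / (q ^ (1 / 2) - q ^ (-1 / 2)) * 2 * ⟨∏ sinh (y / a_i) / sinh y ^ (n - 2)⟩`,

where `φ` is a certain rational number and `⟨ ⟩` is the formal Gaussian integral of variance `P h / 2`,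
that is, `⟨y ^ (2 k)⟩ = (2 k - 1)!! (P h / 2) ^ k`.
-/

namespace Pool.Agent.K3h96.OS

open PowerSeries

/-- An oriented Seifert fibred integral homology sphere with at least three exceptional fibres: the
set of the orders of the exceptional fibres, and the orientation (`1` for the orientation for which
the formula above holds, `-1` for the opposite one). -/
structure SeifertSphere where
  /-- the orders of the exceptional fibres -/
  orders : Finset ℕ
  /-- there are at least three exceptional fibres -/
  three_le : 3 ≤ orders.card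
  /-- the orders are at least two -/
  two_le : ∀ a ∈ orders, 2 ≤ a
  /-- the orders are pairwise coprime -/
  coprime : ∀ a ∈ orders, ∀ b ∈ orders, a ≠ b → a.Coprime b
  /-- the orientation -/
  orientation : ℤˣ

/-- the power series `sinh (x y) / y = ∑ x ^ (2 k + 1) z ^ k / (2 k + 1)!` in `z = y ^ 2` -/
noncomputable def sinhSeries (x : ℚ) : PowerSeries ℚ :=
  PowerSeries.mk fun k => x ^ (2 * k + 1) / ((2 * k + 1).factorial : ℚ)

/-- the power series `F` with `∏ sinh (y / a_i) / sinh y ^ (n - 2) = y ^ 2 F(y ^ 2)` -/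
noncomputable def kernelSeries (S : Finset ℕ) : PowerSeries ℚ :=
  (∏ a ∈ S, sinhSeries (1 / (a : ℚ))) * (sinhSeries 1)⁻¹ ^ (S.card - 2)

/-- the formal Gaussian integral `⟨y ^ 2 F(y ^ 2)⟩` of variance `P h / 2`, divided by `h / 2`: the
coefficient of `h ^ k` is `(2 k + 1)!! P ^ (k + 1) / 2 ^ k` times the coefficient of `F` -/
noncomputable def gaussSeries (S : Finset ℕ) : PowerSeries ℚ :=
  PowerSeries.mk fun k => (Nat.doubleFactorial (2 * k + 1) : ℚ) *
    ((∏ a ∈ S, (a : ℚ)) ^ (k + 1) / 2 ^ k) * coeff k (kernelSeries S)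

/-- the power series `(q ^ (1 / 2) - q ^ (-1 / 2)) / h`, `q = exp h` -/
noncomputable def quantumTwo : PowerSeries ℂ :=
  PowerSeries.mk fun k => if Even k then (1 / 2) ^ k / ((k + 1).factorial : ℂ) else 0

/-- The Ohtsuki series of `M` in the variable `h = log q`; `φ` is the number in the factor
`q ^ (-φ / 4)`. The series of the manifold with the opposite orientation is obtained by replacing
`h` by `-h`. -/
noncomputable def ohtsuki (φ : ℂ) (M : SeifertSphere) : PowerSeries ℂ :=
  rescale ((M.orientation : ℤ) : ℂ) (rescale (-φ / 4) (PowerSeries.exp ℂ) * quantumTwo⁻¹ *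
    (gaussSeries M.orders).map (algebraMap ℚ ℂ))

/-- power series whose coefficients grow more slowly than `k! (30 / π ^ 2) ^ k`; all convergent power
series are of this kind -/
def Slow (c : PowerSeries ℂ) : Prop :=
  ∃ K ρ : ℝ, 0 < ρ ∧ ρ < 30 / Real.pi ^ 2 ∧ ∀ k, ‖coeff k c‖ ≤ K * ρ ^ k * (k.factorial : ℝ)

end Pool.Agent.K3h96.OS
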