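import Mathlib

set_option autoImplicit false

/-! # Power series with radius of convergence larger than one and their expansion at `-1` -/

namespace Pool.Agent.K3h96.OS

open Finset PowerSeries

/-- the radius of convergence is larger than one -/
def Wn (f : PowerSeries ℂ) : Prop := ∃ C θ : ℝ, 0 < θ ∧ θ < 1 ∧ ∀ k, ‖coeff k f‖ ≤ C * θ ^ k

theorem Wn.nonneg {f : PowerSeries ℂ} (h : Wn f) :
    ∃ C θ : ℝ, 0 ≤ C ∧ 0 < θ ∧ θ < 1 ∧ ∀ k, ‖coeff k f‖ ≤ C * θ ^ k := by
  obtain ⟨C, θ, h0, h1, hb⟩ := h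
  refine ⟨C, θ, ?_, h0, h1, hb⟩
  have := hb 0
  rw [pow_zero, mul_one] at this
  exact (norm_nonneg _).trans this

/-- a common `θ` -/
theorem Wn.two {f g : PowerSeries ℂ} (h : Wn f) (h' : Wn g) :
    ∃ C θ : ℝ, 0 ≤ C ∧ 0 < θ ∧ θ < 1 ∧ (∀ k, ‖coeff k f‖ ≤ C * θ ^ k) ∧
      ∀ k, ‖coeff k g‖ ≤ C * θ ^ k := by
  obtain ⟨C, θ, hC, h0, h1, hb⟩ := h.nonneg
  obtain ⟨C', θ', hC', h0', h1', hb'⟩ := h'.nonneg
  refine ⟨C + C', max θ θ', by positivity, lt_max_of_lt_left h0, max_lt h1 h1', fun k => ?_,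
    fun k => ?_⟩
  · refine (hb k).trans ?_
    exact mul_le_mul (by linarith) (pow_le_pow_left₀ h0.le (le_max_left _ _) k) (by positivity)
      (by positivity)
  · refine (hb' k).trans ?_
    exact mul_le_mul (by linarith) (pow_le_pow_left₀ h0'.le (le_max_right _ _) k) (by positivity)
      (by positivity)

theorem Wn.summable {f : PowerSeries ℂ} (h : Wn f) : Summable fun k => ‖coeff k f‖ := by
  obtain ⟨C, θ, hC, h0, h1, hb⟩ := h.nonneg
  exact Summable.of_nonneg_of_le (fun _ => norm_nonneg _) hb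
    ((summable_geometric_of_lt_one h0.le h1).mul_left C)

theorem Wn.summable' {f : PowerSeries ℂ} (h : Wn f) :
    Summable fun k => (-1 : ℂ) ^ k * coeff k f := by
  refine Summable.of_norm ?_
  refine h.summable.congr fun k => ?_
  rw [norm_mul, norm_pow, norm_neg, norm_one, one_pow, one_mul]

theorem Wn.add {f g : PowerSeries ℂ} (h : Wn f) (h' : Wn g) : Wn (f + g) := by
  obtain ⟨C, θ, hC, h0, h1, hb, hb'⟩ := h.two h'
  refine ⟨2 * C, θ, h0, h1, fun k => ?_⟩
  rw [map_add]
  refine (norm_add_le _ _).trans ?_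
  have := hb k
  have := hb' k
  linarith

/-- polynomial factors are harmless -/
theorem poly_geom (θ : ℝ) (h0 : 0 < θ) (h1 : θ < 1) (m : ℕ) :
    ∃ C θ' : ℝ, 0 < C ∧ 0 < θ' ∧ θ' < 1 ∧ ∀ k : ℕ, ((k : ℝ) + 1) ^ m * θ ^ k ≤ C * θ' ^ k := by
  obtain ⟨θ', hθ, hθ'⟩ := exists_between h1
  have h0' : 0 < θ' := h0.trans hθ
  have hr : ‖θ / θ'‖ < 1 := by
    rw [Real.norm_of_nonneg (by positivity)]
    rwa [div_lt_one h0']
  have h2 := tendsto_pow_const_mul_const_pow_of_abs_lt_one m hr
  have h3 : Filter.Tendsto (fun k : ℕ => ((k : ℝ) + 1) ^ m * (θ / θ') ^ k) Filter.atTop (nhds 0) := by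
    have h4 := (h2.comp (Filter.tendsto_add_atTop_nat 1)).mul_const ((θ / θ')⁻¹)
    rw [zero_mul] at h4
    refine h4.congr fun k => ?_
    simp only [Function.comp]
    push_cast
    rw [pow_succ]
    field_simp
  obtain ⟨C, hC⟩ := h3.bddAbove_range
  refine ⟨max C 1, θ', by positivity, h0', hθ', fun k => ?_⟩
  have h5 := hC ⟨k, rfl⟩
  simp only at h5
  have h6 : ((k : ℝ) + 1) ^ m * θ ^ k = ((k : ℝ) + 1) ^ m * (θ / θ') ^ k * θ' ^ k := by
    rw [div_pow]
    field_simp
  rw [h6]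
  exact mul_le_mul_of_nonneg_right (h5.trans (le_max_left _ _)) (by positivity)

theorem Wn.mul {f g : PowerSeries ℂ} (h : Wn f) (h' : Wn g) : Wn (f * g) := by
  obtain ⟨C, θ, hC, h0, h1, hb, hb'⟩ := h.two h'
  obtain ⟨K, θ', hK, h0', h1', hp⟩ := poly_geom θ h0 h1 1
  refine ⟨C * C * K, θ', h0', h1', fun k => ?_⟩
  rw [coeff_mul]
  refine (norm_sum_le _ _).trans ?_
  calc ∑ x ∈ antidiagonal k, ‖coeff x.1 f * coeff x.2 g‖
      ≤ ∑ x ∈ antidiagonal k, C * C * θ ^ k := by
        refine sum_le_sum fun x hx => ?_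
        rw [HasAntidiagonal.mem_antidiagonal] at hx
        rw [norm_mul, ← hx, pow_add]
        calc ‖coeff x.1 f‖ * ‖coeff x.2 g‖ ≤ (C * θ ^ x.1) * (C * θ ^ x.2) :=
              mul_le_mul (hb _) (hb' _) (norm_nonneg _) (by positivity)
          _ = _ := by ring
    _ = C * C * (((k : ℝ) + 1) ^ 1 * θ ^ k) := by
        rw [sum_const, Nat.card_antidiagonal, nsmul_eq_mul]
        push_cast
        ring
    _ ≤ C * C * (K * θ' ^ k) := mul_le_mul_of_nonneg_left (hp k) (by positivity)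
    _ = _ := by ring

theorem Wn.const (a : ℂ) : Wn (C a) := by
  refine ⟨‖a‖, 1 / 2, by norm_num, by norm_num, fun k => ?_⟩
  rw [coeff_C]
  split_ifs with h
  · rw [h, pow_zero, mul_one]
  · rw [norm_zero]
    positivity

theorem Wn.one : Wn 1 := by simpa using Wn.const 1

theorem Wn.X : Wn (X : PowerSeries ℂ) := by
  refine ⟨2, 1 / 2, by norm_num, by norm_num, fun k => ?_⟩
  rw [coeff_X]
  split_ifs with h
  · rw [h]; norm_num
  · rw [norm_zero]
    positivity

theorem Wn.neg {f : PowerSeries ℂ} (h : Wn f) : Wn (-f) := by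
  have := (Wn.const (-1)).mul h
  simpa using this

theorem Wn.sub {f g : PowerSeries ℂ} (h : Wn f) (h' : Wn g) : Wn (f - g) := by
  rw [sub_eq_add_neg]
  exact h.add h'.neg

theorem Wn.pow {f : PowerSeries ℂ} (h : Wn f) (n : ℕ) : Wn (f ^ n) := by
  induction n with
  | zero => simpa using Wn.one
  | succ n ih => rw [pow_succ]; exact ih.mul h

theorem Wn.prod {ι : Type*} (s : Finset ι) (f : ι → PowerSeries ℂ) (h : ∀ i ∈ s, Wn (f i)) :
    Wn (∏ i ∈ s, f i) := by
  classical
  induction s using Finset.induction_on with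
  | empty => simpa using Wn.one
  | insert a s ha ih =>
    rw [prod_insert ha]
    exact (h a (mem_insert_self _ _)).mul (ih fun i hi => h i (mem_insert_of_mem hi))

/-- the value at `-1` -/
noncomputable def ev (f : PowerSeries ℂ) : ℂ := ∑' k, (-1) ^ k * coeff k f

theorem ev_C (a : ℂ) : ev (C a) = a := by
  unfold ev
  rw [tsum_eq_single 0]
  · simp
  · intro k hk
    rw [coeff_C, if_neg hk, mul_zero]

theorem ev_one : ev 1 = 1 := by simpa using ev_C 1

theorem ev_X : ev (X : PowerSeries ℂ) = -1 := by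
  unfold ev
  rw [tsum_eq_single 1]
  · simp
  · intro k hk
    rw [coeff_X, if_neg hk, mul_zero]

theorem ev_add {f g : PowerSeries ℂ} (h : Wn f) (h' : Wn g) : ev (f + g) = ev f + ev g := by
  unfold ev
  rw [← h.summable'.tsum_add h'.summable']
  refine tsum_congr fun k => ?_
  rw [map_add]
  ring

theorem ev_mul {f g : PowerSeries ℂ} (h : Wn f) (h' : Wn g) : ev (f * g) = ev f * ev g := by
  unfold ev
  have hf : Summable fun k => ‖(-1 : ℂ) ^ k * coeff k f‖ := by
    refine h.summable.congr fun k => ?_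
    rw [norm_mul, norm_pow, norm_neg, norm_one, one_pow, one_mul]
  have hg : Summable fun k => ‖(-1 : ℂ) ^ k * coeff k g‖ := by
    refine h'.summable.congr fun k => ?_
    rw [norm_mul, norm_pow, norm_neg, norm_one, one_pow, one_mul]
  rw [tsum_mul_tsum_eq_tsum_sum_antidiagonal_of_summable_norm hf hg]
  refine tsum_congr fun k => ?_
  rw [coeff_mul, mul_sum]
  refine sum_congr rfl fun x hx => ?_
  rw [HasAntidiagonal.mem_antidiagonal] at hx
  rw [← hx, pow_add]
  ring

theorem ev_prod {ι : Type*} (s : Finset ι) (f : ι → PowerSeries ℂ) (h : ∀ i ∈ s, Wn (f i)) :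
    ev (∏ i ∈ s, f i) = ∏ i ∈ s, ev (f i) := by
  classical
  induction s using Finset.induction_on with
  | empty => simpa using ev_one
  | insert a s ha ih =>
    rw [prod_insert ha, prod_insert ha,
      ev_mul (h a (mem_insert_self _ _)) (Wn.prod s f fun i hi => h i (mem_insert_of_mem hi)),
      ih fun i hi => h i (mem_insert_of_mem hi)]

/-- `1 / (1 + X)` -/
noncomputable def geo : PowerSeries ℂ := PowerSeries.mk fun k => (-1) ^ k

theorem geo_mul : geo * (1 + X) = 1 := by
  ext k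
  rw [mul_add, mul_one, map_add]
  cases k with
  | zero => simp [geo]
  | succ k =>
    rw [coeff_succ_mul_X, geo, coeff_mk, coeff_mk, coeff_one, if_neg (Nat.succ_ne_zero k), pow_succ]
    ring

/-- the quotient by `1 + X` -/
noncomputable def qt (f : PowerSeries ℂ) : PowerSeries ℂ := (f - C (ev f)) * geo

theorem qt_spec (f : PowerSeries ℂ) : f = C (ev f) + (1 + X) * qt f := by
  unfold qt
  linear_combination (-(f - C (ev f))) * geo_mul

theorem qt_unique {f g : PowerSeries ℂ} {a : ℂ} (h : f = C a + (1 + X) * g) (ha : ev f = a) :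
    qt f = g := by
  unfold qt
  rw [ha]
  nth_rewrite 1 [h]
  linear_combination g * geo_mul

theorem coeff_qt {f : PowerSeries ℂ} (h : Wn f) (k : ℕ) :
    coeff k (qt f) = -((-1) ^ k * ∑' i, ((-1) ^ (i + (k + 1)) * coeff (i + (k + 1)) f)) := by
  have hs := h.summable'
  have h2 := hs.sum_add_tsum_nat_add (k + 1)
  have h3 : coeff k (qt f) = (-1) ^ k * (∑ i ∈ range (k + 1), (-1) ^ i * coeff i f) -
      (-1) ^ k * ev f := by
    unfold qt
    rw [sub_mul, map_sub, coeff_C_mul, coeff_mul, Nat.sum_antidiagonal_eq_sum_range_succ_mk,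
      mul_sum]
    congr 1
    · refine sum_congr rfl fun i hi => ?_
      rw [mem_range] at hi
      simp only [geo, coeff_mk]
      obtain ⟨n, rfl⟩ := Nat.exists_eq_add_of_le (Nat.lt_succ_iff.1 hi)
      rw [Nat.add_sub_cancel_left, pow_add]
      have : ((-1 : ℂ) ^ i) * (-1) ^ i = 1 := by
        rw [← mul_pow]; norm_num
      linear_combination (-(coeff i f * (-1) ^ n)) * this
    · simp only [geo, coeff_mk]
      ring
  rw [h3]
  unfold ev
  rw [← h2]
  ring

theorem Wn.qt {f : PowerSeries ℂ} (h : Wn f) : Wn (qt f) := by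
  obtain ⟨C', θ, hC, h0, h1, hb⟩ := h.nonneg
  refine ⟨C' * θ / (1 - θ), θ, h0, h1, fun k => ?_⟩
  have e := coeff_qt h k
  rw [e, norm_neg, norm_mul, norm_pow, norm_neg, norm_one, one_pow, one_mul]
  have hg : HasSum (fun i : ℕ => C' * θ ^ (k + 1) * θ ^ i) (C' * θ ^ (k + 1) * (1 - θ)⁻¹) :=
    (hasSum_geometric_of_lt_one h0.le h1).mul_left _
  have h4 : ‖∑' i, ((-1 : ℂ) ^ (i + (k + 1)) * coeff (i + (k + 1)) f)‖ ≤
      C' * θ ^ (k + 1) * (1 - θ)⁻¹ := by
    refine tsum_of_norm_bounded hg fun i => ?_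
    rw [norm_mul, norm_pow, norm_neg, norm_one, one_pow, one_mul]
    refine (hb _).trans (le_of_eq ?_)
    rw [pow_add]
    ring
  refine h4.trans (le_of_eq ?_)
  rw [pow_succ, div_eq_mul_inv]
  ring

theorem Wn.iter {f : PowerSeries ℂ} (h : Wn f) (m : ℕ) : Wn (OS.qt^[m] f) := by
  induction m generalizing f with
  | zero => exact h
  | succ m ih => rw [Function.iterate_succ_apply]; exact ih h.qt

/-- the Taylor series at `-1` in the variable `1 + X` -/
noncomputable def Dt (f : PowerSeries ℂ) : PowerSeries ℂ := PowerSeries.mk fun m => ev (qt^[m] f)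

theorem coeff_zero_Dt (f : PowerSeries ℂ) : coeff 0 (Dt f) = ev f := by
  rw [Dt, coeff_mk]
  rfl

theorem coeff_succ_Dt (f : PowerSeries ℂ) (m : ℕ) : coeff (m + 1) (Dt f) = coeff m (Dt (qt f)) := by
  rw [Dt, Dt, coeff_mk, coeff_mk, Function.iterate_succ_apply]

theorem Dt_spec (f : PowerSeries ℂ) : Dt f = C (ev f) + X * Dt (qt f) := by
  ext m
  cases m with
  | zero => rw [coeff_zero_Dt, map_add, coeff_zero_C, coeff_zero_X_mul, add_zero]
  | succ m => rw [coeff_succ_Dt, map_add, coeff_succ_X_mul, coeff_C, if_neg (Nat.succ_ne_zero m),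
      zero_add]

theorem qt_add {f g : PowerSeries ℂ} (h : Wn f) (h' : Wn g) : qt (f + g) = qt f + qt g := by
  unfold qt
  rw [ev_add h h', map_add]
  ring

theorem qt_C_mul (a : ℂ) {f : PowerSeries ℂ} (h : Wn f) : qt (C a * f) = C a * qt f := by
  unfold qt
  rw [ev_mul (Wn.const a) h, ev_C, map_mul]
  ring

theorem Dt_add {f g : PowerSeries ℂ} (h : Wn f) (h' : Wn g) : Dt (f + g) = Dt f + Dt g := by
  ext m
  induction m generalizing f g with
  | zero => rw [map_add, coeff_zero_Dt, coeff_zero_Dt, coeff_zero_Dt, ev_add h h']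
  | succ m ih => rw [map_add, coeff_succ_Dt, coeff_succ_Dt, coeff_succ_Dt, qt_add h h',
      ih h.qt h'.qt, map_add]

theorem Dt_C_mul (a : ℂ) {f : PowerSeries ℂ} (h : Wn f) : Dt (C a * f) = C a * Dt f := by
  ext m
  induction m generalizing f with
  | zero => rw [coeff_C_mul, coeff_zero_Dt, coeff_zero_Dt, ev_mul (Wn.const a) h, ev_C]
  | succ m ih => rw [coeff_C_mul, coeff_succ_Dt, coeff_succ_Dt, qt_C_mul a h, ih h.qt, coeff_C_mul]

theorem qt_mul {f g : PowerSeries ℂ} (h : Wn f) (h' : Wn g) :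
    qt (f * g) = C (ev f) * qt g + qt f * g := by
  refine qt_unique (a := ev f * ev g) ?_ (ev_mul h h')
  rw [map_mul]
  linear_combination g * (qt_spec f) + C (ev f) * (qt_spec g)

theorem Dt_mul {f g : PowerSeries ℂ} (h : Wn f) (h' : Wn g) : Dt (f * g) = Dt f * Dt g := by
  ext m
  induction m generalizing f g with
  | zero =>
    rw [coeff_zero_Dt, ev_mul h h', coeff_mul]
    simp [coeff_zero_Dt]
  | succ m ih =>
    rw [coeff_succ_Dt, qt_mul h h', Dt_add ((Wn.const _).mul h'.qt) (h.qt.mul h'), map_add,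
      Dt_C_mul _ h'.qt, ih h.qt h']
    rw [Dt_spec f, add_mul, map_add, coeff_C_mul, coeff_C_mul, coeff_succ_Dt, mul_assoc,
      coeff_succ_X_mul]

theorem Dt_C (a : ℂ) : Dt (C a) = C a := by
  have h : qt (C a) = 0 := qt_unique (a := a) (by ring) (ev_C a)
  have h0 : Dt 0 = 0 := by
    ext m
    have hz : ∀ m : ℕ, qt^[m] (0 : PowerSeries ℂ) = 0 := by
      have e0 : qt (0 : PowerSeries ℂ) = 0 :=
        qt_unique (a := 0) (by simp) (by simpa using ev_C 0)
      intro m
      induction m with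
      | zero => rfl
      | succ m ih => rw [Function.iterate_succ_apply, e0, ih]
    rw [Dt, coeff_mk, hz]
    simpa using ev_C 0
  rw [Dt_spec, ev_C, h, h0, mul_zero, add_zero]

theorem Dt_one : Dt 1 = 1 := by simpa using Dt_C 1

theorem Dt_one_add_X : Dt (1 + X) = X := by
  have e : ev (1 + X) = 0 := by
    rw [ev_add Wn.one Wn.X, ev_one, ev_X]
    ring
  have h : qt (1 + X) = 1 := qt_unique (a := 0) (by simp) e
  rw [Dt_spec, e, h, Dt_one]
  simp

theorem Dt_prod {ι : Type*} (s : Finset ι) (f : ι → PowerSeries ℂ) (h : ∀ i ∈ s, Wn (f i)) :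
    Dt (∏ i ∈ s, f i) = ∏ i ∈ s, Dt (f i) := by
  classical
  induction s using Finset.induction_on with
  | empty => simpa using Dt_one
  | insert a s ha ih =>
    rw [prod_insert ha, prod_insert ha,
      Dt_mul (h a (mem_insert_self _ _)) (Wn.prod s f fun i hi => h i (mem_insert_of_mem hi)),
      ih fun i hi => h i (mem_insert_of_mem hi)]

theorem Dt_pow {f : PowerSeries ℂ} (h : Wn f) (n : ℕ) : Dt (f ^ n) = Dt f ^ n := by
  induction n with
  | zero => simpa using Dt_one
  | succ n ih => rw [pow_succ, pow_succ, Dt_mul (h.pow n) h, ih]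

/-- Taylor's formula -/
theorem taylor (f : PowerSeries ℂ) (N : ℕ) :
    f = ∑ m ∈ range N, C (coeff m (Dt f)) * (1 + X) ^ m + (1 + X) ^ N * qt^[N] f := by
  induction N with
  | zero => simp
  | succ N ih =>
    rw [sum_range_succ, Function.iterate_succ_apply']
    nth_rewrite 1 [ih]
    have h1 : coeff N (Dt f) = ev (qt^[N] f) := by rw [Dt, coeff_mk]
    rw [h1]
    have h2 := qt_spec (qt^[N] f)
    linear_combination (1 + X) ^ N * h2

theorem taylor_geo (f : PowerSeries ℂ) (N : ℕ) :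
    f * geo ^ N = ∑ m ∈ range N, C (coeff m (Dt f)) * geo ^ (N - m) + qt^[N] f := by
  nth_rewrite 1 [taylor f N]
  have h1 : ∀ n, (1 + X) ^ n * geo ^ n = 1 := by
    intro n
    rw [← mul_pow, mul_comm, geo_mul, one_pow]
  rw [add_mul, sum_mul]
  congr 1
  · refine sum_congr rfl fun m hm => ?_
    rw [mem_range] at hm
    obtain ⟨n, rfl⟩ := Nat.exists_eq_add_of_lt hm
    have e : m + n + 1 - m = n + 1 := by omega
    rw [e, show m + n + 1 = m + (n + 1) by ring, pow_add]
    linear_combination C (coeff m (Dt f)) * geo ^ (n + 1) * h1 m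
  · linear_combination qt^[N] f * h1 N

theorem coeff_geo_pow (d k : ℕ) : coeff k (geo ^ (d + 1)) = (-1) ^ k * ((d + k).choose d : ℂ) := by
  have e : geo = rescale (-1 : ℂ) (PowerSeries.mk 1) := by
    ext k
    rw [coeff_rescale, geo, coeff_mk, coeff_mk]
    simp
  rw [e, ← map_pow, coeff_rescale, PowerSeries.mk_one_pow_eq_mk_choose_add, coeff_mk]

/-- the Taylor coefficients by binomial coefficients -/
theorem coeff_Dt {f : PowerSeries ℂ} (h : Wn f) (m : ℕ) :
    HasSum (fun k => (-1) ^ (k + m) * (k.choose m : ℂ) * coeff k f) (coeff m (Dt f)) := by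
  have sm : ∀ {f : PowerSeries ℂ}, Wn f → ∀ m, Summable fun k : ℕ =>
      (-1 : ℂ) ^ (k + m) * (k.choose m : ℂ) * coeff k f := by
    intro f h m
    obtain ⟨C', θ, hC, h0, h1, hb⟩ := h.nonneg
    obtain ⟨K, θ', hK, h0', h1', hp⟩ := poly_geom θ h0 h1 m
    refine Summable.of_norm_bounded ((summable_geometric_of_lt_one h0'.le h1').mul_left (C' * K))
      fun k => ?_
    rw [norm_mul, norm_mul, norm_pow, norm_neg, norm_one, one_pow, one_mul, Complex.norm_natCast]
    have h2 : (k.choose m : ℝ) ≤ ((k : ℝ) + 1) ^ m := by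
      have h3 : k.choose m ≤ k ^ m := Nat.choose_le_pow k m
      have h4 : (k.choose m : ℝ) ≤ (k : ℝ) ^ m := by exact_mod_cast h3
      refine h4.trans (pow_le_pow_left₀ (by positivity) (by linarith) m)
    calc (k.choose m : ℝ) * ‖coeff k f‖ ≤ ((k : ℝ) + 1) ^ m * (C' * θ ^ k) :=
          mul_le_mul h2 (hb k) (norm_nonneg _) (by positivity)
      _ = C' * (((k : ℝ) + 1) ^ m * θ ^ k) := by ring
      _ ≤ C' * (K * θ' ^ k) := mul_le_mul_of_nonneg_left (hp k) hC
      _ = _ := by ring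
  induction m generalizing f with
  | zero =>
    rw [coeff_zero_Dt]
    have := h.summable'.hasSum
    refine this.congr_fun fun k => ?_
    simp
  | succ m ih =>
    rw [coeff_succ_Dt]
    have h1 := ih h.qt
    -- telescoping
    have hq := qt_spec f
    obtain ⟨v, hv⟩ : ∃ v, v = OS.qt f := ⟨_, rfl⟩
    rw [← hv] at hq h1 ⊢
    have hvW : Wn v := by rw [hv]; exact h.qt
    have e0 : (fun k : ℕ => (-1 : ℂ) ^ (k + (m + 1)) * (k.choose (m + 1) : ℂ) * coeff k f) =
        fun k : ℕ => (-1 : ℂ) ^ (k + (m + 1)) * (k.choose (m + 1) : ℂ) * coeff k ((1 + X) * v) := by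
      funext k
      nth_rewrite 1 [hq]
      rw [map_add, coeff_C]
      cases k with
      | zero => simp
      | succ k => rw [if_neg (Nat.succ_ne_zero k), zero_add]
    rw [e0]
    have s1 := sm hvW (m + 1)
    have a1 := s1.hasSum
    -- the shifted series
    have a2 : HasSum (fun k : ℕ => (-1 : ℂ) ^ (k + 1 + (m + 1)) * ((k + 1).choose (m + 1) : ℂ) *
        coeff k v) (coeff m (Dt v) - ∑' k : ℕ, (-1 : ℂ) ^ (k + (m + 1)) *
          (k.choose (m + 1) : ℂ) * coeff k v) := by
      refine (h1.sub a1).congr_fun fun k => ?_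
      rw [Nat.choose_succ_succ]
      push_cast
      have e1 : (-1 : ℂ) ^ (k + 1 + (m + 1)) = (-1) ^ (k + m) := by
        rw [show k + 1 + (m + 1) = k + m + 2 by ring, pow_add]; norm_num
      have e2 : (-1 : ℂ) ^ (k + (m + 1)) = -(-1) ^ (k + m) := by
        rw [← add_assoc, pow_succ]; ring
      rw [e1, e2]
      ring
    have a3 : HasSum (fun k : ℕ => (-1 : ℂ) ^ (k + (m + 1)) * (k.choose (m + 1) : ℂ) *
        coeff k (X * v)) (coeff m (Dt v) - ∑' k : ℕ, (-1 : ℂ) ^ (k + (m + 1)) *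
          (k.choose (m + 1) : ℂ) * coeff k v) := by
      rw [← hasSum_nat_add_iff' 1]
      simp only [range_one, sum_singleton, coeff_zero_X_mul, mul_zero, sub_zero]
      refine a2.congr_fun fun k => ?_
      rw [coeff_succ_X_mul]
    have a4 := a1.add a3
    rw [add_sub_cancel] at a4
    refine a4.congr_fun fun k => ?_
    rw [add_mul, one_mul, map_add]
    ring

end Pool.Agent.K3h96.OS
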