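import Pool.Agent.K3h96.OS.Bender
import Pool.Agent.K3h96.OS.Wiener

set_option autoImplicit false

/-! # The growth of the double factorials -/

namespace Pool.Agent.K3h96.OS

open Finset PowerSeries Asymptotics Filter

/-- the odd double factorial -/
def odf (k : ℕ) : ℕ := Nat.doubleFactorial (2 * k + 1)

theorem odf_succ (k : ℕ) : odf (k + 1) = (2 * k + 3) * odf k := by
  unfold odf
  rw [show 2 * (k + 1) + 1 = (2 * k + 1) + 2 by ring, Nat.doubleFactorial_add_two]

theorem odf_pos (k : ℕ) : 0 < odf k := Nat.doubleFactorial_pos _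

theorem odf_mono : Monotone odf := by
  refine monotone_nat_of_le_succ fun k => ?_
  rw [odf_succ]
  exact Nat.le_mul_of_pos_left _ (by omega)

theorem odf_le_pow (L n : ℕ) : (odf (n + L) : ℝ) ≤ (2 * (n + L) + 1) ^ L * odf n := by
  induction L with
  | zero => simp
  | succ L ih =>
    rw [← add_assoc, odf_succ]
    push_cast
    have h0 : (0 : ℝ) < odf n := by exact_mod_cast odf_pos n
    have h1 : (0 : ℝ) ≤ (n : ℝ) := Nat.cast_nonneg n
    have h2 : (0 : ℝ) ≤ (L : ℝ) := Nat.cast_nonneg L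
    calc (2 * ((n : ℝ) + L) + 3) * (odf (n + L) : ℝ)
        ≤ (2 * ((n : ℝ) + L) + 3) * ((2 * (n + L) + 1) ^ L * odf n) :=
          mul_le_mul_of_nonneg_left ih (by positivity)
      _ ≤ (2 * (n + (L + 1)) + 1) * ((2 * (n + (L + 1)) + 1) ^ L * odf n) := by
          refine mul_le_mul (by linarith) ?_ (by positivity) (by positivity)
          refine mul_le_mul_of_nonneg_right ?_ h0.le
          exact pow_le_pow_left₀ (by positivity) (by linarith) L
      _ = _ := by rw [pow_succ]; ring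

/-- the gauge -/
noncomputable def gau (D : ℕ) (B : ℝ) (k : ℕ) : ℝ := (odf (k + D) : ℝ) * B ^ (k + D)

theorem gauge_gau (D : ℕ) {B : ℝ} (hB : 0 < B) : Gauge (gau D B) where
  pos := fun n => by
    unfold gau
    have : (0 : ℝ) < odf (n + D) := by exact_mod_cast odf_pos _
    positivity
  ratio := by
    refine ⟨fun n => (2 * (n + D) + 3) * B, B, hB, ?_, ?_, ?_⟩
    · intro m n hmn
      have : (m : ℝ) ≤ n := by exact_mod_cast hmn
      show (2 * ((m : ℝ) + D) + 3) * B ≤ (2 * ((n : ℝ) + D) + 3) * B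
      nlinarith
    · intro n
      have h1 : (0 : ℝ) ≤ (n : ℝ) := Nat.cast_nonneg n
      have h2 : (0 : ℝ) ≤ (D : ℝ) := Nat.cast_nonneg D
      nlinarith
    · intro n
      unfold gau
      rw [show n + 1 + D = (n + D) + 1 by ring, odf_succ, pow_succ]
      push_cast
      ring

/-- exponentially smaller sequences are negligible -/
theorem negligible (D : ℕ) {B : ℝ} (hB : 0 < B) {θ C' : ℝ} (h0 : 0 < θ) (h1 : θ < 1)
    {e : ℕ → ℂ} (he : ∀ k, ‖e k‖ ≤ C' * (odf k * (θ * B) ^ k)) (L : ℕ) :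
    e =O[atTop] (fun k => gau D B (k - L)) := by
  obtain ⟨K, θ', hK, h0', h1', hp⟩ := poly_geom θ h0 h1 L
  have hC : 0 ≤ C' := by
    have := he 0
    have h2 : (0 : ℝ) < (odf 0 : ℝ) * (θ * B) ^ 0 := by
      have : (0 : ℝ) < odf 0 := by exact_mod_cast odf_pos 0
      positivity
    by_contra hc
    push Not at hc
    have h3 := mul_neg_of_neg_of_pos hc h2
    linarith [norm_nonneg (e 0)]
  refine IsBigO.of_bound (C' * (2 ^ L * K * B ^ L * (B ^ D)⁻¹)) ?_
  filter_upwards [eventually_ge_atTop L] with k hk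
  rw [Real.norm_of_nonneg ((gauge_gau D hB).pos _).le]
  obtain ⟨n, rfl⟩ := Nat.exists_eq_add_of_le' hk
  rw [Nat.add_sub_cancel]
  refine (he _).trans ?_
  rw [mul_assoc C']
  refine mul_le_mul_of_nonneg_left ?_ hC
  have h2 := odf_le_pow L n
  have h3 := hp (n + L)
  have hn : (0 : ℝ) < odf n := by exact_mod_cast odf_pos n
  have hn' : (odf n : ℝ) ≤ odf (n + D) := by exact_mod_cast odf_mono (Nat.le_add_right n D)
  have h4 : ((2 : ℝ) * (n + L) + 1) ^ L ≤ 2 ^ L * (((n + L : ℕ) : ℝ) + 1) ^ L := by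
    rw [← mul_pow]
    refine pow_le_pow_left₀ (by positivity) ?_ L
    push_cast
    linarith
  have h5 : θ' ^ (n + L) ≤ 1 := pow_le_one₀ h0'.le h1'.le
  calc (odf (n + L) : ℝ) * (θ * B) ^ (n + L)
      ≤ ((2 * (n + L) + 1) ^ L * odf n) * (θ * B) ^ (n + L) :=
        mul_le_mul_of_nonneg_right h2 (by positivity)
    _ ≤ ((2 ^ L * (((n + L : ℕ) : ℝ) + 1) ^ L) * odf n) * (θ * B) ^ (n + L) := by
        refine mul_le_mul_of_nonneg_right (mul_le_mul_of_nonneg_right h4 hn.le) (by positivity)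
    _ = 2 ^ L * odf n * B ^ (n + L) * ((((n + L : ℕ) : ℝ) + 1) ^ L * θ ^ (n + L)) := by
        rw [mul_pow]; ring
    _ ≤ 2 ^ L * odf n * B ^ (n + L) * (K * θ' ^ (n + L)) :=
        mul_le_mul_of_nonneg_left h3 (by positivity)
    _ ≤ 2 ^ L * odf n * B ^ (n + L) * (K * 1) :=
        mul_le_mul_of_nonneg_left (mul_le_mul_of_nonneg_left h5 hK.le) (by positivity)
    _ = (2 ^ L * K * B ^ L * (B ^ D)⁻¹) * (odf n * (B ^ (n + D))) := by
        rw [pow_add, pow_add]
        field_simp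
    _ ≤ (2 ^ L * K * B ^ L * (B ^ D)⁻¹) * (odf (n + D) * (B ^ (n + D))) := by
        refine mul_le_mul_of_nonneg_left (mul_le_mul_of_nonneg_right hn' ?_) ?_ <;> positivity
    _ = _ := rfl

/-- a finite expansion -/
theorem Asy.of_finite {w : ℕ → ℝ} (hw : Gauge w) {f φ ψ : PowerSeries ℂ} (D : ℕ)
    (hφ : ∀ l, D < l → coeff l φ = 0) (hψ : ∀ l, D < l → coeff l ψ = 0)
    (h : ∀ L, (fun k => coeff k f - mainPart w φ ψ (D + 1) k) =O[atTop] (fun k => w (k - L))) :
    Asy w f φ ψ := by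
  intro L
  rcases le_total L (D + 1) with hL | hL
  · have h1 := (h L).add (mainPart_diff hw φ ψ hL)
    refine h1.congr_left fun k => ?_
    ring
  · refine (h L).congr_left fun k => ?_
    congr 1
    unfold mainPart
    refine sum_subset (range_mono hL) fun l _ hl => ?_
    rw [mem_range] at hl
    rw [hφ l (by omega), hψ l (by omega)]
    ring

theorem Asy.of_negligible {w : ℕ → ℝ} {f : PowerSeries ℂ}
    (h : ∀ L, (fun k => coeff k f) =O[atTop] (fun k => w (k - L))) : Asy w f 0 0 := by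
  intro L
  refine (h L).congr_left fun k => ?_
  unfold mainPart
  rw [sum_eq_zero, sub_zero]
  intro l _
  rw [map_zero]
  ring

/-- polynomial multiples of double factorials -/
theorem choose_mul_odf (d : ℕ) : ∃ κ : ℕ → ℚ, κ d ≠ 0 ∧ (∀ j, d < j → κ j = 0) ∧
    ∀ k : ℕ, ((d + k).choose d : ℚ) * odf k = ∑ j ∈ range (d + 1), κ j * odf (k + j) := by
  induction d with
  | zero =>
    refine ⟨fun j => if j = 0 then 1 else 0, by simp, fun j hj => if_neg (by omega), fun k => ?_⟩
    simp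
  | succ d ih =>
    obtain ⟨κ, hκ, hκ0, h⟩ := ih
    have hd : (d : ℚ) + 1 ≠ 0 := by positivity
    refine ⟨fun j => ((match j with | 0 => 0 | (j + 1) => κ j) / 2 +
      (d + 1 - (2 * j + 3) / 2) * κ j) / (d + 1), ?_, ?_, fun k => ?_⟩
    · show (κ d / 2 + (d + 1 - (2 * ((d + 1 : ℕ) : ℚ) + 3) / 2) * κ (d + 1)) / (d + 1) ≠ 0
      rw [hκ0 (d + 1) (by omega), mul_zero, add_zero]
      positivity
    · intro j hj
      obtain ⟨i, rfl⟩ : ∃ i, j = i + 1 := ⟨j - 1, by omega⟩
      show (κ i / 2 + (d + 1 - (2 * ((i + 1 : ℕ) : ℚ) + 3) / 2) * κ (i + 1)) / (d + 1) = 0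
      rw [hκ0 i (by omega), hκ0 (i + 1) (by omega)]
      simp
    · have h1 : ((d + 1 + k).choose (d + 1) : ℚ) * (d + 1) = ((d + k).choose d : ℚ) * (d + 1 + k) := by
        have := Nat.add_one_mul_choose_eq (d + k) d
        have h2 : ((d + k + 1 : ℕ) : ℚ) * ((d + k).choose d : ℚ) =
            ((d + k + 1).choose (d + 1) : ℚ) * ((d + 1 : ℕ) : ℚ) := by exact_mod_cast this
        rw [show d + 1 + k = d + k + 1 by ring]
        push_cast at h2
        linear_combination -h2
      have h2 : ∀ j : ℕ, (odf (k + (j + 1)) : ℚ) = (2 * (k + j) + 3) * odf (k + j) := by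
        intro j
        rw [← add_assoc, odf_succ]
        push_cast
        ring
      have h3 : ∑ j ∈ range (d + 1 + 1), (match j with | 0 => 0 | (j + 1) => κ j) / 2 *
          (odf (k + j) : ℚ) = ∑ j ∈ range (d + 1), κ j / 2 * odf (k + (j + 1)) := by
        rw [sum_range_succ' _ (d + 1)]
        simp
      have h4 : ∑ j ∈ range (d + 1 + 1), ((d : ℚ) + 1 - (2 * j + 3) / 2) * κ j * odf (k + j) =
          ∑ j ∈ range (d + 1), ((d : ℚ) + 1 - (2 * j + 3) / 2) * κ j * odf (k + j) := by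
        rw [sum_range_succ _ (d + 1), hκ0 (d + 1) (by omega)]
        simp
      have h5 : ∑ j ∈ range (d + 1 + 1), ((match j with | 0 => 0 | (j + 1) => κ j) / 2 +
          (d + 1 - (2 * (j : ℚ) + 3) / 2) * κ j) / (d + 1) * odf (k + j) =
          (∑ j ∈ range (d + 1 + 1), (match j with | 0 => 0 | (j + 1) => κ j) / 2 *
          (odf (k + j) : ℚ) + ∑ j ∈ range (d + 1 + 1), ((d : ℚ) + 1 - (2 * j + 3) / 2) * κ j *
            odf (k + j)) / (d + 1) := by
        rw [← sum_add_distrib, sum_div]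
        refine sum_congr rfl fun j _ => ?_
        ring
      rw [h5, h3, h4, ← sum_add_distrib, eq_div_iff hd]
      have h6 : ((d + 1 + k).choose (d + 1) : ℚ) * odf k * (d + 1) =
          (d + 1 + k) * (((d + k).choose d : ℚ) * odf k) := by
        linear_combination (odf k : ℚ) * h1
      rw [h6, h k, mul_sum]
      refine sum_congr rfl fun j _ => ?_
      rw [h2 j]
      ring

end Pool.Agent.K3h96.OS
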