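import Pool.Agent.K3h96.OS.Recip
import Pool.Agent.K3h96.OS.Gauge2
import Pool.Agent.K3h96.OS.Defs

set_option autoImplicit false

/-! # The asymptotic behaviour of the coefficients of the Gaussian integrals -/

namespace Pool.Agent.K3h96.OS

open Finset PowerSeries

/-- the series over the complex numbers -/
noncomputable def gC (S : Finset ℕ) : PowerSeries ℂ := (gaussSeries S).map (algebraMap ℚ ℂ)

/-- the ring homomorphism `z ↦ r z` to complex power series -/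
noncomputable def resc (r : ℂ) : PowerSeries ℚ →+* PowerSeries ℂ :=
  (rescale r).comp (PowerSeries.map (algebraMap ℚ ℂ))

theorem coeff_resc (r : ℂ) (f : PowerSeries ℚ) (k : ℕ) :
    coeff k (resc r f) = r ^ k * ((coeff k f : ℚ) : ℂ) := by
  rw [resc, RingHom.comp_apply, coeff_rescale, coeff_map]
  rfl

/-- the value of `sinh` series after rescaling -/
theorem resc_sinh (c : ℂ) (hc : c ≠ 0) (x : ℚ) :
    resc (c ^ 2) (sinhSeries x) = C c⁻¹ * Sn (c * x) := by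
  ext k
  rw [coeff_resc, sinhSeries, coeff_mk, coeff_C_mul, Sn, coeff_mk]
  push_cast
  rw [← pow_mul, mul_pow, pow_succ c (2 * k)]
  field_simp

theorem resc_sinh_one : resc ((Real.pi : ℂ) ^ 2) (sinhSeries 1) = S1 := by
  rw [resc_sinh _ pi0, S1]
  simp

theorem S1_mul : S1 * (ti * geo) = 1 := by
  rw [S1_eq]
  linear_combination geo * (1 + X) * tt_mul_ti + geo_mul

theorem resc_inv : resc ((Real.pi : ℂ) ^ 2) (sinhSeries 1)⁻¹ = ti * geo := by
  have h0 : constantCoeff (sinhSeries 1) ≠ 0 := by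
    rw [← coeff_zero_eq_constantCoeff_apply, sinhSeries, coeff_mk]
    simp
  have h1 := congrArg (resc ((Real.pi : ℂ) ^ 2)) (PowerSeries.mul_inv_cancel _ h0)
  rw [map_mul, map_one, resc_sinh_one] at h1
  calc resc ((Real.pi : ℂ) ^ 2) (sinhSeries 1)⁻¹ =
      (S1 * (ti * geo)) * resc ((Real.pi : ℂ) ^ 2) (sinhSeries 1)⁻¹ := by rw [S1_mul, one_mul]
    _ = (S1 * resc ((Real.pi : ℂ) ^ 2) (sinhSeries 1)⁻¹) * (ti * geo) := by ring
    _ = _ := by rw [h1, one_mul]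

/-- the regular factor of the kernel -/
noncomputable def Kr (S : Finset ℕ) : PowerSeries ℂ :=
  (∏ a ∈ S, C (Real.pi : ℂ)⁻¹ * Sn (Real.pi / a)) * ti ^ (S.card - 2)

theorem resc_kernel (S : Finset ℕ) :
    resc ((Real.pi : ℂ) ^ 2) (kernelSeries S) = Kr S * geo ^ (S.card - 2) := by
  rw [kernelSeries, map_mul, map_pow, map_prod, resc_inv, Kr, mul_pow]
  have : ∏ a ∈ S, resc ((Real.pi : ℂ) ^ 2) (sinhSeries (1 / (a : ℚ))) =
      ∏ a ∈ S, C (Real.pi : ℂ)⁻¹ * Sn (Real.pi / a) := by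
    refine prod_congr rfl fun a _ => ?_
    rw [resc_sinh _ pi0]
    push_cast
    rw [mul_one_div]
  rw [this]
  ring

theorem Wn.factor (a : ℕ) : Wn (C (Real.pi : ℂ)⁻¹ * OS.Sn (Real.pi / a)) :=
  (Wn.const _).mul (Wn.Sn _)

theorem Wn.Kr (S : Finset ℕ) : Wn (OS.Kr S) :=
  (Wn.prod S _ fun a _ => Wn.factor a).mul (Wn.ti.pow _)

/-- sine and cosine at rational multiples of `π` -/
theorem alg_sin (a : ℕ) : IsAlgebraic ℚ (Complex.sin (Real.pi / a)) ∧
    IsAlgebraic ℚ (Complex.cos (Real.pi / a)) := by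
  rcases Nat.eq_zero_or_pos a with rfl | ha
  · simp only [Nat.cast_zero, div_zero, Complex.sin_zero, Complex.cos_zero]
    exact ⟨isAlgebraic_zero, isAlgebraic_one⟩
  have hI : IsAlgebraic ℚ Complex.I := by
    refine ⟨Polynomial.X ^ 2 + 1, ?_, by simp⟩
    intro h
    have := congrArg (fun P => Polynomial.coeff P 2) h
    simp [Polynomial.coeff_one] at this
  have hz : ∀ z : ℂ, z ^ (2 * a) = 1 → IsAlgebraic ℚ z := by
    intro z hz
    refine ⟨Polynomial.X ^ (2 * a) - 1, ?_, by simp [hz]⟩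
    exact Polynomial.X_pow_sub_C_ne_zero (by omega) 1
  have ha0 : (a : ℂ) ≠ 0 := by exact_mod_cast ha.ne'
  have h1 : IsAlgebraic ℚ (Complex.exp (Real.pi / a * Complex.I)) := by
    apply hz
    rw [← Complex.exp_nat_mul]
    have : ((2 * a : ℕ) : ℂ) * (Real.pi / a * Complex.I) = 2 * Real.pi * Complex.I := by
      push_cast
      field_simp
    rw [this, Complex.exp_two_pi_mul_I]
  have h2 : IsAlgebraic ℚ (Complex.exp (-(Real.pi / a) * Complex.I)) := by
    rw [neg_mul, Complex.exp_neg]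
    exact h1.inv
  have h2' : IsAlgebraic ℚ (2 : ℂ) := by
    have := isAlgebraic_algebraMap (R := ℚ) (A := ℂ) (2 : ℚ)
    simpa using this
  constructor
  · rw [Complex.sin, div_eq_mul_inv]
    exact ((h2.sub h1).mul hI).mul h2'.inv
  · rw [Complex.cos, div_eq_mul_inv]
    exact (h1.add h2).mul h2'.inv

theorem alg_rat (q : ℚ) : IsAlgebraic ℚ (q : ℂ) := by
  have := isAlgebraic_algebraMap (R := ℚ) (A := ℂ) q
  simpa using this

theorem alg_nat (n : ℕ) : IsAlgebraic ℚ (n : ℂ) := by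
  have := alg_rat n
  simpa using this

theorem alg_sinD (l a : ℕ) : IsAlgebraic ℚ (sinD l (Real.pi / a)) := by
  unfold sinD
  have h : ∀ n : ℕ, IsAlgebraic ℚ ((-1 : ℂ) ^ n) := fun n => isAlgebraic_one.neg.pow n
  split_ifs
  · exact (h _).mul (alg_sin a).1
  · exact (h _).mul (alg_sin a).2

theorem V_coeff_Sn (a m : ℕ) : V m (coeff m (Dt (Sn (Real.pi / a)))) := by
  obtain ⟨r, hr⟩ := coeff_Dt_Sn m
  rw [hr]
  refine V.sum _ _ fun l hl => ?_
  rw [mem_range] at hl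
  rw [div_pow]
  have h1 : (r l : ℂ) * ((Real.pi : ℂ) ^ l / (a : ℂ) ^ l * sinD l (Real.pi / a)) =
      ((r l : ℂ) * ((a : ℂ) ^ l)⁻¹ * sinD l (Real.pi / a)) * (Real.pi : ℂ) ^ (l : ℤ) := by
    rw [zpow_natCast]
    ring
  rw [h1]
  refine V.mono (a := (l : ℤ)) (by omega) (V.alg_mul ?_ (V.pi_zpow l))
  exact ((alg_rat _).mul ((alg_nat a).pow l).inv).mul (alg_sinD l a)

theorem VS_factor (a : ℕ) : VS (-1) (Dt (C (Real.pi : ℂ)⁻¹ * Sn (Real.pi / a))) := by
  intro m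
  rw [Dt_C_mul _ (Wn.Sn _), coeff_C_mul]
  have h1 : V (-1) ((Real.pi : ℂ)⁻¹) := by
    have := V.pi_zpow (-1)
    rwa [zpow_neg_one] at this
  exact h1.mul (V_coeff_Sn a m)

theorem VS_tt : VS 0 (Dt tt) := by
  intro m
  rw [coeff_Dt_tt]
  have h1 : V (-1) ((Real.pi : ℂ)⁻¹) := by
    have := V.pi_zpow (-1)
    rwa [zpow_neg_one] at this
  have h2 := h1.mul (V_coeff_Sn 1 (m + 1))
  rw [Nat.cast_one, div_one] at h2
  convert h2 using 1
  push_cast
  ring

theorem VS_ti : VS 0 (Dt ti) := by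
  refine VS_tt.inv ?_ ?_ Dt_tt_mul
  · rw [coeff_zero_Dt_tt]
    have := alg_rat (1 / 2)
    simpa using this
  · rw [coeff_zero_Dt_tt]
    norm_num

theorem VS_Kr (S : Finset ℕ) : VS (-(S.card : ℤ)) (Dt (Kr S)) := by
  rw [Kr, Dt_mul (Wn.prod S _ fun a _ => Wn.factor a) (Wn.ti.pow _),
    Dt_prod _ _ (fun a _ => Wn.factor a), Dt_pow Wn.ti]
  have h := (VS.prod S (fun a => Dt (C (Real.pi : ℂ)⁻¹ * Sn (Real.pi / a)))
    (fun a _ => VS_factor a)).mul (VS_ti.pow (S.card - 2))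
  rwa [add_zero] at h

theorem coeff_zero_Dt_Kr (S : Finset ℕ) : coeff 0 (Dt (Kr S)) =
    ((∏ a ∈ S, Complex.sin (Real.pi / a)) * 2 ^ (S.card - 2)) * (Real.pi : ℂ) ^ (-(S.card : ℤ)) := by
  rw [coeff_zero_Dt, Kr, ev_mul (Wn.prod S _ fun a _ => Wn.factor a) (Wn.ti.pow _),
    ev_prod _ _ (fun a _ => Wn.factor a)]
  have h1 : ev (ti ^ (S.card - 2)) = 2 ^ (S.card - 2) := by
    rw [← coeff_zero_Dt, Dt_pow Wn.ti]
    rw [coeff_zero_eq_constantCoeff_apply, map_pow, ← coeff_zero_eq_constantCoeff_apply,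
      coeff_zero_Dt_ti]
  have h2 : ∀ a ∈ S, ev (C (Real.pi : ℂ)⁻¹ * Sn (Real.pi / a)) =
      (Real.pi : ℂ)⁻¹ * Complex.sin (Real.pi / a) := by
    intro a _
    rw [ev_mul (Wn.const _) (Wn.Sn _), ev_C, ev_Sn]
  rw [h1, prod_congr rfl h2, prod_mul_distrib, prod_const, zpow_neg, zpow_natCast, inv_pow]
  ring

/-- the coefficients of the kernel -/
theorem coeff_kernel (S : Finset ℕ) : ∃ C' θ : ℝ, 0 ≤ C' ∧ 0 < θ ∧ θ < 1 ∧ ∀ k,
    ‖((Real.pi : ℂ) ^ 2) ^ k * ((coeff k (kernelSeries S) : ℚ) : ℂ) -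
      (-1) ^ k * ∑ m ∈ range (S.card - 2), coeff m (Dt (Kr S)) *
        (((S.card - 2 - 1 - m) + k).choose (S.card - 2 - 1 - m) : ℂ)‖ ≤ C' * θ ^ k := by
  obtain ⟨C', θ, hC, h0, h1, hb⟩ := ((Wn.Kr S).iter (S.card - 2)).nonneg
  refine ⟨C', θ, hC, h0, h1, fun k => ?_⟩
  have h2 := congrArg (coeff k) (taylor_geo (Kr S) (S.card - 2))
  rw [← resc_kernel, coeff_resc, map_add, map_sum] at h2
  rw [h2]
  have h3 : ∑ m ∈ range (S.card - 2), coeff k (C (coeff m (Dt (Kr S))) * geo ^ (S.card - 2 - m)) =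
      (-1) ^ k * ∑ m ∈ range (S.card - 2), coeff m (Dt (Kr S)) *
        (((S.card - 2 - 1 - m) + k).choose (S.card - 2 - 1 - m) : ℂ) := by
    rw [mul_sum]
    refine sum_congr rfl fun m hm => ?_
    rw [mem_range] at hm
    have e : S.card - 2 - m = (S.card - 2 - 1 - m) + 1 := by omega
    rw [e, coeff_C_mul, coeff_geo_pow]
    ring
  rw [h3, add_sub_cancel_left]
  exact hb k

/-- the rational numbers of `choose_mul_odf` -/
noncomputable def kap (d : ℕ) : ℕ → ℚ := (choose_mul_odf d).choose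

theorem kap_ne (d : ℕ) : kap d d ≠ 0 := (choose_mul_odf d).choose_spec.1

theorem kap_zero {d j : ℕ} (h : d < j) : kap d j = 0 := (choose_mul_odf d).choose_spec.2.1 j h

theorem kap_spec (d k : ℕ) : ((d + k).choose d : ℚ) * odf k =
    ∑ j ∈ range (d + 1), kap d j * odf (k + j) := (choose_mul_odf d).choose_spec.2.2 k

theorem kap_spec' (d N k : ℕ) (h : d < N) : ((d + k).choose d : ℚ) * odf k =
    ∑ j ∈ range N, kap d j * odf (k + j) := by
  rw [kap_spec]
  refine sum_subset (range_mono (by omega)) fun j _ hj => ?_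
  rw [mem_range] at hj
  rw [kap_zero (by omega), zero_mul]

/-- the order of the homology sphere -/
def Pr (S : Finset ℕ) : ℕ := ∏ a ∈ S, a

/-- the rate of growth -/
noncomputable def Bp (S : Finset ℕ) : ℝ := (Pr S : ℝ) / (2 * Real.pi ^ 2)

/-- the coefficients of the expansion -/
noncomputable def del (S : Finset ℕ) (j : ℕ) : ℂ :=
  (Pr S : ℂ) * ∑ m ∈ range (S.card - 2), coeff m (Dt (Kr S)) * (kap (S.card - 2 - 1 - m) j : ℂ)

theorem gC_asym (S : Finset ℕ) : ∃ C' θ : ℝ, 0 ≤ C' ∧ 0 < θ ∧ θ < 1 ∧ ∀ k,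
    ‖coeff k (gC S) - (-1) ^ k * ∑ j ∈ range (S.card - 2), del S j * (odf (k + j) : ℂ) *
      (Bp S : ℂ) ^ k‖ ≤ C' * (odf k * (θ * Bp S) ^ k) := by
  obtain ⟨C', θ, hC, h0, h1, hb⟩ := coeff_kernel S
  refine ⟨(Pr S : ℝ) * C', θ, by positivity, h0, h1, fun k => ?_⟩
  have hB0 : 0 ≤ Bp S := by unfold Bp; positivity
  have e1 : coeff k (gC S) = (Pr S : ℂ) * odf k * (Bp S : ℂ) ^ k *
      (((Real.pi : ℂ) ^ 2) ^ k * ((coeff k (kernelSeries S) : ℚ) : ℂ)) := by
    rw [gC, coeff_map, gaussSeries, coeff_mk]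
    have e2 : algebraMap ℚ ℂ ((Nat.doubleFactorial (2 * k + 1) : ℚ) *
        ((∏ a ∈ S, (a : ℚ)) ^ (k + 1) / 2 ^ k) * coeff k (kernelSeries S)) =
        (odf k : ℂ) * ((Pr S : ℂ) ^ (k + 1) / 2 ^ k) * ((coeff k (kernelSeries S) : ℚ) : ℂ) := by
      rw [eq_ratCast]
      push_cast [odf, Pr]
      ring
    rw [e2, Bp]
    push_cast
    rw [div_pow, mul_pow, pow_succ (Pr S : ℂ)]
    have : ((Real.pi : ℂ) ^ 2) ^ k ≠ 0 := pow_ne_zero _ (pow_ne_zero _ pi0)
    field_simp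
  have e3 : (-1) ^ k * ∑ j ∈ range (S.card - 2), del S j * (odf (k + j) : ℂ) * (Bp S : ℂ) ^ k =
      (Pr S : ℂ) * odf k * (Bp S : ℂ) ^ k * ((-1) ^ k * ∑ m ∈ range (S.card - 2),
        coeff m (Dt (Kr S)) * (((S.card - 2 - 1 - m) + k).choose (S.card - 2 - 1 - m) : ℂ)) := by
    have e4 : ∀ m ∈ range (S.card - 2), (odf k : ℂ) *
        (((S.card - 2 - 1 - m) + k).choose (S.card - 2 - 1 - m) : ℂ) =
        ∑ j ∈ range (S.card - 2), (kap (S.card - 2 - 1 - m) j : ℂ) * (odf (k + j) : ℂ) := by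
      intro m hm
      rw [mem_range] at hm
      have := congrArg (fun q : ℚ => (q : ℂ)) (kap_spec' (S.card - 2 - 1 - m) (S.card - 2) k
        (by omega))
      push_cast at this
      rw [← this]
      ring
    have e5 : (odf k : ℂ) * ∑ m ∈ range (S.card - 2), coeff m (Dt (Kr S)) *
        (((S.card - 2 - 1 - m) + k).choose (S.card - 2 - 1 - m) : ℂ) =
        ∑ j ∈ range (S.card - 2), (∑ m ∈ range (S.card - 2), coeff m (Dt (Kr S)) *
          (kap (S.card - 2 - 1 - m) j : ℂ)) * (odf (k + j) : ℂ) := by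
      rw [mul_sum]
      have e6 : ∀ m ∈ range (S.card - 2), (odf k : ℂ) * (coeff m (Dt (Kr S)) *
          (((S.card - 2 - 1 - m) + k).choose (S.card - 2 - 1 - m) : ℂ)) =
          ∑ j ∈ range (S.card - 2), coeff m (Dt (Kr S)) * (kap (S.card - 2 - 1 - m) j : ℂ) *
            (odf (k + j) : ℂ) := by
        intro m hm
        rw [mul_left_comm, e4 m hm, mul_sum]
        refine sum_congr rfl fun j _ => ?_
        ring
      rw [sum_congr rfl e6, sum_comm]
      refine sum_congr rfl fun j _ => ?_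
      rw [sum_mul]
    have e7 : ∑ j ∈ range (S.card - 2), del S j * (odf (k + j) : ℂ) * (Bp S : ℂ) ^ k =
        (Pr S : ℂ) * (Bp S : ℂ) ^ k * ∑ j ∈ range (S.card - 2), (∑ m ∈ range (S.card - 2),
          coeff m (Dt (Kr S)) * (kap (S.card - 2 - 1 - m) j : ℂ)) * (odf (k + j) : ℂ) := by
      rw [mul_sum]
      refine sum_congr rfl fun j _ => ?_
      rw [del]
      ring
    rw [e7, ← e5]
    ring
  rw [e1, e3, ← mul_sub, norm_mul, norm_mul, norm_mul, norm_pow, Complex.norm_natCast,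
    Complex.norm_natCast, Complex.norm_real, Real.norm_of_nonneg hB0]
  calc (Pr S : ℝ) * odf k * Bp S ^ k * _ ≤ (Pr S : ℝ) * odf k * Bp S ^ k * (C' * θ ^ k) :=
        mul_le_mul_of_nonneg_left (hb k) (by positivity)
    _ = _ := by rw [mul_pow]; ring

theorem V_del (S : Finset ℕ) (hS : 3 ≤ S.card) (j : ℕ) : V (-(j : ℤ) - 3) (del S j) := by
  unfold del
  refine V.alg_mul (alg_nat _) (V.sum _ _ fun m hm => ?_)
  rw [mem_range] at hm
  rcases Nat.lt_or_ge (S.card - 2 - 1 - m) j with h | h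
  · rw [kap_zero h]
    simpa using V.zero _
  · rw [mul_comm]
    refine V.alg_mul (alg_rat _) (V.mono ?_ (VS_Kr S m))
    omega

/-- the leading coefficient -/
noncomputable def lead (S : Finset ℕ) : ℂ :=
  (Pr S : ℂ) * (kap (S.card - 2 - 1) (S.card - 2 - 1) : ℂ) *
    ((∏ a ∈ S, Complex.sin (Real.pi / a)) * 2 ^ (S.card - 2))

theorem del_top (S : Finset ℕ) (hS : 3 ≤ S.card) :
    del S (S.card - 2 - 1) = lead S * (Real.pi : ℂ) ^ (-(S.card : ℤ)) := by
  unfold del lead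
  rw [sum_eq_single 0]
  · rw [coeff_zero_Dt_Kr, Nat.sub_zero]
    ring
  · intro m hm hm0
    rw [mem_range] at hm
    rw [kap_zero (by omega)]
    simp
  · intro h
    rw [mem_range] at h
    omega

theorem alg_lead (S : Finset ℕ) : IsAlgebraic ℚ (lead S) := by
  have h2 : IsAlgebraic ℚ ((2 : ℂ) ^ (S.card - 2)) := by
    have := (alg_nat 2).pow (S.card - 2)
    simpa using this
  have h3 : IsAlgebraic ℚ (∏ a ∈ S, Complex.sin (Real.pi / a)) := by
    have : ∏ a ∈ S, Complex.sin (Real.pi / a) ∈ algebraicClosure ℚ ℂ :=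
      prod_mem fun a _ => mem_algebraicClosure_iff.2 (alg_sin a).1
    exact mem_algebraicClosure_iff.1 this
  exact ((alg_nat _).mul (alg_rat _)).mul (h3.mul h2)

theorem lead_ne (S : Finset ℕ) (h2 : ∀ a ∈ S, 2 ≤ a) : lead S ≠ 0 := by
  unfold lead
  refine mul_ne_zero (mul_ne_zero ?_ ?_) (mul_ne_zero ?_ (pow_ne_zero _ two_ne_zero))
  · have : Pr S ≠ 0 := prod_ne_zero_iff.2 fun a ha => by have := h2 a ha; omega
    exact_mod_cast this
  · exact_mod_cast kap_ne _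
  · refine prod_ne_zero_iff.2 fun a ha => ?_
    have ha2 : (2 : ℝ) ≤ a := by exact_mod_cast h2 a ha
    have h1 : Real.sin (Real.pi / a) ≠ 0 := by
      refine (Real.sin_pos_of_pos_of_lt_pi (by positivity) ?_).ne'
      exact div_lt_self Real.pi_pos (by linarith)
    have : Complex.sin (Real.pi / a) = ((Real.sin (Real.pi / a) : ℝ) : ℂ) := by push_cast; rfl
    rw [this]
    exact_mod_cast h1

end Pool.Agent.K3h96.OS
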