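import Pool.Agent.K3h96.OS.Core

set_option autoImplicit false

/-! # Convergent factors -/

namespace Pool.Agent.K3h96.OS

open Finset PowerSeries

/-- convergent power series -/
def Conv (f : PowerSeries ℂ) : Prop := ∃ K R : ℝ, 0 ≤ K ∧ 0 < R ∧ ∀ k, ‖coeff k f‖ ≤ K * R ^ k

theorem Conv.slow {f : PowerSeries ℂ} (h : Conv f) : Slow f := by
  obtain ⟨K, R, hK, hR, hb⟩ := h
  refine ⟨K * Real.exp R, 1, one_pos, ?_, fun k => ?_⟩
  · rw [lt_div_iff₀ (by positivity), one_mul]
    nlinarith [Real.pi_lt_four, Real.pi_pos]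
  · refine (hb k).trans ?_
    have h1 := Real.pow_div_factorial_le_exp R hR.le k
    have h2 : (0 : ℝ) < (k.factorial : ℝ) := by positivity
    rw [div_le_iff₀ h2] at h1
    rw [one_pow, mul_one, mul_assoc]
    exact mul_le_mul_of_nonneg_left h1 hK

theorem Conv.mul {f g : PowerSeries ℂ} (h : Conv f) (h' : Conv g) : Conv (f * g) := by
  obtain ⟨K, R, hK, hR, hb⟩ := h
  obtain ⟨K', R', hK', hR', hb'⟩ := h'
  refine ⟨K * K', 2 * max R R', by positivity, by positivity, fun k => ?_⟩
  have hm : 0 < max R R' := lt_max_of_lt_left hR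
  rw [coeff_mul]
  refine (norm_sum_le _ _).trans ?_
  calc ∑ x ∈ HasAntidiagonal.antidiagonal k, ‖coeff x.1 f * coeff x.2 g‖
      ≤ ∑ _x ∈ HasAntidiagonal.antidiagonal k, K * K' * max R R' ^ k := by
        refine sum_le_sum fun x hx => ?_
        rw [HasAntidiagonal.mem_antidiagonal] at hx
        rw [norm_mul, ← hx, pow_add]
        calc ‖coeff x.1 f‖ * ‖coeff x.2 g‖ ≤ (K * max R R' ^ x.1) * (K' * max R R' ^ x.2) := by
              refine mul_le_mul ((hb _).trans ?_) ((hb' _).trans ?_) (norm_nonneg _) (by positivity)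
              · exact mul_le_mul_of_nonneg_left (pow_le_pow_left₀ hR.le (le_max_left _ _) _) hK
              · exact mul_le_mul_of_nonneg_left (pow_le_pow_left₀ hR'.le (le_max_right _ _) _) hK'
          _ = _ := by ring
    _ = (k + 1) * (K * K' * max R R' ^ k) := by
        rw [sum_const, Nat.card_antidiagonal, nsmul_eq_mul]
        push_cast
        ring
    _ ≤ 2 ^ k * (K * K' * max R R' ^ k) := by
        refine mul_le_mul_of_nonneg_right ?_ (by positivity)
        have : k + 1 ≤ 2 ^ k := Nat.lt_two_pow_self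
        exact_mod_cast this
    _ = _ := by rw [mul_pow]; ring

theorem Conv.inv {f : PowerSeries ℂ} (h : Conv f) (h0 : constantCoeff f ≠ 0) : Conv f⁻¹ := by
  obtain ⟨K, R, hK, hR, hb⟩ := h
  obtain ⟨a, ha⟩ : ∃ a, a = ‖constantCoeff f‖ := ⟨_, rfl⟩
  have ha0 : 0 < a := by
    rw [ha]
    exact norm_pos_iff.2 h0
  obtain ⟨K', hK'⟩ : ∃ K', K' = K / a := ⟨_, rfl⟩
  have hK'0 : 0 ≤ K' := by rw [hK']; positivity
  obtain ⟨M, hM⟩ : ∃ M, M = R * (1 + K') := ⟨_, rfl⟩
  have hM0 : 0 < M := by rw [hM]; positivity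
  refine ⟨a⁻¹, M, by positivity, hM0, fun k => ?_⟩
  have hs : ∀ k, ∑ j ∈ range k, K' * R ^ (j + 1) * M ^ (k - (j + 1)) = M ^ k - R ^ k := by
    intro k
    induction k with
    | zero => simp
    | succ k ih =>
      rw [sum_range_succ, Nat.sub_self, pow_zero, mul_one]
      have e : ∑ j ∈ range k, K' * R ^ (j + 1) * M ^ (k + 1 - (j + 1)) =
          M * ∑ j ∈ range k, K' * R ^ (j + 1) * M ^ (k - (j + 1)) := by
        rw [mul_sum]
        refine sum_congr rfl fun j hj => ?_
        rw [mem_range] at hj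
        rw [show k + 1 - (j + 1) = (k - (j + 1)) + 1 by omega, pow_succ]
        ring
      rw [e, ih, pow_succ, pow_succ]
      have : M = R * (1 + K') := hM
      linear_combination (-(R ^ k)) * this
  induction k using Nat.strong_induction_on with
  | _ k ih =>
    have h1 := congrArg (coeff k) (PowerSeries.mul_inv_cancel f h0)
    rw [coeff_mul, Nat.sum_antidiagonal_eq_sum_range_succ_mk, sum_range_succ', Nat.sub_zero] at h1
    have h2 : coeff 0 f * coeff k f⁻¹ = coeff k (1 : PowerSeries ℂ) -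
        ∑ j ∈ range k, coeff (j + 1) f * coeff (k - (j + 1)) f⁻¹ := by
      rw [← h1]
      ring
    have h3 : a * ‖coeff k f⁻¹‖ ≤ M ^ k := by
      rw [ha, ← coeff_zero_eq_constantCoeff_apply, ← norm_mul, h2]
      cases k with
      | zero => simp
      | succ k =>
        rw [coeff_one, if_neg (Nat.succ_ne_zero k), zero_sub, norm_neg]
        refine (norm_sum_le _ _).trans ?_
        calc ∑ j ∈ range (k + 1), ‖coeff (j + 1) f * coeff (k + 1 - (j + 1)) f⁻¹‖
            ≤ ∑ j ∈ range (k + 1), K' * R ^ (j + 1) * M ^ (k + 1 - (j + 1)) := by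
              refine sum_le_sum fun j hj => ?_
              rw [mem_range] at hj
              rw [norm_mul]
              calc ‖coeff (j + 1) f‖ * ‖coeff (k + 1 - (j + 1)) f⁻¹‖
                  ≤ (K * R ^ (j + 1)) * (a⁻¹ * M ^ (k + 1 - (j + 1))) :=
                    mul_le_mul (hb _) (ih _ (by omega)) (norm_nonneg _) (by positivity)
                _ = _ := by rw [hK']; ring
          _ = M ^ (k + 1) - R ^ (k + 1) := hs (k + 1)
          _ ≤ _ := by
              have : 0 < R ^ (k + 1) := by positivity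
              linarith
    rw [← div_eq_inv_mul, le_div_iff₀ ha0, mul_comm]
    exact h3

theorem Conv.exp (x : ℂ) : Conv (rescale x (PowerSeries.exp ℂ)) := by
  refine ⟨1, ‖x‖ + 1, zero_le_one, by positivity, fun k => ?_⟩
  rw [coeff_rescale, coeff_exp, norm_mul, norm_pow, one_mul]
  have h1 : ‖algebraMap ℚ ℂ (1 / (k.factorial : ℚ))‖ ≤ 1 := by
    rw [eq_ratCast]
    push_cast
    rw [norm_div, norm_one, Complex.norm_natCast]
    rw [div_le_one (by positivity)]
    exact_mod_cast k.factorial_pos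
  calc ‖x‖ ^ k * _ ≤ (‖x‖ + 1) ^ k * 1 :=
        mul_le_mul (pow_le_pow_left₀ (norm_nonneg _) (by linarith) k) h1 (norm_nonneg _)
          (by positivity)
    _ = _ := mul_one _

theorem Conv.quantumTwo : Conv quantumTwo := by
  refine ⟨1, 1, zero_le_one, one_pos, fun k => ?_⟩
  rw [OS.quantumTwo, coeff_mk, one_pow, one_mul]
  split_ifs
  · rw [norm_div, norm_pow, Complex.norm_natCast, norm_div, norm_one]
    have h1 : ((1 : ℝ) / ‖(2 : ℂ)‖) ^ k ≤ 1 := by
      refine pow_le_one₀ (by positivity) ?_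
      rw [Complex.norm_ofNat]
      norm_num
    have h2 : (1 : ℝ) ≤ ((k + 1).factorial : ℝ) := by exact_mod_cast (k + 1).factorial_pos
    exact div_le_one_of_le₀ (h1.trans h2) (by positivity)
  · rw [norm_zero]
    exact zero_le_one

theorem Conv.rescale_unit {f : PowerSeries ℂ} (h : Conv f) (ε : ℤˣ) :
    Conv (rescale ((ε : ℤ) : ℂ) f) := by
  obtain ⟨K, R, hK, hR, hb⟩ := h
  refine ⟨K, R, hK, hR, fun k => ?_⟩
  rw [coeff_rescale, norm_mul, norm_pow, norm_eps, one_pow, one_mul]
  exact hb k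

theorem Slow.negl {c : PowerSeries ℂ} (h : Slow c) : Negl c := fun D _ hB => slow_asy h hB D

theorem quantumTwo_zero : constantCoeff quantumTwo = 1 := by
  rw [← coeff_zero_eq_constantCoeff_apply, quantumTwo, coeff_mk]
  simp

/-- the convergent factor -/
noncomputable def pref (φ : ℂ) (ε : ℤˣ) : PowerSeries ℂ :=
  rescale ((ε : ℤ) : ℂ) (rescale (-φ / 4) (PowerSeries.exp ℂ) * quantumTwo⁻¹)

theorem pref_negl (φ : ℂ) (ε : ℤˣ) : Negl (pref φ ε) :=
  (((Conv.exp _).mul (Conv.quantumTwo.inv (by rw [quantumTwo_zero]; exact one_ne_zero))).rescale_unit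
    ε).slow.negl

theorem pref_ne (φ : ℂ) (ε : ℤˣ) : pref φ ε ≠ 0 := by
  intro h
  have h1 := congrArg (coeff 0) h
  rw [pref, coeff_rescale, pow_zero, one_mul, coeff_zero_eq_constantCoeff_apply, map_mul,
    PowerSeries.constantCoeff_inv, quantumTwo_zero, ← coeff_zero_eq_constantCoeff_apply,
    coeff_rescale, coeff_exp, map_zero] at h1
  simp at h1

theorem ohtsuki_eq (φ : ℂ) (M : SeifertSphere) :
    ohtsuki φ M = pref φ M.orientation * Gs M.orientation M.orders := by
  rw [ohtsuki, pref, Gs, gC, ← map_mul]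

/-- **Main theorem.** -/
theorem main (φ : SeifertSphere → ℂ) (A B : Multiset SeifertSphere) (c c' : PowerSeries ℂ)
    (hc : Slow c) (hc' : Slow c') (hc0 : c ≠ 0) (hc0' : c' ≠ 0)
    (h : c * (A.map fun M => ohtsuki (φ M) M).prod = c' * (B.map fun M => ohtsuki (φ M) M).prod) :
    A = B ∧ c = c' := by
  have e : ∀ A : Multiset SeifertSphere, (A.map fun M => ohtsuki (φ M) M).prod =
      (A.map fun M => pref (φ M) M.orientation).prod *
        (A.map fun M => Gs M.orientation M.orders).prod := by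
    intro A
    rw [← Multiset.prod_map_mul]
    congr 1
    exact Multiset.map_congr rfl fun M _ => ohtsuki_eq _ _
  have n : ∀ A : Multiset SeifertSphere,
      (A.map fun M => pref (φ M) M.orientation).prod ≠ 0 := by
    intro A
    rw [Ne, Multiset.prod_eq_zero_iff, Multiset.mem_map]
    rintro ⟨M, -, hM⟩
    exact pref_ne _ _ hM
  have g : ∀ A : Multiset SeifertSphere,
      (A.map fun M => Gs M.orientation M.orders).prod ≠ 0 := by
    intro A
    rw [Ne, Multiset.prod_eq_zero_iff, Multiset.mem_map]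
    rintro ⟨M, -, hM⟩
    exact Gs_ne hM
  have h' := h
  rw [e, e, ← mul_assoc, ← mul_assoc] at h
  have hAB := core A B _ _ (hc.negl.mul (Negl.prod A _ fun _ _ => pref_negl _ _))
    (hc'.negl.mul (Negl.prod B _ fun _ _ => pref_negl _ _)) (mul_ne_zero hc0 (n A))
    (mul_ne_zero hc0' (n B)) h
  refine ⟨hAB, ?_⟩
  rw [← hAB] at h'
  refine mul_right_cancel₀ ?_ h'
  rw [e]
  exact mul_ne_zero (n A) (g A)

end Pool.Agent.K3h96.OS
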