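import Pool.Agent.K3h96.OS.Bender

set_option autoImplicit false

/-! # Multiplicative relations between power series and their alien derivatives -/

namespace Pool.Agent.K3h96.OS

open Finset PowerSeries Polynomial

/-- properties of the relation that `φ` is the alien derivative of `f` -/
structure Alien (A : PowerSeries ℂ → PowerSeries ℂ → Prop) : Prop where
  zero : A 0 0
  add : ∀ {f φ g γ}, A f φ → A g γ → A (f + g) (φ + γ)
  mul : ∀ {f φ g γ}, A f φ → A g γ → A (f * g) (f * γ + g * φ)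
  uniq : ∀ {φ}, A 0 φ → φ = 0

/-- the plus component -/
def APlus (w : ℕ → ℝ) (f φ : PowerSeries ℂ) : Prop := ∃ ψ, Asy w f φ ψ

/-- the minus component -/
def AMinus (w : ℕ → ℝ) (f ψ : PowerSeries ℂ) : Prop := ∃ φ, Asy w f φ ψ

theorem alien_plus {w : ℕ → ℝ} (hw : Gauge w) : Alien (APlus w) where
  zero := ⟨0, Asy.zero⟩
  add := fun ⟨_, h⟩ ⟨_, h'⟩ => ⟨_, h.add h'⟩
  mul := fun ⟨_, h⟩ ⟨_, h'⟩ => ⟨_, h.mul hw h'⟩
  uniq := fun ⟨_, h⟩ => (h.unique hw).1

theorem alien_minus {w : ℕ → ℝ} (hw : Gauge w) : Alien (AMinus w) where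
  zero := ⟨0, Asy.zero⟩
  add := fun ⟨_, h⟩ ⟨_, h'⟩ => ⟨_, h.add h'⟩
  mul := fun ⟨_, h⟩ ⟨_, h'⟩ => ⟨_, h.mul hw h'⟩
  uniq := fun ⟨_, h⟩ => (h.unique hw).2

variable {A : PowerSeries ℂ → PowerSeries ℂ → Prop}

theorem Alien.sum (hA : Alien A) {ι : Type*} (s : Finset ι) (f φ : ι → PowerSeries ℂ)
    (h : ∀ i ∈ s, A (f i) (φ i)) : A (∑ i ∈ s, f i) (∑ i ∈ s, φ i) := by
  classical
  induction s using Finset.induction_on with
  | empty => simpa using hA.zero
  | insert a s ha ih =>
    rw [sum_insert ha, sum_insert ha]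
    exact hA.add (h a (mem_insert_self _ _)) (ih fun i hi => h i (mem_insert_of_mem hi))

/-- the alien derivative acts on the coefficients as the derivative with respect to the variable -/
def Der (A : PowerSeries ℂ → PowerSeries ℂ → Prop) (Q : Polynomial (PowerSeries ℂ)) : Prop :=
  ∀ k, A (Q.coeff k) ((derivative Q).coeff k)

theorem Der.mul (hA : Alien A) {P Q : Polynomial (PowerSeries ℂ)} (hP : Der A P) (hQ : Der A Q) :
    Der A (P * Q) := by
  intro k
  have h := hA.sum (antidiagonal k) (fun x => P.coeff x.1 * Q.coeff x.2)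
    (fun x => P.coeff x.1 * (derivative Q).coeff x.2 + Q.coeff x.2 * (derivative P).coeff x.1)
    (fun x _ => hA.mul (hP x.1) (hQ x.2))
  rw [← Polynomial.coeff_mul] at h
  convert h using 1
  rw [derivative_mul, Polynomial.coeff_add, Polynomial.coeff_mul, Polynomial.coeff_mul,
    ← sum_add_distrib]
  refine sum_congr rfl fun x _ => ?_
  ring

theorem Der.C (hA : Alien A) {f : PowerSeries ℂ} (hf : A f 0) : Der A (Polynomial.C f) := by
  intro k
  rw [Polynomial.derivative_C, Polynomial.coeff_zero, Polynomial.coeff_C]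
  split_ifs
  · exact hf
  · exact hA.zero

theorem Der.sub_aux (hA : Alien A) (h1 : A (-1) 0) {P Q : Polynomial (PowerSeries ℂ)}
    (hP : Der A P) (hQ : Der A Q) : Der A (P - Q) := by
  intro k
  have h := hA.add (hP k) (hA.mul h1 (hQ k))
  convert h using 1
  · rw [Polynomial.coeff_sub]; ring
  · rw [derivative_sub, Polynomial.coeff_sub]; ring

theorem Der.lin (hA : Alien A) {g p : PowerSeries ℂ} (hg : A g p) (hp : A p 0) :
    Der A (Polynomial.C g + Polynomial.C p * Polynomial.X) := by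
  intro k
  have e : derivative (Polynomial.C g + Polynomial.C p * Polynomial.X) = Polynomial.C p := by
    simp
  rw [e]
  match k with
  | 0 => simpa using hg
  | 1 => simpa [Polynomial.coeff_C] using hp
  | (n + 2) =>
    have : (Polynomial.C g + Polynomial.C p * Polynomial.X).coeff (n + 2) = 0 := by
      simp
    rw [this, Polynomial.coeff_C]
    simpa using hA.zero

theorem Der.one (hA : Alien A) (h1 : A 1 0) : Der A 1 := by
  have := Der.C hA h1
  simpa using this

theorem Der.pow (hA : Alien A) (h1 : A 1 0) {P : Polynomial (PowerSeries ℂ)} (hP : Der A P)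
    (n : ℕ) : Der A (P ^ n) := by
  induction n with
  | zero => simpa using Der.one hA h1
  | succ n ih => rw [pow_succ]; exact ih.mul hA hP

theorem Der.prod (hA : Alien A) (h1 : A 1 0) {ι : Type*} (s : Finset ι)
    (P : ι → Polynomial (PowerSeries ℂ)) (hP : ∀ i ∈ s, Der A (P i)) : Der A (∏ i ∈ s, P i) := by
  classical
  induction s using Finset.induction_on with
  | empty => simpa using Der.one hA h1
  | insert a s ha ih =>
    rw [prod_insert ha]
    exact (hP a (mem_insert_self _ _)).mul hA (ih fun i hi => hP i (mem_insert_of_mem hi))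

theorem Der.eq_zero (hA : Alien A) {Q : Polynomial (PowerSeries ℂ)} (hQ : Der A Q)
    (h0 : Q.coeff 0 = 0) : Q = 0 := by
  ext1 k
  rw [Polynomial.coeff_zero]
  induction k with
  | zero => exact h0
  | succ k ih =>
    have h := hQ k
    rw [ih] at h
    have h2 := hA.uniq h
    rw [Polynomial.coeff_derivative] at h2
    rcases mul_eq_zero.1 h2 with h3 | h3
    · exact h3
    · exfalso
      have h4 := congrArg (PowerSeries.constantCoeff (R := ℂ)) h3
      rw [map_add, map_natCast, map_one, map_zero] at h4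
      exact Nat.cast_add_one_ne_zero k h4

/-- **Stokes automorphism.** A multiplicative relation between power series remains true after adding
multiples of the alien derivatives. -/
theorem stokes (hA : Alien A) (h1 : A 1 0) (h1' : A (-1) 0) {ι : Type*} (s : Finset ι)
    (g p : ι → PowerSeries ℂ) (hg : ∀ i ∈ s, A (g i) (p i)) (hp : ∀ i ∈ s, A (p i) 0)
    (e f : ι → ℕ) {c c' : PowerSeries ℂ} (hc : A c 0) (hc' : A c' 0)
    (h : c * ∏ i ∈ s, g i ^ e i = c' * ∏ i ∈ s, g i ^ f i) :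
    Polynomial.C c * ∏ i ∈ s, (Polynomial.C (g i) + Polynomial.C (p i) * Polynomial.X) ^ e i =
      Polynomial.C c' * ∏ i ∈ s,
        (Polynomial.C (g i) + Polynomial.C (p i) * Polynomial.X) ^ f i := by
  rw [← sub_eq_zero]
  refine Der.eq_zero hA (Der.sub_aux hA h1' ?_ ?_) ?_
  · exact (Der.C hA hc).mul hA (Der.prod hA h1 s _ fun i hi =>
      (Der.lin hA (hg i hi) (hp i hi)).pow hA h1 _)
  · exact (Der.C hA hc').mul hA (Der.prod hA h1 s _ fun i hi =>
      (Der.lin hA (hg i hi) (hp i hi)).pow hA h1 _)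
  · rw [Polynomial.coeff_sub, sub_eq_zero, Polynomial.coeff_zero_eq_eval_zero,
      Polynomial.coeff_zero_eq_eval_zero]
    simp only [eval_mul, eval_C, eval_prod, eval_pow, eval_add, eval_X, mul_zero, add_zero]
    exact h

/-- the exponent of a series whose alien derivative is not zero -/
theorem exponent_eq (hA : Alien A) (h1 : A 1 0) (h1' : A (-1) 0) {ι : Type*} [DecidableEq ι]
    (s : Finset ι)
    (g p : ι → PowerSeries ℂ) (hg : ∀ i ∈ s, A (g i) (p i)) (hp : ∀ i ∈ s, A (p i) 0)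
    (e f : ι → ℕ) {c c' : PowerSeries ℂ} (hc : A c 0) (hc' : A c' 0) (hc0 : c ≠ 0) (hc0' : c' ≠ 0)
    (h : c * ∏ i ∈ s, g i ^ e i = c' * ∏ i ∈ s, g i ^ f i) {i₀ : ι} (hi₀ : i₀ ∈ s)
    (hp₀ : p i₀ ≠ 0)
    (hne : ∀ i ∈ s, i ≠ i₀ → g i₀ * p i ≠ g i * p i₀) : e i₀ = f i₀ := by
  have hS := stokes hA h1 h1' s g p hg hp e f hc hc' h
  have hS' := congrArg (Polynomial.map (algebraMap (PowerSeries ℂ) (FractionRing (PowerSeries ℂ)))) hS
  obtain ⟨a, ha⟩ : ∃ a, a = algebraMap (PowerSeries ℂ) (FractionRing (PowerSeries ℂ)) := ⟨_, rfl⟩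
  rw [← ha] at hS'
  have hinj : Function.Injective a := by
    rw [ha]
    exact IsFractionRing.injective _ _
  simp only [Polynomial.map_mul, Polynomial.map_prod, Polynomial.map_pow, Polynomial.map_add,
    Polynomial.map_C, Polynomial.map_X] at hS'
  have hap : a (p i₀) ≠ 0 := by
    rw [map_ne_zero_iff _ hinj]
    exact hp₀
  obtain ⟨x, hx⟩ : ∃ x, x = -(a (g i₀) / a (p i₀)) := ⟨_, rfl⟩
  -- the factors
  obtain ⟨ℓ, hℓ⟩ : ∃ ℓ : ι → Polynomial (FractionRing (PowerSeries ℂ)),
      ℓ = fun i => Polynomial.C (a (g i)) + Polynomial.C (a (p i)) * Polynomial.X := ⟨_, rfl⟩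
  have hS2 : Polynomial.C (a c) * ∏ i ∈ s, ℓ i ^ e i = Polynomial.C (a c') * ∏ i ∈ s, ℓ i ^ f i := by
    rw [hℓ]
    exact hS'
  have ev : ∀ i ∈ s, i ≠ i₀ → eval x (ℓ i) ≠ 0 := by
    intro i hi hne'
    rw [hℓ]
    simp only [eval_add, eval_C, eval_mul, eval_X]
    intro h0
    have h2 : a (g i) * a (p i₀) = a (p i) * a (g i₀) := by
      rw [hx] at h0
      field_simp at h0
      linear_combination h0
    rw [← map_mul, ← map_mul] at h2
    have h3 := hinj h2
    exact hne i hi hne' (by rw [h3, mul_comm])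
  have ev0 : eval x (ℓ i₀) = 0 := by
    rw [hℓ]
    simp only [eval_add, eval_C, eval_mul, eval_X, hx]
    field_simp
    ring
  have hℓ0 : ℓ i₀ ≠ 0 := by
    intro h0
    have h2 := congrArg (fun Q => Polynomial.coeff Q 1) h0
    rw [hℓ] at h2
    simp [Polynomial.coeff_C] at h2
    exact hap h2
  have main : ∀ (e f : ι → ℕ) (c c' : PowerSeries ℂ), c' ≠ 0 →
      Polynomial.C (a c) * ∏ i ∈ s, ℓ i ^ e i = Polynomial.C (a c') * ∏ i ∈ s, ℓ i ^ f i →
      e i₀ ≤ f i₀ := by
    intro e f c c' hc' hEq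
    by_contra hlt
    push Not at hlt
    rw [← mul_prod_erase s _ hi₀, ← mul_prod_erase s _ hi₀] at hEq
    obtain ⟨d, hd⟩ := Nat.exists_eq_add_of_lt hlt
    rw [hd] at hEq
    have h2 : ℓ i₀ ^ f i₀ * (Polynomial.C (a c) * ℓ i₀ ^ (d + 1) * ∏ i ∈ s.erase i₀, ℓ i ^ e i) =
        ℓ i₀ ^ f i₀ * (Polynomial.C (a c') * ∏ i ∈ s.erase i₀, ℓ i ^ f i) := by
      have : f i₀ + d + 1 = f i₀ + (d + 1) := rfl
      rw [this, pow_add] at hEq
      linear_combination hEq
    have h3 := mul_left_cancel₀ (pow_ne_zero _ hℓ0) h2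
    have h4 := congrArg (eval x) h3
    simp only [eval_mul, eval_C, eval_pow, eval_prod, ev0, ne_eq, Nat.succ_ne_zero,
      not_false_eq_true, zero_pow, mul_zero, zero_mul] at h4
    have h5 : a c' * ∏ i ∈ s.erase i₀, eval x (ℓ i) ^ f i ≠ 0 := by
      refine mul_ne_zero ?_ (prod_ne_zero_iff.2 fun i hi => pow_ne_zero _ ?_)
      · rw [map_ne_zero_iff _ hinj]
        exact hc'
      · rw [mem_erase] at hi
        exact ev i hi.2 hi.1
    exact h5 h4.symm
  exact le_antisymm (main e f c c' hc0' hS2) (main f e c' c hc0 hS2.symm)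

end Pool.Agent.K3h96.OS
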