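import Pool.Agent.K3h96.OS.Gser
import Pool.Agent.K3h96.OS.Stokes

set_option autoImplicit false

/-! # The alien derivatives of the Gaussian integrals -/

namespace Pool.Agent.K3h96.OS

open Finset PowerSeries Asymptotics Filter

/-- the series of the oriented manifold, without the convergent factor -/
noncomputable def Gs (ε : ℤˣ) (S : Finset ℕ) : PowerSeries ℂ := rescale ((ε : ℤ) : ℂ) (gC S)

theorem coeff_Gs (ε : ℤˣ) (S : Finset ℕ) (k : ℕ) :
    coeff k (Gs ε S) = ((ε : ℤ) : ℂ) ^ k * coeff k (gC S) := by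
  rw [Gs, coeff_rescale]

/-- the alien derivative of `Gs ε S` -/
noncomputable def pp (ε : ℤˣ) (S : Finset ℕ) (D : ℕ) : PowerSeries ℂ :=
  PowerSeries.mk fun l => if D - (S.card - 3) ≤ l ∧ l ≤ D then
    (-((ε : ℤ) : ℂ)) ^ l * (del S (D - l) * ((Bp S : ℂ) ^ (D - l))⁻¹) else 0

theorem coeff_pp_zero {ε : ℤˣ} {S : Finset ℕ} {D l : ℕ} (h : D < l) : coeff l (pp ε S D) = 0 := by
  rw [pp, coeff_mk, if_neg (by omega)]

theorem Bp_pos {S : Finset ℕ} (h2 : ∀ a ∈ S, 2 ≤ a) : 0 < Bp S := by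
  have : 0 < Pr S := Nat.pos_of_ne_zero (prod_ne_zero_iff.2 fun a ha => by have := h2 a ha; omega)
  have h1 : (0 : ℝ) < Pr S := by exact_mod_cast this
  unfold Bp
  positivity

theorem main_pp (ε : ℤˣ) {S : Finset ℕ} (hS : 3 ≤ S.card) (h2 : ∀ a ∈ S, 2 ≤ a) {D k : ℕ}
    (hD : S.card ≤ D + 3) (hk : D ≤ k) :
    ∑ l ∈ range (D + 1), (-((ε : ℤ) : ℂ)) ^ (k - l) * coeff l (pp ε S D) *
      (gau D (Bp S) (k - l) : ℂ) =
    (-((ε : ℤ) : ℂ)) ^ k * ∑ j ∈ range (S.card - 2), del S j * (odf (k + j) : ℂ) *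
      (Bp S : ℂ) ^ k := by
  have hB : (Bp S : ℂ) ≠ 0 := by exact_mod_cast (Bp_pos h2).ne'
  rw [← sum_range_reflect]
  have e1 : ∀ j ∈ range (D + 1), (-((ε : ℤ) : ℂ)) ^ (k - (D + 1 - 1 - j)) *
      coeff (D + 1 - 1 - j) (pp ε S D) * (gau D (Bp S) (k - (D + 1 - 1 - j)) : ℂ) =
      if j < S.card - 2 then (-((ε : ℤ) : ℂ)) ^ k * (del S j * (odf (k + j) : ℂ) *
        (Bp S : ℂ) ^ k) else 0 := by
    intro j hj
    rw [mem_range] at hj
    rw [Nat.add_sub_cancel, pp, coeff_mk]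
    by_cases hj2 : j < S.card - 2
    · rw [if_pos (by omega), if_pos hj2]
      have e2 : D - (D - j) = j := by omega
      have e3 : k - (D - j) + D = k + j := by omega
      have e4 : (-((ε : ℤ) : ℂ)) ^ k = (-((ε : ℤ) : ℂ)) ^ (k - (D - j)) * (-((ε : ℤ) : ℂ)) ^ (D - j) := by
        rw [← pow_add]
        congr 1
        omega
      rw [e2, gau, e3, e4]
      push_cast
      rw [pow_add (Bp S : ℂ)]
      field_simp
    · rw [if_neg (by omega), if_neg hj2]
      ring
  rw [sum_congr rfl e1, ← sum_filter, mul_sum]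
  refine sum_congr ?_ fun _ _ => rfl
  ext j
  simp only [mem_filter, mem_range]
  omega

theorem eps_sq (ε : ℤˣ) : ((ε : ℤ) : ℂ) * ((ε : ℤ) : ℂ) = 1 := by
  rcases Int.units_eq_one_or ε with rfl | rfl <;> simp

theorem norm_eps (ε : ℤˣ) : ‖((ε : ℤ) : ℂ)‖ = 1 := by
  rcases Int.units_eq_one_or ε with rfl | rfl <;> simp

/-- the expansion of the Gaussian integral -/
theorem expansion (ε : ℤˣ) {S : Finset ℕ} (hS : 3 ≤ S.card) (h2 : ∀ a ∈ S, 2 ≤ a) {D : ℕ}
    (hD : S.card ≤ D + 3) (L : ℕ) :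
    (fun k => coeff k (Gs ε S) - ∑ l ∈ range (D + 1), (-((ε : ℤ) : ℂ)) ^ (k - l) *
      coeff l (pp ε S D) * (gau D (Bp S) (k - l) : ℂ)) =O[atTop]
      (fun k => gau D (Bp S) (k - L)) := by
  obtain ⟨C', θ, hC, h0, h1, hb⟩ := gC_asym S
  have hn := negligible D (Bp_pos h2) h0 h1 (e := fun k => coeff k (Gs ε S) -
    (-((ε : ℤ) : ℂ)) ^ k * ∑ j ∈ range (S.card - 2), del S j * (odf (k + j) : ℂ) *
      (Bp S : ℂ) ^ k) (C' := C') (fun k => by
        have e : coeff k (Gs ε S) - (-((ε : ℤ) : ℂ)) ^ k * ∑ j ∈ range (S.card - 2),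
            del S j * (odf (k + j) : ℂ) * (Bp S : ℂ) ^ k = ((ε : ℤ) : ℂ) ^ k * (coeff k (gC S) -
            (-1) ^ k * ∑ j ∈ range (S.card - 2), del S j * (odf (k + j) : ℂ) *
              (Bp S : ℂ) ^ k) := by
          rw [coeff_Gs, neg_pow]
          ring
        rw [e, norm_mul, norm_pow, norm_eps, one_pow, one_mul]
        exact hb k) L
  refine hn.congr' ?_ (EventuallyEq.refl _ _)
  filter_upwards [eventually_ge_atTop D] with k hk
  rw [main_pp ε hS h2 hD hk]

/-- the alien derivative which sees the manifolds with the orientation `ε` -/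
def Al (ε : ℤˣ) (w : ℕ → ℝ) (f p : PowerSeries ℂ) : Prop :=
  ∃ r, if ε = 1 then Asy w f r p else Asy w f p r

theorem alien_Al (ε : ℤˣ) {w : ℕ → ℝ} (hw : Gauge w) : Alien (Al ε w) := by
  unfold Al
  by_cases h : ε = 1
  · simp only [h, if_true]
    exact alien_minus hw
  · simp only [h, if_false]
    exact alien_plus hw

theorem Al_of_asy {ε : ℤˣ} {w : ℕ → ℝ} {f : PowerSeries ℂ} (h : Asy w f 0 0) : Al ε w f 0 := by
  refine ⟨0, ?_⟩
  split_ifs <;> exact h

theorem Al_same (ε : ℤˣ) {S : Finset ℕ} (hS : 3 ≤ S.card) (h2 : ∀ a ∈ S, 2 ≤ a) {D : ℕ}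
    (hD : S.card ≤ D + 3) : Al ε (gau D (Bp S)) (Gs ε S) (pp ε S D) := by
  have hw := gauge_gau D (Bp_pos h2)
  refine ⟨0, ?_⟩
  have h := expansion ε hS h2 hD
  rcases Int.units_eq_one_or ε with rfl | rfl
  · rw [if_pos rfl]
    refine Asy.of_finite hw D (fun _ _ => map_zero _) (fun l hl => coeff_pp_zero hl) fun L => ?_
    refine (h L).congr_left fun k => ?_
    congr 1
    unfold mainPart
    refine sum_congr rfl fun l _ => ?_
    simp
  · rw [if_neg (by decide)]
    refine Asy.of_finite hw D (fun l hl => coeff_pp_zero hl) (fun _ _ => map_zero _) fun L => ?_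
    refine (h L).congr_left fun k => ?_
    congr 1
    unfold mainPart
    refine sum_congr rfl fun l _ => ?_
    simp

theorem Al_opposite (ε ε' : ℤˣ) (hε : ε' ≠ ε) {S : Finset ℕ} (hS : 3 ≤ S.card)
    (h2 : ∀ a ∈ S, 2 ≤ a) {D : ℕ}
    (hD : S.card ≤ D + 3) : Al ε (gau D (Bp S)) (Gs ε' S) 0 := by
  have hw := gauge_gau D (Bp_pos h2)
  refine ⟨pp ε' S D, ?_⟩
  have h := expansion ε' hS h2 hD
  rcases Int.units_eq_one_or ε with rfl | rfl
  · have e : ε' = -1 := (Int.units_eq_one_or ε').resolve_left hε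
    subst e
    rw [if_pos rfl]
    refine Asy.of_finite hw D (fun l hl => coeff_pp_zero hl) (fun _ _ => map_zero _) fun L => ?_
    refine (h L).congr_left fun k => ?_
    congr 1
    unfold mainPart
    refine sum_congr rfl fun l _ => ?_
    simp
  · have e : ε' = 1 := (Int.units_eq_one_or ε').resolve_right hε
    subst e
    rw [if_neg (by decide)]
    refine Asy.of_finite hw D (fun _ _ => map_zero _) (fun l hl => coeff_pp_zero hl) fun L => ?_
    refine (h L).congr_left fun k => ?_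
    congr 1
    unfold mainPart
    refine sum_congr rfl fun l _ => ?_
    simp

/-- series with smaller growth -/
theorem gC_bound (S : Finset ℕ) : ∃ C' : ℝ, 0 ≤ C' ∧ ∀ k : ℕ,
    ‖coeff k (gC S)‖ ≤ C' * (odf k * (((k : ℝ) + 1) ^ S.card * Bp S ^ k)) := by
  obtain ⟨C', θ, hC, h0, h1, hb⟩ := gC_asym S
  have hB0 : 0 ≤ Bp S := by unfold Bp; positivity
  refine ⟨C' + ∑ j ∈ range (S.card - 2), ‖del S j‖ * (2 * S.card + 2) ^ S.card, by positivity,
    fun k => ?_⟩
  have hk : (0 : ℝ) ≤ k := Nat.cast_nonneg k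
  have hk1 : (1 : ℝ) ≤ ((k : ℝ) + 1) ^ S.card := one_le_pow₀ (by linarith)
  have ho : (0 : ℝ) ≤ odf k := Nat.cast_nonneg _
  have h3 : ‖(-1 : ℂ) ^ k * ∑ j ∈ range (S.card - 2), del S j * (odf (k + j) : ℂ) *
      (Bp S : ℂ) ^ k‖ ≤ (∑ j ∈ range (S.card - 2), ‖del S j‖ * (2 * S.card + 2) ^ S.card) *
        (odf k * (((k : ℝ) + 1) ^ S.card * Bp S ^ k)) := by
    rw [norm_mul, norm_pow, norm_neg, norm_one, one_pow, one_mul, sum_mul]
    refine (norm_sum_le _ _).trans (sum_le_sum fun j hj => ?_)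
    rw [mem_range] at hj
    rw [norm_mul, norm_mul, norm_pow, Complex.norm_natCast, Complex.norm_real,
      Real.norm_of_nonneg hB0]
    have hj' : (j : ℝ) ≤ S.card := by
      have : j ≤ S.card := by omega
      exact_mod_cast this
    have hj0 : (0 : ℝ) ≤ (j : ℝ) := Nat.cast_nonneg j
    have h4 := odf_le_pow j k
    have h5 : ((2 : ℝ) * (k + j) + 1) ^ j ≤ (2 * S.card + 2) ^ S.card * (k + 1) ^ S.card := by
      rw [← mul_pow]
      calc ((2 : ℝ) * (k + j) + 1) ^ j ≤ ((2 * S.card + 2) * (k + 1)) ^ j := by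
            refine pow_le_pow_left₀ (by positivity) ?_ j
            nlinarith [mul_nonneg (le_trans hj0 hj') hk]
        _ ≤ ((2 * S.card + 2) * (k + 1)) ^ S.card := by
            refine pow_le_pow_right₀ ?_ (by omega)
            nlinarith [mul_nonneg (le_trans hj0 hj') hk]
    calc ‖del S j‖ * (odf (k + j) : ℝ) * Bp S ^ k
        ≤ ‖del S j‖ * ((2 * (k + j) + 1) ^ j * odf k) * Bp S ^ k := by gcongr
      _ ≤ ‖del S j‖ * (((2 * S.card + 2) ^ S.card * (k + 1) ^ S.card) * odf k) * Bp S ^ k := by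
          gcongr
      _ = _ := by ring
  have h6 : C' * (odf k * (θ * Bp S) ^ k) ≤ C' * (odf k * (((k : ℝ) + 1) ^ S.card * Bp S ^ k)) := by
    rw [mul_pow]
    have : θ ^ k ≤ ((k : ℝ) + 1) ^ S.card := (pow_le_one₀ h0.le h1.le).trans hk1
    gcongr
  have h7 := (norm_sub_norm_le _ _).trans (hb k)
  rw [add_mul]
  linarith

theorem Al_smaller (ε ε' : ℤˣ) {S : Finset ℕ} {B : ℝ} (h2 : ∀ a ∈ S, 2 ≤ a) (hB : Bp S < B)
    (D : ℕ) : Al ε (gau D B) (Gs ε' S) 0 := by
  refine Al_of_asy (Asy.of_negligible fun L => ?_)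
  have hS := Bp_pos h2
  have hB0 : 0 < B := hS.trans hB
  obtain ⟨C', hC, hb⟩ := gC_bound S
  obtain ⟨K, θ', hK, h0', h1', hp⟩ := poly_geom (Bp S / B) (by positivity)
    ((div_lt_one hB0).2 hB) S.card
  refine negligible D hB0 h0' h1' (C' := C' * K) (fun k => ?_) L
  rw [coeff_Gs, norm_mul, norm_pow, norm_eps, one_pow, one_mul]
  refine (hb k).trans ?_
  have h3 := hp k
  have h4 : ((k : ℝ) + 1) ^ S.card * Bp S ^ k = (((k : ℝ) + 1) ^ S.card * (Bp S / B) ^ k) * B ^ k := by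
    rw [div_pow]
    field_simp
  rw [h4]
  calc C' * (odf k * ((((k : ℝ) + 1) ^ S.card * (Bp S / B) ^ k) * B ^ k))
      ≤ C' * (odf k * ((K * θ' ^ k) * B ^ k)) := by gcongr
    _ = _ := by rw [mul_pow]; ring

/-- polynomials -/
theorem Al_poly (ε : ℤˣ) {p : PowerSeries ℂ} {D : ℕ} (hp : ∀ l, D < l → coeff l p = 0)
    (w : ℕ → ℝ) : Al ε w p 0 := by
  refine Al_of_asy (Asy.of_negligible fun L => ?_)
  refine (isBigO_zero (E' := ℂ) _ _).congr' ?_ (EventuallyEq.refl _ _)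
  filter_upwards [eventually_gt_atTop D] with k hk
  exact (hp k hk).symm

/-- three pairwise coprime numbers -/
theorem thirty_le (S : Finset ℕ) (h3 : 3 ≤ S.card) (h2 : ∀ a ∈ S, 2 ≤ a)
    (hc : ∀ a ∈ S, ∀ b ∈ S, a ≠ b → a.Coprime b) : 30 ≤ Pr S := by
  obtain ⟨T, hTS, hT⟩ := exists_subset_card_eq h3
  have h4 : ∏ a ∈ T, a ≤ Pr S := by
    unfold Pr
    exact prod_le_prod_of_subset_of_one_le' hTS fun a ha _ => by have := h2 a ha; omega
  obtain ⟨x, y, z, hxy, hxz, hyz, rfl⟩ := card_eq_three.1 hT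
  have hx := h2 x (hTS (by simp))
  have hy := h2 y (hTS (by simp))
  have hz := h2 z (hTS (by simp))
  have c1 := hc x (hTS (by simp)) y (hTS (by simp)) hxy
  have c2 := hc x (hTS (by simp)) z (hTS (by simp)) hxz
  have c3 := hc y (hTS (by simp)) z (hTS (by simp)) hyz
  rw [prod_insert (by simp [hxy, hxz]), prod_insert (by simp [hyz]), prod_singleton] at h4
  refine le_trans ?_ h4
  have key : ∀ a b c : ℕ, 2 ≤ a → a < b → b < c → a.Coprime b → a.Coprime c → b.Coprime c →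
      30 ≤ a * (b * c) := by
    intro a b c ha hab hbc h1 h2 h3
    have hb : 3 ≤ b := by omega
    have hc : 5 ≤ c := by
      by_contra hcon
      have hc4 : c = 4 := by omega
      have hb3 : b = 3 := by omega
      have ha2 : a = 2 := by omega
      subst hc4 hb3 ha2
      revert h2
      decide
    calc 30 = 2 * (3 * 5) := by norm_num
      _ ≤ a * (b * c) := Nat.mul_le_mul ha (Nat.mul_le_mul hb hc)
  rcases lt_or_gt_of_ne hxy with h | h <;> rcases lt_or_gt_of_ne hxz with h' | h' <;>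
    rcases lt_or_gt_of_ne hyz with h'' | h''
  · exact key x y z hx h h'' c1 c2 c3
  · have := key x z y hx h' h'' c2 c1 c3.symm
    linarith [mul_comm y z, this]
  · omega
  · have := key z x y hz h' h c2.symm c3.symm c1
    linarith [mul_left_comm x y z, mul_comm z (x * y), mul_assoc x y z, this]
  · have := key y x z hy h h' c1.symm c3 c2
    linarith [mul_left_comm x y z, this]
  · omega
  · have := key y z x hy h'' h' c3 c1.symm c2.symm
    linarith [mul_assoc y z x, mul_comm (y * z) x, this]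
  · have := key z y x hz h'' h c3.symm c2.symm c1.symm
    linarith [mul_assoc z y x, mul_comm (z * y) x, mul_comm z y, this]

theorem factorial_le_odf (k : ℕ) : 2 ^ k * k.factorial ≤ odf k := by
  induction k with
  | zero => simp [odf]
  | succ k ih =>
    rw [odf_succ, Nat.factorial_succ, pow_succ]
    calc 2 ^ k * 2 * ((k + 1) * k.factorial) = (2 * (k + 1)) * (2 ^ k * k.factorial) := by ring
      _ ≤ (2 * k + 3) * odf k := Nat.mul_le_mul (by omega) ih

/-- slow series -/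
theorem slow_asy {c : PowerSeries ℂ} (hc : Slow c) {B : ℝ} (hB : 15 / Real.pi ^ 2 ≤ B) (D : ℕ) :
    Asy (gau D B) c 0 0 := by
  refine Asy.of_negligible fun L => ?_
  obtain ⟨K, ρ, hρ, hρ', hb⟩ := hc
  have hB0 : 0 < B := lt_of_lt_of_le (by positivity) hB
  have hK : 0 ≤ K := by
    have := hb 0
    simp only [pow_zero, mul_one, Nat.factorial_zero, Nat.cast_one] at this
    exact (norm_nonneg _).trans this
  refine negligible D hB0 (θ := ρ / (2 * B)) (by positivity) ?_ (C' := K) (fun k => ?_) L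
  · rw [div_lt_one (by positivity)]
    have : 30 / Real.pi ^ 2 = 2 * (15 / Real.pi ^ 2) := by ring
    linarith
  · refine (hb k).trans ?_
    have h1 : (2 : ℝ) ^ k * (k.factorial : ℝ) ≤ odf k := by exact_mod_cast factorial_le_odf k
    have h2 : ρ / (2 * B) * B = ρ / 2 := by field_simp
    rw [h2, div_pow]
    calc K * ρ ^ k * (k.factorial : ℝ) = K * ((2 ^ k * (k.factorial : ℝ)) * (ρ ^ k / 2 ^ k)) := by
          field_simp
      _ ≤ K * (odf k * (ρ ^ k / 2 ^ k)) := by gcongr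

end Pool.Agent.K3h96.OS
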