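import Mathlib

set_option autoImplicit false

/-! # Power series with factorially divergent coefficients and their alien derivations -/

namespace Pool.Agent.K3h96.OS

open Finset Asymptotics Filter PowerSeries

/-- positive sequences `w` with `w (n + 1) = r n * w n`, where `r` is monotone and grows at least
linearly -/
structure Gauge (w : ℕ → ℝ) : Prop where
  pos : ∀ n, 0 < w n
  ratio : ∃ (r : ℕ → ℝ) (b : ℝ), 0 < b ∧ Monotone r ∧ (∀ n, b * (n + 1) ≤ r n) ∧
    ∀ n, w (n + 1) = r n * w n

/-- the main part of the coefficients -/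
noncomputable def mainPart (w : ℕ → ℝ) (φ ψ : PowerSeries ℂ) (L k : ℕ) : ℂ :=
  ∑ l ∈ range L, (coeff l φ + (-1) ^ (k - l) * coeff l ψ) * (w (k - l) : ℂ)

/-- The coefficients `f k` of `f` are `∑ l, (φ l + (-1) ^ (k - l) ψ l) w (k - l)`, asymptotically to
all orders. -/
def Asy (w : ℕ → ℝ) (f φ ψ : PowerSeries ℂ) : Prop :=
  ∀ L, (fun k => coeff k f - mainPart w φ ψ L k) =O[atTop] (fun k => w (k - L))

variable {w : ℕ → ℝ}

theorem Gauge.swap (hw : Gauge w) {a b : ℕ} (hab : a ≤ b) (i : ℕ) :
    w (a + i) * w b ≤ w a * w (b + i) := by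
  obtain ⟨r, c, hc, hm, hr, h⟩ := hw.ratio
  have rpos : ∀ n, 0 ≤ r n := fun n => le_trans (by positivity) (hr n)
  induction i with
  | zero => simp
  | succ i ih =>
    have e1 : w (a + (i + 1)) = r (a + i) * w (a + i) := h (a + i)
    have e2 : w (b + (i + 1)) = r (b + i) * w (b + i) := h (b + i)
    rw [e1, e2]
    have h1 : r (a + i) ≤ r (b + i) := hm (by omega)
    have p1 := (hw.pos a).le
    have p2 := (hw.pos b).le
    have p3 := (hw.pos (a + i)).le
    calc r (a + i) * w (a + i) * w b = r (a + i) * (w (a + i) * w b) := by ring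
      _ ≤ r (b + i) * (w a * w (b + i)) :=
        mul_le_mul h1 ih (mul_nonneg p3 p2) (rpos _)
      _ = w a * (r (b + i) * w (b + i)) := by ring

theorem Gauge.small (hw : Gauge w) : ∃ C : ℝ, 0 < C ∧ ∀ n, (n + 1) * w n ≤ C * w (n + 1) := by
  obtain ⟨r, b, hb, -, hr, h⟩ := hw.ratio
  refine ⟨b⁻¹, inv_pos.2 hb, fun n => ?_⟩
  rw [h n]
  have h1 := mul_le_mul_of_nonneg_right (hr n) (hw.pos n).le
  calc ((n : ℝ) + 1) * w n = b⁻¹ * (b * (n + 1) * w n) := by field_simp
    _ ≤ b⁻¹ * (r n * w n) := mul_le_mul_of_nonneg_left h1 (inv_pos.2 hb).le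

theorem Gauge.succ_isBigO (hw : Gauge w) (L : ℕ) :
    (fun k => w (k - (L + 1))) =O[atTop] (fun k => w (k - L)) := by
  obtain ⟨C, hC, h⟩ := hw.small
  refine IsBigO.of_bound C ?_
  filter_upwards [eventually_ge_atTop (L + 1)] with k hk
  rw [Real.norm_of_nonneg (hw.pos _).le, Real.norm_of_nonneg (hw.pos _).le]
  obtain ⟨n, rfl⟩ := Nat.exists_eq_add_of_le hk
  have e1 : L + 1 + n - (L + 1) = n := by omega
  have e2 : L + 1 + n - L = n + 1 := by omega
  rw [e1, e2]
  have h1 := h n
  have h2 := (hw.pos n).le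
  have h3 : (0 : ℝ) ≤ n := Nat.cast_nonneg n
  nlinarith

theorem Gauge.isBigO_le (hw : Gauge w) {L M : ℕ} (h : L ≤ M) :
    (fun k => w (k - M)) =O[atTop] (fun k => w (k - L)) := by
  induction M, h using Nat.le_induction with
  | base => exact isBigO_refl _ _
  | succ M _ ih => exact (hw.succ_isBigO M).trans ih

/-- the condition of Bender -/
theorem Gauge.middle (hw : Gauge w) (L : ℕ) :
    (fun k => ∑ j ∈ Ico L (k + 1 - L), w j * w (k - j)) =O[atTop] (fun k => w (k - L)) := by
  obtain ⟨C, hC, hs⟩ := hw.small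
  refine IsBigO.of_bound (2 * w L + 2 * C * w (L + 1)) ?_
  filter_upwards [eventually_ge_atTop (2 * L + 2)] with k hk
  have hnn : 0 ≤ ∑ j ∈ Ico L (k + 1 - L), w j * w (k - j) :=
    sum_nonneg fun j _ => mul_nonneg (hw.pos _).le (hw.pos _).le
  rw [Real.norm_of_nonneg hnn, Real.norm_of_nonneg (hw.pos _).le]
  have hb : ∀ M, ∀ j, M ≤ j → j ≤ k - M → M ≤ k - M → w j * w (k - j) ≤ w M * w (k - M) := by
    intro M j h1 h2 h3
    have h4 := hw.swap (a := M) (b := k - j) (by omega) (j - M)
    have e1 : M + (j - M) = j := by omega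
    have e2 : k - j + (j - M) = k - M := by omega
    rwa [e1, e2] at h4
  have e3 : Ico L (k + 1 - L) = insert L (insert (k - L) (Ico (L + 1) (k - L))) := by
    ext j
    simp only [mem_Ico, mem_insert]
    omega
  have n1 : L ∉ insert (k - L) (Ico (L + 1) (k - L)) := by
    simp only [mem_Ico, mem_insert]
    omega
  have n2 : k - L ∉ Ico (L + 1) (k - L) := by
    simp only [mem_Ico]
    omega
  rw [e3, sum_insert n1, sum_insert n2]
  have t1 : w (k - L) * w (k - (k - L)) = w L * w (k - L) := by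
    have : k - (k - L) = L := by omega
    rw [this, mul_comm]
  have t2 : ∑ j ∈ Ico (L + 1) (k - L), w j * w (k - j) ≤
      ∑ _j ∈ Ico (L + 1) (k - L), w (L + 1) * w (k - (L + 1)) := by
    refine sum_le_sum fun j hj => ?_
    rw [mem_Ico] at hj
    exact hb (L + 1) j hj.1 (by omega) (by omega)
  rw [sum_const, Nat.card_Ico, nsmul_eq_mul] at t2
  obtain ⟨n, hn⟩ := Nat.exists_eq_add_of_le (show L + 1 ≤ k by omega)
  have e4 : k - (L + 1) = n := by omega
  have e5 : k - L = n + 1 := by omega
  rw [t1]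
  rw [e4] at t2
  rw [e5] at t2 ⊢
  have h5 := hs n
  have h6 : ((n + 1 - (L + 1) : ℕ) : ℝ) ≤ n + 1 := by
    have : n + 1 - (L + 1) ≤ n + 1 := Nat.sub_le _ _
    exact_mod_cast this
  have p1 := hw.pos (L + 1)
  have p2 := hw.pos n
  have h7 : ((n + 1 - (L + 1) : ℕ) : ℝ) * (w (L + 1) * w n) ≤ w (L + 1) * (C * w (n + 1)) := by
    calc ((n + 1 - (L + 1) : ℕ) : ℝ) * (w (L + 1) * w n)
        ≤ (n + 1) * (w (L + 1) * w n) := mul_le_mul_of_nonneg_right h6 (by positivity)
      _ = w (L + 1) * ((n + 1) * w n) := by ring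
      _ ≤ _ := mul_le_mul_of_nonneg_left h5 p1.le
  have p3 : 0 ≤ C * w (L + 1) * w (n + 1) := by
    have := hw.pos (n + 1)
    positivity
  nlinarith [t2, h7, p3]

theorem Asy.bound {f φ ψ : PowerSeries ℂ} (hw : Gauge w) (h : Asy w f φ ψ) :
    ∃ C > 0, ∀ k, ‖coeff k f‖ ≤ C * w k := by
  have h0 := h 0
  simp only [mainPart, range_zero, sum_empty, sub_zero, Nat.sub_zero] at h0
  obtain ⟨C, hC, hb⟩ := bound_of_isBigO_nat_atTop h0
  refine ⟨C, hC, fun k => ?_⟩
  have := hb (x := k) (hw.pos k).ne'
  rwa [Real.norm_of_nonneg (hw.pos _).le] at this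

theorem Asy.zero : Asy w 0 0 0 := by
  intro L
  simp only [mainPart, map_zero, mul_zero, add_zero, zero_mul, sum_const_zero, sub_zero]
  exact isBigO_zero _ _

theorem mainPart_add (φ ψ φ' ψ' : PowerSeries ℂ) (L k : ℕ) :
    mainPart w (φ + φ') (ψ + ψ') L k = mainPart w φ ψ L k + mainPart w φ' ψ' L k := by
  unfold mainPart
  rw [← sum_add_distrib]
  refine sum_congr rfl fun l _ => ?_
  rw [map_add, map_add]
  ring

theorem Asy.add {f φ ψ g φ' ψ' : PowerSeries ℂ} (h : Asy w f φ ψ) (h' : Asy w g φ' ψ') :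
    Asy w (f + g) (φ + φ') (ψ + ψ') := by
  intro L
  refine ((h L).add (h' L)).congr_left fun k => ?_
  rw [mainPart_add, map_add]
  ring

/-- change the order of the expansion -/
theorem mainPart_diff (hw : Gauge w) (φ ψ : PowerSeries ℂ) {L M : ℕ} (h : L ≤ M) :
    (fun k => mainPart w φ ψ M k - mainPart w φ ψ L k) =O[atTop] (fun k => w (k - L)) := by
  have e : ∀ k, mainPart w φ ψ M k - mainPart w φ ψ L k =
      ∑ l ∈ Ico L M, (coeff l φ + (-1) ^ (k - l) * coeff l ψ) * (w (k - l) : ℂ) := by
    intro k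
    unfold mainPart
    rw [range_eq_Ico, range_eq_Ico, ← sum_Ico_consecutive _ (Nat.zero_le L) h]
    ring
  simp_rw [e]
  refine IsBigO.fun_sum fun l hl => ?_
  rw [mem_Ico] at hl
  refine IsBigO.trans ?_ (hw.isBigO_le hl.1)
  refine IsBigO.of_bound (‖coeff l φ‖ + ‖coeff l ψ‖) (Eventually.of_forall fun k => ?_)
  rw [norm_mul, Complex.norm_real]
  refine mul_le_mul_of_nonneg_right ?_ (norm_nonneg _)
  refine (norm_add_le _ _).trans ?_
  rw [norm_mul, norm_pow, norm_neg, norm_one, one_pow, one_mul]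

theorem Asy.mul {f φ ψ g φ' ψ' : PowerSeries ℂ} (hw : Gauge w) (h : Asy w f φ ψ)
    (h' : Asy w g φ' ψ') : Asy w (f * g) (f * φ' + g * φ) (f * ψ' + g * ψ) := by
  obtain ⟨C, hC, hf⟩ := h.bound hw
  obtain ⟨C', hC', hg⟩ := h'.bound hw
  intro L
  -- one half
  have half : ∀ (u v φ ψ : PowerSeries ℂ), Asy w v φ ψ →
      (fun k => ∑ j ∈ range L, coeff j u * coeff (k - j) v - mainPart w (u * φ) (u * ψ) L k)
        =O[atTop] (fun k => w (k - L)) := by
    intro u v φ ψ hv
    have e : ∀ᶠ k in atTop, ∑ j ∈ range L, coeff j u * coeff (k - j) v -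
        mainPart w (u * φ) (u * ψ) L k =
        ∑ j ∈ range L, coeff j u * (coeff (k - j) v - mainPart w φ ψ (L - j) (k - j)) := by
      filter_upwards [eventually_ge_atTop L] with k hk
      have e1 : mainPart w (u * φ) (u * ψ) L k =
          ∑ j ∈ range L, coeff j u * mainPart w φ ψ (L - j) (k - j) := by
        unfold mainPart
        have e2 : ∀ j ∈ range L, coeff j u * ∑ l ∈ range (L - j),
            (coeff l φ + (-1) ^ (k - j - l) * coeff l ψ) * (w (k - j - l) : ℂ) =
            ∑ m ∈ Ico j L, coeff j u *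
              ((coeff (m - j) φ + (-1) ^ (k - m) * coeff (m - j) ψ) * (w (k - m) : ℂ)) := by
          intro j hj
          rw [mem_range] at hj
          rw [mul_sum, sum_Ico_eq_sum_range]
          refine sum_congr rfl fun l _ => ?_
          have e3 : j + l - j = l := by omega
          have e4 : k - (j + l) = k - j - l := by omega
          rw [e3, e4]
        rw [sum_congr rfl e2]
        rw [sum_comm' (t' := range L) (s' := fun m => range (m + 1))
          (by intro x y; simp only [mem_range, mem_Ico]; omega)]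
        refine sum_congr rfl fun m _ => ?_
        rw [coeff_mul, coeff_mul, Nat.sum_antidiagonal_eq_sum_range_succ_mk,
          Nat.sum_antidiagonal_eq_sum_range_succ_mk, mul_sum, ← sum_add_distrib, sum_mul]
        refine sum_congr rfl fun j _ => ?_
        ring
      rw [e1, ← sum_sub_distrib]
      refine sum_congr rfl fun j _ => ?_
      ring
    refine IsBigO.congr' ?_ (e.mono fun k hk => hk.symm) (EventuallyEq.refl _ _)
    refine IsBigO.fun_sum fun j hj => ?_
    rw [mem_range] at hj
    refine IsBigO.const_mul_left ?_ _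
    have h1 := (hv (L - j)).comp_tendsto (tendsto_sub_atTop_nat j)
    refine h1.congr' (Eventually.of_forall fun k => rfl) ?_
    filter_upwards [eventually_ge_atTop L] with k hk
    simp only [Function.comp]
    congr 1
    omega
  have h1 := half f g φ' ψ' h'
  have h2 := half g f φ ψ h
  have h3 : (fun k => ∑ j ∈ Ico L (k + 1 - L), coeff j f * coeff (k - j) g) =O[atTop]
      (fun k => w (k - L)) := by
    refine IsBigO.trans ?_ (hw.middle L)
    refine IsBigO.of_bound (C * C') (Eventually.of_forall fun k => ?_)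
    have hnn : 0 ≤ ∑ j ∈ Ico L (k + 1 - L), w j * w (k - j) :=
      sum_nonneg fun j _ => mul_nonneg (hw.pos _).le (hw.pos _).le
    rw [Real.norm_of_nonneg hnn, mul_sum]
    refine (norm_sum_le _ _).trans (sum_le_sum fun j _ => ?_)
    rw [norm_mul]
    calc ‖coeff j f‖ * ‖coeff (k - j) g‖ ≤ (C * w j) * (C' * w (k - j)) :=
          mul_le_mul (hf j) (hg _) (norm_nonneg _) (mul_nonneg hC.le (hw.pos _).le)
      _ = _ := by ring
  refine ((h1.add h2).add h3).congr' ?_ (EventuallyEq.refl _ _)
  filter_upwards [eventually_ge_atTop (2 * L)] with k hk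
  have e5 : coeff k (f * g) = ∑ j ∈ range L, coeff j f * coeff (k - j) g +
      ∑ j ∈ range L, coeff j g * coeff (k - j) f +
      ∑ j ∈ Ico L (k + 1 - L), coeff j f * coeff (k - j) g := by
    rw [coeff_mul, Nat.sum_antidiagonal_eq_sum_range_succ_mk, range_eq_Ico,
      ← sum_Ico_consecutive _ (Nat.zero_le L) (show L ≤ k.succ by omega),
      ← sum_Ico_consecutive _ (show L ≤ k + 1 - L by omega) (show k + 1 - L ≤ k.succ by omega)]
    have e6 : ∑ j ∈ Ico (k + 1 - L) k.succ, coeff j f * coeff (k - j) g =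
        ∑ j ∈ range L, coeff j g * coeff (k - j) f := by
      refine sum_bij' (fun j _ => k - j) (fun j _ => k - j) ?_ ?_ ?_ ?_ ?_
      · intro j hj
        simp only [mem_Ico, mem_range] at hj ⊢
        omega
      · intro j hj
        simp only [mem_Ico, mem_range] at hj ⊢
        omega
      · intro j hj
        simp only [mem_Ico] at hj
        omega
      · intro j hj
        simp only [mem_range] at hj
        omega
      · intro j hj
        simp only [mem_Ico] at hj
        have : k - (k - j) = j := by omega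
        rw [this, mul_comm]
    rw [e6, range_eq_Ico]
    ring
  rw [mainPart_add, e5]
  ring

/-- uniqueness of the expansion -/
theorem Asy.unique {φ ψ : PowerSeries ℂ} (hw : Gauge w) (h : Asy w 0 φ ψ) : φ = 0 ∧ ψ = 0 := by
  have key : ∀ L, (∀ l < L, coeff l φ = 0 ∧ coeff l ψ = 0) → coeff L φ = 0 ∧ coeff L ψ = 0 := by
    intro L hL
    have h1 := h (L + 1)
    have h2 : (fun n : ℕ => (coeff L φ + (-1) ^ n * coeff L ψ)) =O[atTop]
        (fun n : ℕ => ((n : ℝ))⁻¹) := by
      have h3 := h1.comp_tendsto (tendsto_add_atTop_nat L)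
      obtain ⟨C, hC, hs⟩ := hw.small
      obtain ⟨K, hK, h4⟩ := h3.exists_pos
      rw [isBigOWith_iff] at h4
      refine IsBigO.of_bound (K * C) ?_
      filter_upwards [h4, eventually_ge_atTop 1] with n hn hn1
      simp only [Function.comp] at hn
      have e1 : coeff (n + L) (0 : PowerSeries ℂ) - mainPart w φ ψ (L + 1) (n + L) =
          -((coeff L φ + (-1) ^ n * coeff L ψ) * (w n : ℂ)) := by
        unfold mainPart
        rw [sum_range_succ, sum_eq_zero, map_zero, Nat.add_sub_cancel]
        · ring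
        · intro l hl
          rw [mem_range] at hl
          obtain ⟨a, b⟩ := hL l hl
          rw [a, b]
          ring
      rw [e1, norm_neg, norm_mul, Complex.norm_real, Real.norm_of_nonneg (hw.pos _).le,
        Real.norm_of_nonneg (hw.pos _).le] at hn
      obtain ⟨m, rfl⟩ := Nat.exists_eq_add_of_le hn1
      have e2 : 1 + m + L - (L + 1) = m := by omega
      rw [e2] at hn
      have h5 := hs m
      rw [add_comm 1 m] at hn ⊢
      rw [norm_inv, Real.norm_of_nonneg (Nat.cast_nonneg _)]
      push_cast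
      have hp : (0 : ℝ) < m + 1 := by positivity
      have hq := hw.pos (m + 1)
      have h6 : ‖coeff L φ + (-1) ^ (m + 1) * coeff L ψ‖ * w (m + 1) * (m + 1) ≤
          K * C * w (m + 1) := by
        calc _ ≤ K * w m * (m + 1) := mul_le_mul_of_nonneg_right hn hp.le
          _ = K * ((m + 1) * w m) := by ring
          _ ≤ K * (C * w (m + 1)) := mul_le_mul_of_nonneg_left h5 hK.le
          _ = _ := by ring
      rw [← div_eq_mul_inv, le_div_iff₀ hp]
      refine le_of_mul_le_mul_right ?_ hq
      linarith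
    have h0 : Tendsto (fun n : ℕ => (coeff L φ + (-1) ^ n * coeff L ψ)) atTop (nhds 0) :=
      h2.trans_tendsto tendsto_inv_atTop_nhds_zero_nat
    have h7 : coeff L φ + coeff L ψ = 0 := by
      have h8 := h0.comp (tendsto_id.const_mul_atTop' (show 0 < 2 by norm_num) :
        Tendsto (fun n : ℕ => 2 * n) atTop atTop)
      have h9 : ((fun n : ℕ => (coeff L φ + (-1) ^ n * coeff L ψ)) ∘ fun n : ℕ => 2 * n) =
          fun _ => coeff L φ + coeff L ψ := by
        funext n
        simp [Function.comp, pow_mul]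
      rw [h9] at h8
      exact tendsto_nhds_unique tendsto_const_nhds h8
    have h8 : coeff L φ - coeff L ψ = 0 := by
      have h8 := h0.comp ((tendsto_add_atTop_nat 1).comp
        (tendsto_id.const_mul_atTop' (show 0 < 2 by norm_num) :
        Tendsto (fun n : ℕ => 2 * n) atTop atTop))
      have h9 : ((fun n : ℕ => (coeff L φ + (-1) ^ n * coeff L ψ)) ∘
          ((fun a => a + 1) ∘ fun n : ℕ => 2 * n)) = fun _ => coeff L φ - coeff L ψ := by
        funext n
        simp [Function.comp, pow_mul, pow_succ]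
        ring
      rw [h9] at h8
      exact tendsto_nhds_unique tendsto_const_nhds h8
    constructor
    · linear_combination (1 / 2) * h7 + (1 / 2) * h8
    · linear_combination (1 / 2) * h7 - (1 / 2) * h8
  have all : ∀ L, coeff L φ = 0 ∧ coeff L ψ = 0 := by
    intro L
    induction L using Nat.strong_induction_on with
    | _ L ih => exact key L ih
  exact ⟨PowerSeries.ext fun n => by simpa using (all n).1,
    PowerSeries.ext fun n => by simpa using (all n).2⟩

end Pool.Agent.K3h96.OS
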