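import Pool.Agent.K3h96.OS.Distinct

set_option autoImplicit false

/-! # Multiplicative independence -/

namespace Pool.Agent.K3h96.OS

open Finset PowerSeries

theorem Gs_ne {M : SeifertSphere} : Gs M.orientation M.orders ≠ 0 := by
  intro h
  have h1 := congrArg (coeff 0) h
  rw [coeff_Gs, pow_zero, one_mul, coeff_zero_gC M.two_le, map_zero] at h1
  exact one_ne_zero h1

/-- growth smaller than that of all homology spheres -/
def Negl (c : PowerSeries ℂ) : Prop :=
  ∀ (D : ℕ) (B : ℝ), 15 / Real.pi ^ 2 ≤ B → Asy (gau D B) c 0 0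

theorem Negl.mul {c d : PowerSeries ℂ} (hc : Negl c) (hd : Negl d) : Negl (c * d) := by
  intro D B hB
  have h := (hc D B hB).mul (gauge_gau D (lt_of_lt_of_le (by positivity) hB)) (hd D B hB)
  simpa using h

theorem Negl.one : Negl 1 := by
  intro D B hB
  refine slow_asy ⟨1, 1, one_pos, ?_, fun k => ?_⟩ hB D
  · rw [lt_div_iff₀ (by positivity), one_mul]
    nlinarith [Real.pi_lt_four, Real.pi_pos]
  · rw [coeff_one]
    split_ifs with h
    · rw [h]; simp
    · rw [norm_zero]; positivity

theorem Negl.neg_one : Negl (-1) := by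
  intro D B hB
  refine slow_asy ⟨1, 1, one_pos, ?_, fun k => ?_⟩ hB D
  · rw [lt_div_iff₀ (by positivity), one_mul]
    nlinarith [Real.pi_lt_four, Real.pi_pos]
  · rw [map_neg, norm_neg, coeff_one]
    split_ifs with h
    · rw [h]; simp
    · rw [norm_zero]; positivity

theorem Negl.prod {ι : Type*} (s : Multiset ι) (f : ι → PowerSeries ℂ) (h : ∀ i ∈ s, Negl (f i)) :
    Negl (s.map f).prod := by
  induction s using Multiset.induction_on with
  | empty => simpa using Negl.one
  | cons a s ih =>
    rw [Multiset.map_cons, Multiset.prod_cons]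
    exact (h a (Multiset.mem_cons_self _ _)).mul
      (ih fun i hi => h i (Multiset.mem_cons_of_mem hi))

/-- the core: disjoint products -/
theorem core (A B : Multiset SeifertSphere) (c c' : PowerSeries ℂ) (hc : Negl c) (hc' : Negl c')
    (hc0 : c ≠ 0) (hc0' : c' ≠ 0)
    (h : c * (A.map fun M => Gs M.orientation M.orders).prod =
      c' * (B.map fun M => Gs M.orientation M.orders).prod) : A = B := by
  classical
  by_contra hAB
  obtain ⟨A', hA'⟩ : ∃ A', A' = A - B := ⟨_, rfl⟩
  obtain ⟨B', hB'⟩ : ∃ B', B' = B - A := ⟨_, rfl⟩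
  have eA : A = A' + A ∩ B := by rw [hA', Multiset.sub_add_inter]
  have eB : B = B' + A ∩ B := by rw [hB', Multiset.inter_comm, Multiset.sub_add_inter]
  obtain ⟨g, hg⟩ : ∃ g : SeifertSphere → PowerSeries ℂ, g = fun M => Gs M.orientation M.orders :=
    ⟨_, rfl⟩
  rw [← hg] at h
  have hg0 : ∀ M, g M ≠ 0 := by
    intro M
    rw [hg]
    exact Gs_ne
  have hI : ((A ∩ B).map g).prod ≠ 0 := by
    rw [Ne, Multiset.prod_eq_zero_iff, Multiset.mem_map]
    rintro ⟨M, -, hM⟩
    exact hg0 M hM
  have h1 : c * (A'.map g).prod = c' * (B'.map g).prod := by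
    apply mul_right_cancel₀ hI
    have h2 := h
    rw [eA] at h2
    nth_rewrite 2 [eB] at h2
    rw [Multiset.map_add, Multiset.map_add, Multiset.prod_add, Multiset.prod_add] at h2
    rw [mul_assoc, mul_assoc]
    exact h2
  obtain ⟨s, hs⟩ : ∃ s : Finset SeifertSphere, s = (A' + B').toFinset := ⟨_, rfl⟩
  have hne : s.Nonempty := by
    rw [hs, Multiset.toFinset_nonempty]
    intro h0
    have h2 : A' = 0 ∧ B' = 0 := by
      constructor
      · rw [Multiset.eq_zero_iff_forall_notMem]
        intro a ha
        have : a ∈ A' + B' := Multiset.mem_add.2 (Or.inl ha)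
        rw [h0] at this
        exact absurd this (Multiset.notMem_zero a)
      · rw [Multiset.eq_zero_iff_forall_notMem]
        intro a ha
        have : a ∈ A' + B' := Multiset.mem_add.2 (Or.inr ha)
        rw [h0] at this
        exact absurd this (Multiset.notMem_zero a)
    apply hAB
    have h3 : A ≤ B := by
      have := h2.1
      rw [hA', tsub_eq_zero_iff_le] at this
      exact this
    have h4 : B ≤ A := by
      have := h2.2
      rw [hB', tsub_eq_zero_iff_le] at this
      exact this
    exact le_antisymm h3 h4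
  have prodA : (A'.map g).prod = ∏ M ∈ s, g M ^ A'.count M := by
    rw [Finset.prod_multiset_map_count]
    refine prod_subset ?_ fun M _ hM => ?_
    · intro M hM
      rw [hs, Multiset.mem_toFinset, Multiset.mem_add]
      exact Or.inl (Multiset.mem_toFinset.1 hM)
    · rw [Multiset.mem_toFinset] at hM
      rw [Multiset.count_eq_zero_of_notMem hM, pow_zero]
  have prodB : (B'.map g).prod = ∏ M ∈ s, g M ^ B'.count M := by
    rw [Finset.prod_multiset_map_count]
    refine prod_subset ?_ fun M _ hM => ?_
    · intro M hM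
      rw [hs, Multiset.mem_toFinset, Multiset.mem_add]
      exact Or.inr (Multiset.mem_toFinset.1 hM)
    · rw [Multiset.mem_toFinset] at hM
      rw [Multiset.count_eq_zero_of_notMem hM, pow_zero]
  rw [prodA, prodB] at h1
  obtain ⟨M₀, hM₀, hmax⟩ := exists_max_image s (fun M => Bp M.orders) hne
  obtain ⟨D, hD⟩ : ∃ D : ℕ, ∀ M ∈ s, M.orders.card ≤ D + 3 :=
    ⟨s.sup fun M => M.orders.card, fun M hM =>
      (le_sup (f := fun M : SeifertSphere => M.orders.card) hM).trans (by omega)⟩
  obtain ⟨ε, hε⟩ : ∃ ε, ε = M₀.orientation := ⟨_, rfl⟩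
  have hw := gauge_gau D (Bp_pos M₀.two_le)
  have h15 : 15 / Real.pi ^ 2 ≤ Bp M₀.orders := by
    unfold Bp
    have : (30 : ℝ) ≤ Pr M₀.orders := by
      exact_mod_cast thirty_le M₀.orders M₀.three_le M₀.two_le M₀.coprime
    rw [div_le_div_iff₀ (by positivity) (by positivity)]
    have hp : 0 < Real.pi ^ 2 := by positivity
    nlinarith
  have hAl := alien_Al ε hw
  obtain ⟨p, hp⟩ : ∃ p : SeifertSphere → PowerSeries ℂ, p = fun M =>
      if Bp M.orders = Bp M₀.orders ∧ M.orientation = ε then pp ε M.orders D else 0 := ⟨_, rfl⟩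
  have hex := exponent_eq hAl (Al_of_asy (Negl.one D _ h15)) (Al_of_asy (Negl.neg_one D _ h15)) s g p
    (fun M hM => by
      rw [hg, hp]
      by_cases hM1 : Bp M.orders = Bp M₀.orders
      · by_cases hM2 : M.orientation = ε
        · simp only [hM1, hM2, and_self, if_true]
          have := Al_same ε M.three_le M.two_le (hD M hM)
          rwa [hM1] at this
        · simp only [hM1, hM2, and_false, if_false]
          have := Al_opposite ε M.orientation hM2 M.three_le M.two_le (hD M hM)
          rwa [hM1] at this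
      · simp only [hM1, false_and, if_false]
        exact Al_smaller ε M.orientation M.two_le (lt_of_le_of_ne (hmax M hM) hM1) D)
    (fun M _ => by
      rw [hp]
      refine Al_poly ε (D := D) (fun l hl => ?_) _
      beta_reduce
      split_ifs
      · exact coeff_pp_zero hl
      · exact map_zero _)
    (fun M => A'.count M) (fun M => B'.count M) (Al_of_asy (hc D _ h15)) (Al_of_asy (hc' D _ h15))
    hc0 hc0' h1 hM₀
    (by
      rw [hp]
      simp only [hε, and_self, if_true]
      intro h0
      have h2 := congrArg (coeff (D - (M₀.orders.card - 3))) h0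
      rw [coeff_pp_top _ M₀.three_le (hD M₀ hM₀), map_zero] at h2
      exact mul_ne_zero (alp_ne _ M₀.two_le D) (zpow_ne_zero _ pi0) h2)
    (fun M hM hne => by
      rw [hp, hg]
      simp only [hε, and_self, if_true]
      split_ifs with hMM
      · obtain ⟨hM1, hM2⟩ := hMM
        rw [hM2]
        intro h0
        apply hne
        have h3 := distinct M₀.orientation M₀.three_le M.three_le M₀.two_le M.two_le M₀.coprime
          M.coprime hM1.symm (hD M₀ hM₀) (hD M hM) h0
        cases M
        cases M₀
        simp only at h3 hM2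
        subst h3 hM2
        rfl
      · rw [mul_zero]
        refine (mul_ne_zero Gs_ne ?_).symm
        intro h0
        have h2 := congrArg (coeff (D - (M₀.orders.card - 3))) h0
        rw [coeff_pp_top _ M₀.three_le (hD M₀ hM₀), map_zero] at h2
        exact mul_ne_zero (alp_ne _ M₀.two_le D) (zpow_ne_zero _ pi0) h2)
  rw [hs, Multiset.mem_toFinset, Multiset.mem_add, ← Multiset.count_pos, ← Multiset.count_pos] at hM₀
  rw [hA', hB', Multiset.count_sub, Multiset.count_sub] at hex hM₀
  omega

end Pool.Agent.K3h96.OS
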