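import Pool.Agent.K3h96.OS.AlienG

set_option autoImplicit false

/-! # The quotients of the alien derivatives are pairwise different -/

namespace Pool.Agent.K3h96.OS

open Finset PowerSeries

/-- evaluation of the product of hyperbolic sines -/
theorem eval_prod (S : Finset ℕ) (c : ℕ) (hc : c ≠ 0) :
    ev (resc (((Real.pi : ℂ) * c) ^ 2) (∏ a ∈ S, sinhSeries (1 / (a : ℚ)))) =
      (((Real.pi : ℂ) * c)⁻¹) ^ S.card * ∏ a ∈ S, Complex.sin (Real.pi * c / a) := by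
  have hc0 : (Real.pi : ℂ) * c ≠ 0 := mul_ne_zero pi0 (by exact_mod_cast hc)
  rw [map_prod]
  have h1 : ∏ a ∈ S, resc (((Real.pi : ℂ) * c) ^ 2) (sinhSeries (1 / (a : ℚ))) =
      ∏ a ∈ S, C ((Real.pi : ℂ) * c)⁻¹ * Sn (Real.pi * c / a) := by
    refine prod_congr rfl fun a _ => ?_
    rw [resc_sinh _ hc0]
    push_cast
    rw [mul_one_div]
  rw [h1, ev_prod _ _ (fun a _ => (Wn.const _).mul (Wn.Sn _))]
  have h2 : ∀ a ∈ S, ev (C ((Real.pi : ℂ) * c)⁻¹ * Sn (Real.pi * c / a)) =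
      ((Real.pi : ℂ) * c)⁻¹ * Complex.sin (Real.pi * c / a) := by
    intro a _
    rw [ev_mul (Wn.const _) (Wn.Sn _), ev_C, ev_Sn]
  rw [prod_congr rfl h2, prod_mul_distrib, prod_const]

theorem sin_zero_iff (c a : ℕ) (ha : a ≠ 0) : Complex.sin (Real.pi * c / a) = 0 ↔ a ∣ c := by
  have ha' : (a : ℂ) ≠ 0 := by exact_mod_cast ha
  rw [Complex.sin_eq_zero_iff]
  constructor
  · rintro ⟨k, hk⟩
    have h1 : (c : ℂ) = (a : ℂ) * k := by
      have h2 : (Real.pi : ℂ) * c = Real.pi * (a * k) := by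
        field_simp at hk
        linear_combination (Real.pi : ℂ) * hk
      exact mul_left_cancel₀ pi0 h2
    have h3 : (c : ℤ) = (a : ℤ) * k := by exact_mod_cast h1
    exact Int.natCast_dvd_natCast.1 ⟨k, h3⟩
  · rintro ⟨k, rfl⟩
    refine ⟨k, ?_⟩
    push_cast
    field_simp

theorem subset_of_dvd {S T : Finset ℕ} (h2 : ∀ a ∈ S, 2 ≤ a)
    (hcS : ∀ a ∈ S, ∀ b ∈ S, a ≠ b → a.Coprime b)
    (h : ∀ c : ℕ, c ≠ 0 → ((∃ a ∈ S, a ∣ c) ↔ ∃ b ∈ T, b ∣ c)) : S ⊆ T := by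
  intro a ha
  have ha2 := h2 a ha
  obtain ⟨b, hb, hba⟩ := (h a (by omega)).1 ⟨a, ha, dvd_rfl⟩
  have hb0 : b ≠ 0 := by
    rintro rfl
    have := zero_dvd_iff.1 hba
    omega
  obtain ⟨a', ha', hab⟩ := (h b hb0).2 ⟨b, hb, dvd_rfl⟩
  have h3 : a' = a := by
    by_contra hne
    have h4 := hcS a' ha' a ha hne
    have h5 : a' ∣ 1 := by
      have := Nat.dvd_gcd dvd_rfl (hab.trans hba)
      rwa [h4] at this
    have := h2 a' ha'
    have := Nat.dvd_one.1 h5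
    omega
  rw [h3] at hab
  rwa [Nat.dvd_antisymm hab hba]

theorem eq_of_prod_eq {S T : Finset ℕ} (h2 : ∀ a ∈ S, 2 ≤ a) (h2' : ∀ a ∈ T, 2 ≤ a)
    (hcS : ∀ a ∈ S, ∀ b ∈ S, a ≠ b → a.Coprime b) (hcT : ∀ a ∈ T, ∀ b ∈ T, a ≠ b → a.Coprime b)
    (h : ∏ a ∈ S, sinhSeries (1 / (a : ℚ)) = ∏ a ∈ T, sinhSeries (1 / (a : ℚ))) : S = T := by
  have key : ∀ c : ℕ, c ≠ 0 → ((∃ a ∈ S, a ∣ c) ↔ ∃ b ∈ T, b ∣ c) := by
    intro c hc
    have h1 := congrArg (fun f => ev (resc (((Real.pi : ℂ) * c) ^ 2) f)) h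
    rw [eval_prod S c hc, eval_prod T c hc] at h1
    have hc0 : ((Real.pi : ℂ) * c)⁻¹ ≠ 0 :=
      inv_ne_zero (mul_ne_zero pi0 (by exact_mod_cast hc))
    have e : ∀ (S : Finset ℕ), (∀ a ∈ S, 2 ≤ a) → ((((Real.pi : ℂ) * c)⁻¹) ^ S.card *
        ∏ a ∈ S, Complex.sin (Real.pi * c / a) = 0 ↔ ∃ a ∈ S, a ∣ c) := by
      intro S hS
      rw [mul_eq_zero, or_iff_right (pow_ne_zero _ hc0), prod_eq_zero_iff]
      refine exists_congr fun a => and_congr_right fun ha => ?_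
      exact sin_zero_iff c a (by have := hS a ha; omega)
    rw [← e S h2, ← e T h2', h1]
  exact Subset.antisymm (subset_of_dvd h2 hcS key)
    (subset_of_dvd h2' hcT fun c hc => (key c hc).symm)

theorem coeff_zero_gC {S : Finset ℕ} (h2 : ∀ a ∈ S, 2 ≤ a) : coeff 0 (gC S) = 1 := by
  have e1 : constantCoeff (sinhSeries 1) = 1 := by
    rw [← coeff_zero_eq_constantCoeff_apply, sinhSeries, coeff_mk]
    simp
  have e2 : constantCoeff (sinhSeries 1)⁻¹ = 1 := by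
    rw [PowerSeries.constantCoeff_inv, e1, inv_one]
  have e3 : coeff 0 (kernelSeries S) = (∏ a ∈ S, (a : ℚ))⁻¹ := by
    rw [coeff_zero_eq_constantCoeff_apply, kernelSeries, map_mul, map_pow, map_prod, e2, one_pow,
      mul_one, ← prod_inv_distrib]
    refine prod_congr rfl fun a _ => ?_
    rw [← coeff_zero_eq_constantCoeff_apply, sinhSeries, coeff_mk]
    simp
  rw [gC, coeff_map, gaussSeries, coeff_mk, e3]
  have h0 : (∏ a ∈ S, (a : ℚ)) ≠ 0 :=
    prod_ne_zero_iff.2 fun a ha => by have := h2 a ha; positivity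
  have : (Nat.doubleFactorial (2 * 0 + 1) : ℚ) * ((∏ a ∈ S, (a : ℚ)) ^ (0 + 1) / 2 ^ 0) *
      (∏ a ∈ S, (a : ℚ))⁻¹ = 1 := by
    simp only [zero_add, pow_one, pow_zero, div_one, Nat.doubleFactorial, Nat.cast_one,
      one_mul]
    exact mul_inv_cancel₀ h0
  rw [this, map_one]

theorem gC_inj {S T : Finset ℕ} (h2 : ∀ a ∈ S, 2 ≤ a) (h2' : ∀ a ∈ T, 2 ≤ a)
    (hcS : ∀ a ∈ S, ∀ b ∈ S, a ≠ b → a.Coprime b) (hcT : ∀ a ∈ T, ∀ b ∈ T, a ≠ b → a.Coprime b)
    (hP : Pr S = Pr T) (hcard : S.card = T.card) (h : gC S = gC T) : S = T := by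
  apply eq_of_prod_eq h2 h2' hcS hcT
  have hPT : (∏ a ∈ T, (a : ℚ)) = ∏ a ∈ S, (a : ℚ) := by
    have := congrArg (fun n : ℕ => (n : ℚ)) hP
    simp only [Pr, Nat.cast_prod] at this
    exact this.symm
  have h0 : (∏ a ∈ S, (a : ℚ)) ≠ 0 :=
    prod_ne_zero_iff.2 fun a ha => by have := h2 a ha; positivity
  have h1 : kernelSeries S = kernelSeries T := by
    ext k
    have h3 := congrArg (coeff k) h
    rw [gC, gC, coeff_map, coeff_map] at h3
    have h4 := (algebraMap ℚ ℂ).injective h3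
    rw [gaussSeries, gaussSeries, coeff_mk, coeff_mk, hPT] at h4
    have h5 : (Nat.doubleFactorial (2 * k + 1) : ℚ) * ((∏ a ∈ S, (a : ℚ)) ^ (k + 1) / 2 ^ k) ≠ 0 := by
      have : (Nat.doubleFactorial (2 * k + 1) : ℚ) ≠ 0 := by
        exact_mod_cast (Nat.doubleFactorial_pos _).ne'
      positivity
    exact mul_left_cancel₀ h5 h4
  have e1 : constantCoeff (sinhSeries 1) ≠ 0 := by
    rw [← coeff_zero_eq_constantCoeff_apply, sinhSeries, coeff_mk]
    simp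
  have h3 := PowerSeries.mul_inv_cancel _ e1
  rw [kernelSeries, kernelSeries, ← hcard] at h1
  have h4 : ∀ f : PowerSeries ℚ, f = f * (sinhSeries 1)⁻¹ ^ (S.card - 2) *
      (sinhSeries 1) ^ (S.card - 2) := by
    intro f
    rw [mul_assoc, ← mul_pow, mul_comm (sinhSeries 1)⁻¹, h3, one_pow, mul_one]
  rw [h4 (∏ a ∈ S, _), h1, ← h4]

theorem Pr_of_Bp {S T : Finset ℕ} (h : Bp S = Bp T) : Pr S = Pr T := by
  unfold Bp at h
  have h0 : (2 * Real.pi ^ 2 : ℝ) ≠ 0 := by positivity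
  have h1 : (Pr S : ℝ) = Pr T := by
    field_simp at h
    exact h
  exact_mod_cast h1

theorem coeff_pp_low {ε : ℤˣ} {S : Finset ℕ} {D l : ℕ} (h : l < D - (S.card - 3)) :
    coeff l (pp ε S D) = 0 := by
  rw [pp, coeff_mk, if_neg (by omega)]

/-- the coefficient of `π ^ (card - 6)` in the lowest coefficient -/
noncomputable def alp (ε : ℤˣ) (S : Finset ℕ) (D : ℕ) : ℂ :=
  (-((ε : ℤ) : ℂ)) ^ (D - (S.card - 3)) * (lead S * ((2 / (Pr S : ℂ)) ^ (S.card - 3)))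

theorem alg_alp (ε : ℤˣ) (S : Finset ℕ) (D : ℕ) : IsAlgebraic ℚ (alp ε S D) := by
  unfold alp
  have h1 : IsAlgebraic ℚ (-((ε : ℤ) : ℂ)) := by
    rcases Int.units_eq_one_or ε with rfl | rfl
    · simpa using isAlgebraic_one.neg
    · simpa using isAlgebraic_one
  have h2 : IsAlgebraic ℚ (2 / (Pr S : ℂ)) := by
    rw [div_eq_mul_inv]
    have := (alg_nat 2).mul (alg_nat (Pr S)).inv
    simpa using this
  exact (h1.pow _).mul ((alg_lead S).mul (h2.pow _))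

theorem alp_ne (ε : ℤˣ) {S : Finset ℕ} (h2 : ∀ a ∈ S, 2 ≤ a) (D : ℕ) : alp ε S D ≠ 0 := by
  unfold alp
  have hP : (Pr S : ℂ) ≠ 0 := by
    have : Pr S ≠ 0 := prod_ne_zero_iff.2 fun a ha => by have := h2 a ha; omega
    exact_mod_cast this
  refine mul_ne_zero (pow_ne_zero _ ?_) (mul_ne_zero (lead_ne S h2) (pow_ne_zero _ ?_))
  · rcases Int.units_eq_one_or ε with rfl | rfl <;> simp
  · exact div_ne_zero two_ne_zero hP

theorem Bp_inv (S : Finset ℕ) : ((Bp S : ℝ) : ℂ)⁻¹ = 2 / (Pr S : ℂ) * (Real.pi : ℂ) ^ 2 := by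
  unfold Bp
  push_cast
  rw [inv_div]
  ring

/-- the lowest coefficient -/
theorem coeff_pp_top (ε : ℤˣ) {S : Finset ℕ} (hS : 3 ≤ S.card) {D : ℕ} (hD : S.card ≤ D + 3) :
    coeff (D - (S.card - 3)) (pp ε S D) = alp ε S D * (Real.pi : ℂ) ^ ((S.card : ℤ) - 6) := by
  rw [pp, coeff_mk, if_pos (by omega)]
  have e : D - (D - (S.card - 3)) = S.card - 3 := by omega
  have e2 : S.card - 3 = S.card - 2 - 1 := by omega
  rw [e, ← inv_pow, Bp_inv]
  nth_rewrite 2 [e2]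
  rw [del_top S hS, alp, mul_pow, ← pow_mul]
  have h1 : (Real.pi : ℂ) ^ (-(S.card : ℤ)) * (Real.pi : ℂ) ^ (2 * (S.card - 3)) =
      (Real.pi : ℂ) ^ ((S.card : ℤ) - 6) := by
    rw [← zpow_natCast, ← zpow_add₀ pi0]
    congr 1
    omega
  rw [← h1]
  ring

/-- the other coefficients -/
theorem V_pp (ε : ℤˣ) {S : Finset ℕ} (hS : 3 ≤ S.card) {D l : ℕ} (hD : S.card ≤ D + 3)
    (hl : l ≠ D - (S.card - 3)) : V ((S.card : ℤ) - 7) (coeff l (pp ε S D)) := by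
  rw [pp, coeff_mk]
  split_ifs with h
  · have h1 : IsAlgebraic ℚ ((-((ε : ℤ) : ℂ)) ^ l) := by
      refine IsAlgebraic.pow ?_ l
      rcases Int.units_eq_one_or ε with rfl | rfl
      · simpa using isAlgebraic_one.neg
      · simpa using isAlgebraic_one
    refine V.alg_mul h1 ?_
    rw [← inv_pow, Bp_inv, mul_pow, ← pow_mul]
    have h2 : IsAlgebraic ℚ ((2 / (Pr S : ℂ)) ^ (D - l)) := by
      rw [div_eq_mul_inv]
      have := ((alg_nat 2).mul (alg_nat (Pr S)).inv).pow (D - l)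
      simpa using this
    have h3 : V (((2 * (D - l) : ℕ) : ℤ)) ((2 / (Pr S : ℂ)) ^ (D - l) *
        (Real.pi : ℂ) ^ (2 * (D - l))) := by
      have := V.alg_mul h2 (V.pi_zpow ((2 * (D - l) : ℕ) : ℤ))
      rwa [zpow_natCast] at this
    refine V.mono ?_ ((V_del S hS (D - l)).mul h3)
    omega
  · exact V.zero _

theorem alg_coeff_Gs (ε : ℤˣ) (S : Finset ℕ) (k : ℕ) : IsAlgebraic ℚ (coeff k (Gs ε S)) := by
  rw [coeff_Gs, gC, coeff_map]
  have h1 : IsAlgebraic ℚ ((((ε : ℤ) : ℂ)) ^ k) := by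
    refine IsAlgebraic.pow ?_ k
    rcases Int.units_eq_one_or ε with rfl | rfl
    · simpa using isAlgebraic_one
    · simpa using isAlgebraic_one.neg
  exact h1.mul (isAlgebraic_algebraMap _)

/-- the coefficients of the product -/
theorem V_mul_pp (ε : ℤˣ) {S : Finset ℕ} (hS : 3 ≤ S.card) {D : ℕ} (hD : S.card ≤ D + 3)
    (T : Finset ℕ) (k : ℕ) :
    V ((S.card : ℤ) - 7) (coeff (D - (S.card - 3) + k) (Gs ε T * pp ε S D) -
      coeff k (Gs ε T) * alp ε S D * (Real.pi : ℂ) ^ ((S.card : ℤ) - 6)) := by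
  rw [mul_assoc, ← coeff_pp_top ε hS hD, coeff_mul]
  have hmem : (k, D - (S.card - 3)) ∈ HasAntidiagonal.antidiagonal (D - (S.card - 3) + k) := by
    rw [HasAntidiagonal.mem_antidiagonal, add_comm]
  rw [← add_sum_erase _ _ hmem, add_sub_cancel_left]
  refine V.sum _ _ fun x hx => ?_
  rw [mem_erase, HasAntidiagonal.mem_antidiagonal] at hx
  refine V.alg_mul (alg_coeff_Gs ε T _) (V_pp ε hS hD ?_)
  intro h
  apply hx.1
  ext
  · simp only
    omega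
  · exact h

theorem distinct (ε : ℤˣ) {S T : Finset ℕ} (hS : 3 ≤ S.card) (hT : 3 ≤ T.card)
    (h2 : ∀ a ∈ S, 2 ≤ a) (h2' : ∀ a ∈ T, 2 ≤ a)
    (hcS : ∀ a ∈ S, ∀ b ∈ S, a ≠ b → a.Coprime b) (hcT : ∀ a ∈ T, ∀ b ∈ T, a ≠ b → a.Coprime b)
    (hP : Bp S = Bp T) {D : ℕ} (hD : S.card ≤ D + 3) (hD' : T.card ≤ D + 3)
    (h : Gs ε S * pp ε T D = Gs ε T * pp ε S D) : S = T := by
  have g0 : ∀ S : Finset ℕ, (∀ a ∈ S, 2 ≤ a) → coeff 0 (Gs ε S) = 1 := by
    intro S h2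
    rw [coeff_Gs, pow_zero, one_mul, coeff_zero_gC h2]
  -- the orders agree
  have low : ∀ S T : Finset ℕ, 3 ≤ S.card → 3 ≤ T.card → (∀ a ∈ S, 2 ≤ a) → (∀ a ∈ T, 2 ≤ a) →
      S.card ≤ D + 3 → T.card ≤ D + 3 → Gs ε S * pp ε T D = Gs ε T * pp ε S D →
      S.card ≤ T.card := by
    intro S T hS hT h2 h2' hD hD' h
    by_contra hlt
    push Not at hlt
    have h1 := congrArg (coeff (D - (S.card - 3))) h
    rw [coeff_mul, coeff_mul, sum_eq_zero, sum_eq_single (0, D - (S.card - 3))] at h1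
    · rw [g0 T h2', one_mul, coeff_pp_top ε hS hD] at h1
      exact mul_ne_zero (alp_ne ε h2 D) (zpow_ne_zero _ pi0) h1.symm
    · intro x hx hne
      rw [HasAntidiagonal.mem_antidiagonal] at hx
      rw [coeff_pp_low, mul_zero]
      by_contra hcon
      apply hne
      ext
      · simp only
        omega
      · simp only
        omega
    · intro hx
      rw [HasAntidiagonal.mem_antidiagonal] at hx
      simp at hx
    · intro x hx
      rw [HasAntidiagonal.mem_antidiagonal] at hx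
      rw [coeff_pp_low, mul_zero]
      omega
  have hcard : S.card = T.card := le_antisymm (low S T hS hT h2 h2' hD hD' h)
    (low T S hT hS h2' h2 hD' hD h.symm)
  have key : ∀ k, coeff k (Gs ε T) * alp ε S D = coeff k (Gs ε S) * alp ε T D := by
    intro k
    have a1 := V_mul_pp ε hS hD T k
    have a2 := V_mul_pp ε hT hD' S k
    rw [← hcard] at a2
    rw [h] at a2
    have a3 := a2.sub a1
    rw [← sub_eq_zero]
    refine V.top (d := (S.card : ℤ) - 7) ?_ ?_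
    · exact ((alg_coeff_Gs ε T k).mul (alg_alp ε S D)).sub ((alg_coeff_Gs ε S k).mul (alg_alp ε T D))
    · convert a3 using 1
      rw [show (S.card : ℤ) - 7 + 1 = (S.card : ℤ) - 6 by ring]
      ring
  have k0 := key 0
  rw [g0 S h2, g0 T h2', one_mul, one_mul] at k0
  apply gC_inj h2 h2' hcS hcT (Pr_of_Bp hP) hcard
  ext k
  have h3 := key k
  rw [k0] at h3
  have h4 := mul_right_cancel₀ (alp_ne ε h2' D) h3
  rw [coeff_Gs, coeff_Gs] at h4
  have h5 : (((ε : ℤ) : ℂ)) ^ k ≠ 0 := by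
    refine pow_ne_zero _ ?_
    rcases Int.units_eq_one_or ε with rfl | rfl <;> simp
  exact (mul_left_cancel₀ h5 h4).symm

end Pool.Agent.K3h96.OS
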