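import Mathlib
import Pool.Agent.H340R2.LW

set_option autoImplicit false

/-! # The degree in `π` over the field of algebraic numbers -/

namespace Pool.Agent.K3h96.OS

open Polynomial

/-- `x` is a Laurent polynomial in `π` with algebraic coefficients, of degree at most `d` -/
def V (d : ℤ) (x : ℂ) : Prop :=
  ∃ Q : Polynomial (algebraicClosure ℚ ℂ), x = (Real.pi : ℂ) ^ d * aeval ((Real.pi : ℂ)⁻¹) Q

theorem pi0 : (Real.pi : ℂ) ≠ 0 := by exact_mod_cast Real.pi_ne_zero

theorem V.zero (d : ℤ) : V d 0 := ⟨0, by simp⟩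

theorem V.add {d : ℤ} {x y : ℂ} (hx : V d x) (hy : V d y) : V d (x + y) := by
  obtain ⟨P, rfl⟩ := hx
  obtain ⟨Q, rfl⟩ := hy
  exact ⟨P + Q, by rw [map_add]; ring⟩

theorem V.neg {d : ℤ} {x : ℂ} (hx : V d x) : V d (-x) := by
  obtain ⟨P, rfl⟩ := hx
  exact ⟨-P, by rw [map_neg]; ring⟩

theorem V.sub {d : ℤ} {x y : ℂ} (hx : V d x) (hy : V d y) : V d (x - y) := by
  rw [sub_eq_add_neg]
  exact hx.add hy.neg

theorem V.sum {d : ℤ} {ι : Type*} (s : Finset ι) (f : ι → ℂ) (h : ∀ i ∈ s, V d (f i)) :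
    V d (∑ i ∈ s, f i) := by
  classical
  induction s using Finset.induction_on with
  | empty => simpa using V.zero d
  | insert a s ha ih =>
    rw [Finset.sum_insert ha]
    exact (h a (Finset.mem_insert_self _ _)).add (ih fun i hi => h i (Finset.mem_insert_of_mem hi))

theorem V.mul {a b : ℤ} {x y : ℂ} (hx : V a x) (hy : V b y) : V (a + b) (x * y) := by
  obtain ⟨P, rfl⟩ := hx
  obtain ⟨Q, rfl⟩ := hy
  exact ⟨P * Q, by rw [map_mul, zpow_add₀ pi0]; ring⟩

theorem V.mono {a b : ℤ} (hab : a ≤ b) {x : ℂ} (hx : V a x) : V b x := by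
  obtain ⟨P, rfl⟩ := hx
  obtain ⟨n, hn⟩ := Int.eq_ofNat_of_zero_le (show 0 ≤ b - a by omega)
  refine ⟨X ^ n * P, ?_⟩
  rw [map_mul, map_pow, aeval_X]
  have : b = a + n := by omega
  rw [this, zpow_add₀ pi0, zpow_natCast, inv_pow]
  field_simp [pi0]

theorem V.alg {x : ℂ} (hx : IsAlgebraic ℚ x) : V 0 x := by
  refine ⟨C ⟨x, mem_algebraicClosure_iff.2 hx⟩, ?_⟩
  rw [aeval_C, zpow_zero, one_mul]
  rfl

theorem V.pi_zpow (d : ℤ) : V d ((Real.pi : ℂ) ^ d) := ⟨1, by simp⟩

theorem V.alg_mul {d : ℤ} {x y : ℂ} (hx : IsAlgebraic ℚ x) (hy : V d y) : V d (x * y) := by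
  have := (V.alg hx).mul hy
  rwa [zero_add] at this

theorem V.top {d : ℤ} {x : ℂ} (hx : IsAlgebraic ℚ x) (h : V d (x * (Real.pi : ℂ) ^ (d + 1))) :
    x = 0 := by
  obtain ⟨Q, hQ⟩ := h
  have htr : Transcendental (algebraicClosure ℚ ℂ) (Real.pi : ℂ) :=
    Pool.Agent.H340R2.LW.transcendental_pi_complex.algebraicClosure
  have htr' : Transcendental (algebraicClosure ℚ ℂ) ((Real.pi : ℂ)⁻¹) := by
    intro h1
    apply htr
    rw [← inv_inv (Real.pi : ℂ)]
    exact h1.inv
  by_contra hx0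
  obtain ⟨y, hy⟩ : ∃ y : algebraicClosure ℚ ℂ, (y : ℂ) = x := ⟨⟨x, mem_algebraicClosure_iff.2 hx⟩, rfl⟩
  have h2 : aeval ((Real.pi : ℂ)⁻¹) (X * Q - C y) = 0 := by
    rw [map_sub, map_mul, aeval_X, aeval_C]
    rw [zpow_add₀ pi0, zpow_one] at hQ
    have h3 : x * (Real.pi : ℂ) = aeval ((Real.pi : ℂ)⁻¹) Q := by
      have h4 : (Real.pi : ℂ) ^ d ≠ 0 := zpow_ne_zero _ pi0
      apply mul_left_cancel₀ h4
      linear_combination hQ
    rw [← h3]
    have h5 : algebraMap (algebraicClosure ℚ ℂ) ℂ y = x := hy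
    rw [h5]
    field_simp [pi0]
    ring
  have h3 := (transcendental_iff.1 htr') _ h2
  have h4 := congrArg (fun P => Polynomial.coeff P 0) h3
  simp only [coeff_sub, mul_coeff_zero, coeff_X_zero, zero_mul, coeff_C_zero, zero_sub,
    Polynomial.coeff_zero, neg_eq_zero] at h4
  rw [h4] at hy
  exact hx0 (by rw [← hy]; rfl)

/-- the coefficient of degree `m` has degree at most `d + m` in `π` -/
def VS (d : ℤ) (f : PowerSeries ℂ) : Prop := ∀ m : ℕ, V (d + m) (PowerSeries.coeff m f)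

theorem VS.mul {a b : ℤ} {f g : PowerSeries ℂ} (hf : VS a f) (hg : VS b g) : VS (a + b) (f * g) := by
  intro m
  rw [PowerSeries.coeff_mul]
  refine V.sum _ _ fun x hx => ?_
  rw [Finset.HasAntidiagonal.mem_antidiagonal] at hx
  have := (hf x.1).mul (hg x.2)
  convert this using 1
  rw [← hx]
  push_cast
  ring

theorem VS.one : VS 0 1 := by
  intro m
  rw [PowerSeries.coeff_one]
  split_ifs
  · exact (V.alg isAlgebraic_one).mono (by omega)
  · exact V.zero _

theorem VS.pow {f : PowerSeries ℂ} (hf : VS 0 f) (n : ℕ) : VS 0 (f ^ n) := by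
  induction n with
  | zero => simpa using VS.one
  | succ n ih => rw [pow_succ]; simpa using ih.mul hf

theorem VS.prod {ι : Type*} (s : Finset ι) (f : ι → PowerSeries ℂ) (h : ∀ i ∈ s, VS (-1) (f i)) :
    VS (-(s.card : ℤ)) (∏ i ∈ s, f i) := by
  classical
  induction s using Finset.induction_on with
  | empty => simpa using VS.one
  | insert a s ha ih =>
    rw [Finset.prod_insert ha, Finset.card_insert_of_notMem ha]
    have := (h a (Finset.mem_insert_self _ _)).mul
      (ih fun i hi => h i (Finset.mem_insert_of_mem hi))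
    convert this using 1
    push_cast
    ring

theorem VS.inv {f g : PowerSeries ℂ} (hf : VS 0 f) (h0 : IsAlgebraic ℚ (PowerSeries.coeff 0 f))
    (h0' : PowerSeries.coeff 0 f ≠ 0) (hfg : f * g = 1) : VS 0 g := by
  intro m
  rw [zero_add]
  induction m using Nat.strong_induction_on with
  | _ m ih =>
    have h1 := congrArg (PowerSeries.coeff m) hfg
    rw [PowerSeries.coeff_mul, Finset.Nat.sum_antidiagonal_eq_sum_range_succ_mk,
      Finset.sum_range_succ', Nat.sub_zero] at h1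
    have h2 : PowerSeries.coeff m g = (PowerSeries.coeff 0 f)⁻¹ *
        (PowerSeries.coeff m (1 : PowerSeries ℂ) - ∑ k ∈ Finset.range m,
          PowerSeries.coeff (k + 1) f * PowerSeries.coeff (m - (k + 1)) g) := by
      rw [← h1]
      field_simp
      ring
    rw [h2]
    refine V.alg_mul h0.inv (V.sub ?_ (V.sum _ _ fun k hk => ?_))
    · have := VS.one m
      rwa [zero_add] at this
    · rw [Finset.mem_range] at hk
      have := (hf (k + 1)).mul (ih (m - (k + 1)) (by omega))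
      convert this using 1
      omega

end Pool.Agent.K3h96.OS
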