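import Pool.Agent.K3h96.OS.Sinh

set_option autoImplicit false

/-! # The reciprocal of the hyperbolic sine, divided by its first factor -/

namespace Pool.Agent.K3h96.OS

open Finset PowerSeries

/-- `sinh y / y` in the variable `y ^ 2 / π ^ 2` -/
noncomputable def S1 : PowerSeries ℂ := C (Real.pi : ℂ)⁻¹ * Sn Real.pi

/-- the quotient of `sinh y / y` by `1 + y ^ 2 / π ^ 2` -/
noncomputable def tt : PowerSeries ℂ := S1 * geo

theorem coeff_S1 (j : ℕ) :
    coeff j S1 = ((Real.pi ^ (2 * j) / ((2 * j + 1).factorial : ℝ) : ℝ) : ℂ) := by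
  rw [S1, coeff_C_mul, Sn, coeff_mk, pow_succ]
  push_cast
  field_simp [pi0]

theorem Wn.S1 : Wn S1 := (Wn.const _).mul (Wn.Sn _)

theorem ev_S1 : ev S1 = 0 := by
  rw [S1, ev_mul (Wn.const _) (Wn.Sn _), ev_Sn]
  simp

theorem qt_S1 : qt S1 = tt := by
  rw [qt, ev_S1, tt]
  simp

theorem Wn.tt : Wn tt := by
  rw [← qt_S1]
  exact Wn.S1.qt

theorem Dt_S1 : Dt S1 = X * Dt tt := by
  rw [Dt_spec, ev_S1, qt_S1]
  simp

theorem S1_eq : S1 = tt * (1 + X) := by
  rw [tt, mul_assoc, geo_mul, mul_one]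

theorem coeff_zero_tt : coeff 0 tt = 1 := by
  rw [tt, coeff_mul]
  simp [coeff_S1, geo]

theorem coeff_one_tt : coeff 1 tt = ((Real.pi ^ 2 / 6 - 1 : ℝ) : ℂ) := by
  rw [tt, coeff_mul, Nat.sum_antidiagonal_eq_sum_range_succ_mk, sum_range_succ, sum_range_succ,
    sum_range_zero]
  simp only [coeff_S1, geo, coeff_mk]
  norm_num [Nat.factorial]
  ring

theorem coeff_two_tt : coeff 2 tt = ((Real.pi ^ 4 / 120 - Real.pi ^ 2 / 6 + 1 : ℝ) : ℂ) := by
  rw [tt, coeff_mul, Nat.sum_antidiagonal_eq_sum_range_succ_mk, sum_range_succ, sum_range_succ,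
    sum_range_succ, sum_range_zero]
  simp only [coeff_S1, geo, coeff_mk]
  norm_num [Nat.factorial]
  ring

theorem pi_sq_lt : Real.pi ^ 2 < 9.8697 := by
  have h1 := Real.pi_lt_d4
  have h0 := Real.pi_pos
  nlinarith

theorem pi_sq_gt : 9.869 < Real.pi ^ 2 := by
  have h1 := Real.pi_gt_d4
  have h0 := Real.pi_pos
  nlinarith

theorem aj (j : ℕ) : Real.pi ^ (2 * (j + 4)) / ((2 * (j + 4) + 1).factorial : ℝ) ≤
    0.0262 * (1 / 11) ^ j := by
  have h2 := pi_sq_lt
  have h20 : 0 < Real.pi ^ 2 := by positivity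
  induction j with
  | zero =>
    have e : Real.pi ^ (2 * (0 + 4)) = (Real.pi ^ 2) ^ 4 := by ring
    rw [e]
    have h3 : (Real.pi ^ 2) ^ 4 ≤ 9.8697 ^ 4 := pow_le_pow_left₀ h20.le h2.le 4
    norm_num [Nat.factorial] at h3 ⊢
    linarith
  | succ j ih =>
    have e1 : 2 * (j + 1 + 4) + 1 = (2 * (j + 4) + 1) + 1 + 1 := by ring
    have e2 : Real.pi ^ (2 * (j + 1 + 4)) = Real.pi ^ (2 * (j + 4)) * Real.pi ^ 2 := by ring
    rw [e1, Nat.factorial_succ, Nat.factorial_succ, e2]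
    push_cast
    have hf : (0 : ℝ) < ((2 * (j + 4) + 1).factorial : ℝ) := by positivity
    have hj : (0 : ℝ) ≤ j := Nat.cast_nonneg j
    have h3 : Real.pi ^ 2 / ((2 * ((j : ℝ) + 4) + 2 + 1) * (2 * ((j : ℝ) + 4) + 1 + 1)) ≤ 1 / 11 := by
      rw [div_le_div_iff₀ (by positivity) (by norm_num)]
      nlinarith
    calc Real.pi ^ (2 * (j + 4)) * Real.pi ^ 2 / ((2 * ((j : ℝ) + 4) + 2 + 1) *
          ((2 * ((j : ℝ) + 4) + 1 + 1) * ((2 * (j + 4) + 1).factorial : ℝ)))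
        = Real.pi ^ (2 * (j + 4)) / ((2 * (j + 4) + 1).factorial : ℝ) *
          (Real.pi ^ 2 / ((2 * ((j : ℝ) + 4) + 2 + 1) * (2 * ((j : ℝ) + 4) + 1 + 1))) := by
          field_simp
      _ ≤ (0.0262 * (1 / 11) ^ j) * (1 / 11) :=
          mul_le_mul ih h3 (by positivity) (by positivity)
      _ = _ := by rw [pow_succ]; ring

theorem tail_tt (j : ℕ) : ‖coeff (j + 3) tt‖ ≤ 0.02882 * (1 / 11) ^ j := by
  rw [← qt_S1, coeff_qt Wn.S1, norm_neg, norm_mul, norm_pow, norm_neg, norm_one, one_pow, one_mul]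
  have hg : HasSum (fun i : ℕ => (0.0262 * (1 / 11) ^ j : ℝ) * (1 / 11) ^ i)
      (0.0262 * (1 / 11) ^ j * (1 - 1 / 11)⁻¹) :=
    (hasSum_geometric_of_lt_one (by norm_num) (by norm_num)).mul_left _
  refine (tsum_of_norm_bounded hg fun i => ?_).trans ?_
  · rw [norm_mul, norm_pow, norm_neg, norm_one, one_pow, one_mul, coeff_S1, Complex.norm_real,
      Real.norm_of_nonneg (by positivity)]
    have h1 := aj (i + j)
    have e : i + (j + 3 + 1) = i + j + 4 := by ring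
    rw [e]
    refine h1.trans (le_of_eq ?_)
    rw [pow_add]
    ring
  · have : (0 : ℝ) < (1 / 11) ^ j := by positivity
    norm_num at this ⊢
    nlinarith

theorem sum_tt (n : ℕ) : ∑ j ∈ range (n + 2), ‖coeff (j + 1) tt‖ * (10 / 9) ^ (j + 1) ≤
    0.98 - 0.05 * (1 / 8) ^ n := by
  have h1 := pi_sq_lt
  have h2 := pi_sq_gt
  induction n with
  | zero =>
    rw [zero_add, sum_range_succ, sum_range_succ, sum_range_zero]
    have e1 : ‖coeff (0 + 1) tt‖ ≤ 0.645 := by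
      rw [zero_add, coeff_one_tt, Complex.norm_real, Real.norm_eq_abs, abs_le]
      constructor <;> norm_num at h1 h2 ⊢ <;> linarith
    have e2 : ‖coeff (1 + 1) tt‖ ≤ 0.168 := by
      rw [coeff_two_tt, Complex.norm_real, Real.norm_eq_abs, abs_le]
      have e3 : Real.pi ^ 4 = (Real.pi ^ 2) ^ 2 := by ring
      rw [e3]
      constructor <;> norm_num at h1 h2 ⊢ <;> nlinarith
    norm_num at e1 e2 ⊢
    nlinarith
  | succ n ih =>
    rw [sum_range_succ]
    have h3 := tail_tt n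
    have e4 : n + 2 + 1 = n + 3 := rfl
    rw [e4]
    have h4 : ‖coeff (n + 3) tt‖ * (10 / 9) ^ (n + 3) ≤ 0.04 * (1 / 8) ^ n := by
      have h5 : ((1 : ℝ) / 11) ^ n * (10 / 9) ^ n ≤ (1 / 8) ^ n := by
        rw [← mul_pow]
        exact pow_le_pow_left₀ (by norm_num) (by norm_num) n
      calc ‖coeff (n + 3) tt‖ * (10 / 9) ^ (n + 3)
          ≤ 0.02882 * (1 / 11) ^ n * (10 / 9) ^ (n + 3) :=
            mul_le_mul_of_nonneg_right h3 (by positivity)
        _ = 0.02882 * (10 / 9) ^ 3 * ((1 / 11) ^ n * (10 / 9) ^ n) := by rw [pow_add]; ring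
        _ ≤ 0.02882 * (10 / 9) ^ 3 * (1 / 8) ^ n := mul_le_mul_of_nonneg_left h5 (by norm_num)
        _ ≤ 0.04 * (1 / 8) ^ n := mul_le_mul_of_nonneg_right (by norm_num) (by positivity)
    have h6 : (0 : ℝ) < (1 / 8) ^ n := by positivity
    rw [pow_succ (1 / 8 : ℝ)]
    linarith

theorem sum_tt' (n : ℕ) : ∑ j ∈ range n, ‖coeff (j + 1) tt‖ * (10 / 9) ^ (j + 1) ≤ 1 := by
  have h1 : ∑ j ∈ range n, ‖coeff (j + 1) tt‖ * (10 / 9 : ℝ) ^ (j + 1) ≤
      ∑ j ∈ range (n + 2), ‖coeff (j + 1) tt‖ * (10 / 9) ^ (j + 1) :=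
    sum_le_sum_of_subset_of_nonneg (range_mono (by omega)) fun _ _ _ => by positivity
  have h2 := sum_tt n
  have h3 : (0 : ℝ) < (1 / 8) ^ n := by positivity
  linarith

/-- the inverse -/
noncomputable def ti : PowerSeries ℂ := tt⁻¹

theorem tt_mul_ti : tt * ti = 1 := by
  refine PowerSeries.mul_inv_cancel _ ?_
  rw [← coeff_zero_eq_constantCoeff_apply, coeff_zero_tt]
  exact one_ne_zero

theorem norm_ti (k : ℕ) : ‖coeff k ti‖ ≤ (9 / 10) ^ k := by
  induction k using Nat.strong_induction_on with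
  | _ k ih =>
    have h1 := congrArg (coeff k) tt_mul_ti
    rw [coeff_mul, Nat.sum_antidiagonal_eq_sum_range_succ_mk, sum_range_succ', Nat.sub_zero,
      coeff_zero_tt, one_mul] at h1
    cases k with
    | zero =>
      rw [range_zero, sum_empty, zero_add, coeff_one, if_pos rfl] at h1
      rw [h1]
      simp
    | succ k =>
      rw [coeff_one, if_neg (Nat.succ_ne_zero k)] at h1
      have h2 : coeff (k + 1) ti = -∑ j ∈ range (k + 1), coeff (j + 1) tt *
          coeff (k + 1 - (j + 1)) ti := by linear_combination h1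
      rw [h2, norm_neg]
      refine (norm_sum_le _ _).trans ?_
      calc ∑ j ∈ range (k + 1), ‖coeff (j + 1) tt * coeff (k + 1 - (j + 1)) ti‖
          ≤ ∑ j ∈ range (k + 1), (9 / 10) ^ (k + 1) * (‖coeff (j + 1) tt‖ * (10 / 9) ^ (j + 1)) := by
            refine sum_le_sum fun j hj => ?_
            rw [mem_range] at hj
            rw [norm_mul]
            have h3 := ih (k + 1 - (j + 1)) (by omega)
            have h4 : ((9 : ℝ) / 10) ^ (k + 1) * (10 / 9) ^ (j + 1) =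
                (9 / 10) ^ (k + 1 - (j + 1)) := by
              obtain ⟨m, hm⟩ := Nat.exists_eq_add_of_le (show j + 1 ≤ k + 1 by omega)
              rw [hm, Nat.add_sub_cancel_left, pow_add, mul_right_comm, ← mul_pow]
              norm_num
            calc ‖coeff (j + 1) tt‖ * ‖coeff (k + 1 - (j + 1)) ti‖ ≤
                ‖coeff (j + 1) tt‖ * (9 / 10) ^ (k + 1 - (j + 1)) :=
                  mul_le_mul_of_nonneg_left h3 (norm_nonneg _)
              _ = _ := by rw [← h4]; ring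
        _ = (9 / 10) ^ (k + 1) * ∑ j ∈ range (k + 1), ‖coeff (j + 1) tt‖ * (10 / 9) ^ (j + 1) := by
            rw [mul_sum]
        _ ≤ (9 / 10) ^ (k + 1) * 1 := mul_le_mul_of_nonneg_left (sum_tt' _) (by positivity)
        _ = _ := mul_one _

theorem Wn.ti : Wn ti :=
  ⟨1, 9 / 10, by norm_num, by norm_num, fun k => by rw [one_mul]; exact norm_ti k⟩

theorem Dt_tt_mul : Dt tt * Dt ti = 1 := by
  rw [← Dt_mul Wn.tt Wn.ti, tt_mul_ti, Dt_one]

theorem coeff_Dt_tt (m : ℕ) : coeff m (Dt tt) = (Real.pi : ℂ)⁻¹ * coeff (m + 1) (Dt (Sn Real.pi)) := by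
  have h := congrArg (coeff (m + 1)) Dt_S1
  rw [coeff_succ_X_mul, S1, Dt_C_mul _ (Wn.Sn _), coeff_C_mul] at h
  exact h.symm

theorem coeff_zero_Dt_tt : coeff 0 (Dt tt) = 1 / 2 := by
  rw [coeff_Dt_tt, coeff_one_Dt_Sn_pi]
  field_simp [pi0]

theorem coeff_zero_Dt_ti : coeff 0 (Dt ti) = 2 := by
  have h := congrArg (coeff 0) Dt_tt_mul
  rw [coeff_mul] at h
  simp only [HasAntidiagonal.antidiagonal_zero, sum_singleton, coeff_zero_Dt_tt] at h
  rw [coeff_one, if_pos rfl] at h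
  linear_combination 2 * h

end Pool.Agent.K3h96.OS
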