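import Pool.Agent.K3h96.OS.Wiener
import Pool.Agent.K3h96.OS.PiDeg

set_option autoImplicit false

/-! # The hyperbolic sine at its first zero -/

namespace Pool.Agent.K3h96.OS

open Finset PowerSeries

/-- `sinh (θ y) / y` in the variable `y ^ 2` -/
noncomputable def Sn (θ : ℂ) : PowerSeries ℂ :=
  PowerSeries.mk fun k => θ ^ (2 * k + 1) / ((2 * k + 1).factorial : ℂ)

theorem Wn.Sn (θ : ℂ) : Wn (Sn θ) := by
  refine ⟨Real.exp (2 * ‖θ‖), 1 / 4, by norm_num, by norm_num, fun k => ?_⟩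
  rw [OS.Sn, coeff_mk, norm_div, norm_pow, Complex.norm_natCast]
  have h1 : (2 * ‖θ‖) ^ (2 * k + 1) / ((2 * k + 1).factorial : ℝ) ≤ Real.exp (2 * ‖θ‖) :=
    Real.pow_div_factorial_le_exp _ (by positivity) _
  have h2 : ‖θ‖ ^ (2 * k + 1) / ((2 * k + 1).factorial : ℝ) =
      (2 * ‖θ‖) ^ (2 * k + 1) / ((2 * k + 1).factorial : ℝ) * ((1 / 4) ^ k / 2) := by
    have h3 : ((1 : ℝ) / 4) ^ k = 1 / 2 ^ (2 * k) := by
      rw [pow_mul, div_pow, one_pow]
      norm_num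
    rw [h3, mul_pow, pow_succ (2 : ℝ) (2 * k)]
    field_simp
  rw [h2]
  have h4 : (0 : ℝ) ≤ (2 * ‖θ‖) ^ (2 * k + 1) / ((2 * k + 1).factorial : ℝ) := by positivity
  have h5 : ((1 : ℝ) / 4) ^ k / 2 ≤ (1 / 4) ^ k := by
    have : (0 : ℝ) ≤ (1 / 4) ^ k := by positivity
    linarith
  exact mul_le_mul h1 h5 (by positivity) (Real.exp_pos _).le

theorem ev_Sn (θ : ℂ) : ev (Sn θ) = Complex.sin θ := by
  unfold ev
  refine ((Complex.hasSum_sin θ).congr_fun fun k => ?_).tsum_eq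
  rw [Sn, coeff_mk]
  ring

/-- the derivatives of the sine -/
noncomputable def sinD (l : ℕ) (θ : ℂ) : ℂ :=
  if Even l then (-1) ^ (l / 2) * Complex.sin θ else (-1) ^ (l / 2) * Complex.cos θ

theorem hasSum_desc (l : ℕ) (θ : ℂ) :
    HasSum (fun k : ℕ => (-1 : ℂ) ^ k * ((2 * k + 1).descFactorial l : ℂ) *
      (θ ^ (2 * k + 1) / ((2 * k + 1).factorial : ℂ))) (θ ^ l * sinD l θ) := by
  have key : ∀ n m : ℕ, ((n + m).descFactorial m : ℂ) / ((n + m).factorial : ℂ) =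
      1 / (n.factorial : ℂ) := by
    intro n m
    have h1 := Nat.factorial_mul_descFactorial (show m ≤ n + m by omega)
    rw [Nat.add_sub_cancel] at h1
    have h2 : ((n + m).factorial : ℂ) = (n.factorial : ℂ) * ((n + m).descFactorial m : ℂ) := by
      exact_mod_cast h1.symm
    have h3 : (n.factorial : ℂ) ≠ 0 := by exact_mod_cast n.factorial_ne_zero
    have h4 : ((n + m).factorial : ℂ) ≠ 0 := by exact_mod_cast (n + m).factorial_ne_zero
    rw [div_eq_div_iff h4 h3, h2]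
    ring
  obtain ⟨i, hi⟩ := Nat.even_or_odd' l
  have sm : ∀ k ∈ range i, (-1 : ℂ) ^ k * ((2 * k + 1).descFactorial l : ℂ) *
      (θ ^ (2 * k + 1) / ((2 * k + 1).factorial : ℂ)) = 0 := by
    intro k hk
    rw [mem_range] at hk
    rw [Nat.descFactorial_eq_zero_iff_lt.2 (by omega)]
    simp
  rw [← hasSum_nat_add_iff' i, sum_eq_zero sm, sub_zero]
  rcases hi with rfl | rfl
  · have h1 : sinD (2 * i) θ = (-1) ^ i * Complex.sin θ := by
      unfold sinD
      rw [if_pos (even_two_mul i), Nat.mul_div_cancel_left i (by norm_num)]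
    rw [h1]
    have h2 := (Complex.hasSum_sin θ).mul_left (θ ^ (2 * i) * (-1) ^ i)
    rw [show θ ^ (2 * i) * ((-1) ^ i * Complex.sin θ) = θ ^ (2 * i) * (-1) ^ i * Complex.sin θ by ring]
    refine h2.congr_fun fun k => ?_
    have h3 := key (2 * k + 1) (2 * i)
    have e : 2 * (k + i) + 1 = 2 * k + 1 + 2 * i := by ring
    rw [e, pow_add, pow_add θ]
    calc (-1 : ℂ) ^ k * (-1) ^ i * ((2 * k + 1 + 2 * i).descFactorial (2 * i) : ℂ) *
        (θ ^ (2 * k + 1) * θ ^ (2 * i) / ((2 * k + 1 + 2 * i).factorial : ℂ)) =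
        (-1) ^ k * (-1) ^ i * θ ^ (2 * k + 1) * θ ^ (2 * i) *
          (((2 * k + 1 + 2 * i).descFactorial (2 * i) : ℂ) /
            ((2 * k + 1 + 2 * i).factorial : ℂ)) := by ring
      _ = _ := by rw [h3]; ring
  · have h1 : sinD (2 * i + 1) θ = (-1) ^ i * Complex.cos θ := by
      unfold sinD
      have : (2 * i + 1) / 2 = i := by omega
      rw [if_neg (by simp), this]
    rw [h1]
    have h2 := (Complex.hasSum_cos θ).mul_left (θ ^ (2 * i + 1) * (-1) ^ i)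
    rw [show θ ^ (2 * i + 1) * ((-1) ^ i * Complex.cos θ) =
      θ ^ (2 * i + 1) * (-1) ^ i * Complex.cos θ by ring]
    refine h2.congr_fun fun k => ?_
    have h3 := key (2 * k) (2 * i + 1)
    have e : 2 * (k + i) + 1 = 2 * k + (2 * i + 1) := by ring
    rw [e, pow_add, pow_add θ]
    calc (-1 : ℂ) ^ k * (-1) ^ i * ((2 * k + (2 * i + 1)).descFactorial (2 * i + 1) : ℂ) *
        (θ ^ (2 * k) * θ ^ (2 * i + 1) / ((2 * k + (2 * i + 1)).factorial : ℂ)) =
        (-1) ^ k * (-1) ^ i * θ ^ (2 * k) * θ ^ (2 * i + 1) *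
          (((2 * k + (2 * i + 1)).descFactorial (2 * i + 1) : ℂ) /
            ((2 * k + (2 * i + 1)).factorial : ℂ)) := by ring
      _ = _ := by rw [h3]; ring

/-- combinations of descending factorials -/
def Comb (m : ℕ) (F : ℕ → ℚ) : Prop :=
  ∃ r : ℕ → ℚ, ∀ k : ℕ, F k = ∑ l ∈ range (m + 1), r l * ((2 * k + 1).descFactorial l : ℚ)

theorem Comb.mono {m : ℕ} {F : ℕ → ℚ} (h : Comb m F) : Comb (m + 1) F := by
  obtain ⟨r, hr⟩ := h
  refine ⟨fun l => if l < m + 1 then r l else 0, fun k => ?_⟩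
  rw [hr, sum_range_succ _ (m + 1)]
  beta_reduce
  rw [if_neg (lt_irrefl _), zero_mul, add_zero]
  refine sum_congr rfl fun l hl => ?_
  rw [mem_range] at hl
  rw [if_pos hl]

theorem Comb.lin {m : ℕ} {F G : ℕ → ℚ} (h : Comb m F) (h' : Comb m G) (a b : ℚ) :
    Comb m fun k => a * F k + b * G k := by
  obtain ⟨r, hr⟩ := h
  obtain ⟨s, hs⟩ := h'
  refine ⟨fun l => a * r l + b * s l, fun k => ?_⟩
  beta_reduce
  rw [hr, hs, mul_sum, mul_sum, ← sum_add_distrib]
  refine sum_congr rfl fun l _ => ?_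
  ring

theorem Comb.mulN {m : ℕ} {F : ℕ → ℚ} (h : Comb m F) : Comb (m + 1) fun k => (2 * k + 1) * F k := by
  obtain ⟨r, hr⟩ := h
  have h1 : Comb (m + 1) fun k => ∑ l ∈ range (m + 1), r l * ((2 * k + 1).descFactorial (l + 1) : ℚ) := by
    refine ⟨fun l => match l with | 0 => 0 | (l + 1) => r l, fun k => ?_⟩
    rw [sum_range_succ' _ (m + 1)]
    simp
  have h2 : Comb (m + 1) fun k => ∑ l ∈ range (m + 1), l * r l * ((2 * k + 1).descFactorial l : ℚ) :=
    Comb.mono ⟨fun l => l * r l, fun k => rfl⟩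
  obtain ⟨s, hs⟩ := h1.lin h2 1 1
  refine ⟨s, fun k => ?_⟩
  rw [← hs]
  beta_reduce
  rw [hr, mul_sum, one_mul, one_mul, ← sum_add_distrib]
  refine sum_congr rfl fun l _ => ?_
  have h3 : ((2 * k + 1).descFactorial (l + 1) : ℚ) =
      ((2 * k + 1 : ℕ) - (l : ℚ)) * ((2 * k + 1).descFactorial l : ℚ) := by
    rw [Nat.descFactorial_succ]
    rcases Nat.lt_or_ge (2 * k + 1) l with h | h
    · rw [Nat.descFactorial_eq_zero_iff_lt.2 h]
      simp
    · rw [Nat.cast_mul, Nat.cast_sub h]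
  rw [h3]
  push_cast
  ring

theorem comb_choose (m : ℕ) : Comb m fun k => (k.choose m : ℚ) := by
  induction m with
  | zero => exact ⟨fun _ => 1, fun k => by simp⟩
  | succ m ih =>
    obtain ⟨s, hs⟩ := (ih.mulN).lin ih.mono (1 / (2 * (m + 1))) (-((2 * m + 1) / (2 * (m + 1))))
    refine ⟨s, fun k => ?_⟩
    rw [← hs]
    have h1 := Nat.choose_succ_right_eq k m
    have h2 : (k.choose (m + 1) : ℚ) * (m + 1) = (k.choose m : ℚ) * (k - m) := by
      rcases Nat.lt_or_ge k m with h | h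
      · rw [Nat.choose_eq_zero_of_lt h, Nat.choose_eq_zero_of_lt (by omega)]
        simp
      · have h3 : ((k.choose (m + 1) * (m + 1) : ℕ) : ℚ) = ((k.choose m * (k - m) : ℕ) : ℚ) := by
          rw [h1]
        push_cast [Nat.cast_sub h] at h3
        exact h3
    have h3 : (m : ℚ) + 1 ≠ 0 := by positivity
    field_simp
    linear_combination 2 * h2

/-- the Taylor coefficients of `Sn θ` at `-1` -/
theorem coeff_Dt_Sn (m : ℕ) : ∃ r : ℕ → ℚ, ∀ θ : ℂ,
    coeff m (Dt (Sn θ)) = ∑ l ∈ range (m + 1), (r l : ℂ) * (θ ^ l * sinD l θ) := by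
  obtain ⟨r, hr⟩ := comb_choose m
  refine ⟨fun l => (-1) ^ m * r l, fun θ => ?_⟩
  have h1 := coeff_Dt (Wn.Sn θ) m
  have h2 : HasSum (fun k : ℕ => ∑ l ∈ range (m + 1), (((-1) ^ m * r l : ℚ) : ℂ) *
      ((-1 : ℂ) ^ k * ((2 * k + 1).descFactorial l : ℂ) *
        (θ ^ (2 * k + 1) / ((2 * k + 1).factorial : ℂ))))
      (∑ l ∈ range (m + 1), (((-1) ^ m * r l : ℚ) : ℂ) * (θ ^ l * sinD l θ)) :=
    hasSum_sum fun l _ => (hasSum_desc l θ).mul_left _
  refine h1.unique (h2.congr_fun fun k => ?_)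
  have h3 : (k.choose m : ℂ) = ∑ l ∈ range (m + 1), (r l : ℂ) * ((2 * k + 1).descFactorial l : ℂ) := by
    have := congrArg (fun q : ℚ => (q : ℂ)) (hr k)
    simp only at this
    push_cast at this
    exact this
  rw [h3, OS.Sn, coeff_mk, mul_sum, sum_mul]
  refine sum_congr rfl fun l _ => ?_
  push_cast
  rw [pow_add]
  ring

/-- the first derivative -/
theorem coeff_one_Dt_Sn_pi : coeff 1 (Dt (Sn Real.pi)) = (Real.pi : ℂ) / 2 := by
  have h1 := coeff_Dt (Wn.Sn Real.pi) 1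
  have a0 := hasSum_desc 0 (Real.pi : ℂ)
  have a1 := hasSum_desc 1 (Real.pi : ℂ)
  have a2 := (a0.sub a1).mul_left (1 / 2 : ℂ)
  have e0 : sinD 0 (Real.pi : ℂ) = 0 := by simp [sinD]
  have e1 : sinD 1 (Real.pi : ℂ) = -1 := by simp [sinD]
  rw [e0, e1] at a2
  have h2 := h1.unique (a2.congr_fun fun k => ?_)
  · rw [h2]
    ring
  · rw [Nat.choose_one_right, Nat.descFactorial_zero, Nat.descFactorial_one, OS.Sn, coeff_mk,
      pow_succ]
    push_cast
    ring

end Pool.Agent.K3h96.OS
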